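import Pool.Agent.Lib.Pa7c826s.XDef

/-!
Edge isoperimetry of the hypercube.

Proof: by induction on `κ`, the number of edges between `A` and its complement is at least
`2 |A| (2 ^ κ - |A|) / 2 ^ κ` (hence at least `min`): for the two halves (top digit 0 and 1) with
`a` and `b` elements, the edges inside the halves number at least
`2 a (n - a) / n + 2 b (n - b) / n`, `n = 2 ^ κ`, those between the halves at least `|a - b|`, and
`2 a (n - a) / n + 2 b (n - b) / n + |a - b| ≥ 2 (a + b) (2 n - a - b) / (2 n)`, because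
`(a - b) ^ 2 / n ≤ |a - b|`. In the statement every edge between `A` and the complement is counted
once (from its end in `A`).
-/

namespace Pool.Agent.Lib.Pa7c826s

namespace CubeAux

theorem digit_flip (i τ : ℕ) : flipN i τ / 2 ^ i % 2 = 1 - τ / 2 ^ i % 2 := by
  have hpos : 0 < 2 ^ i := by positivity
  unfold flipN
  split_ifs with h0
  · rw [decide_eq_true_eq] at h0
    rw [Nat.add_div_right _ hpos]
    omega
  · rw [decide_eq_true_eq] at h0
    have h1 : 1 ≤ τ / 2 ^ i := by
      rcases Nat.eq_zero_or_pos (τ / 2 ^ i) with h | h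
      · rw [h] at h0
        exact absurd rfl h0
      · exact h
    have h2 : 2 ^ i ≤ τ := by
      by_contra hc
      rw [Nat.div_eq_of_lt (by omega)] at h1
      omega
    have h3 : (τ - 2 ^ i) / 2 ^ i = τ / 2 ^ i - 1 := by
      have := Nat.sub_mul_div τ (2 ^ i) 1
      simpa using this
    rw [h3]
    omega

theorem flipN_flipN (i τ : ℕ) : flipN i (flipN i τ) = τ := by
  have hpos : 0 < 2 ^ i := by positivity
  have hd := digit_flip i τ
  rcases Nat.mod_two_eq_zero_or_one (τ / 2 ^ i) with h | h
  · have e : flipN i τ = τ + 2 ^ i := by simp [flipN, h]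
    rw [e] at hd ⊢
    have h' : (τ + 2 ^ i) / 2 ^ i % 2 ≠ 0 := by omega
    rw [flipN, if_neg (by rw [decide_eq_true_eq]; exact h')]
    omega
  · have e : flipN i τ = τ - 2 ^ i := by simp [flipN, h]
    have h2 : 2 ^ i ≤ τ := by
      by_contra hc
      rw [Nat.div_eq_of_lt (by omega)] at h
      omega
    rw [e] at hd ⊢
    have h' : (τ - 2 ^ i) / 2 ^ i % 2 = 0 := by omega
    simp only [flipN, h', decide_true, if_true]
    omega

theorem flipN_ne (i τ : ℕ) : flipN i τ ≠ τ := by
  intro hc
  have hd := digit_flip i τ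
  rw [hc] at hd
  omega

theorem flipN_top (κ τ : ℕ) (h : τ < 2 ^ κ) : flipN κ τ = τ + 2 ^ κ := by
  simp [flipN, Nat.div_eq_of_lt h]

theorem flipN_top' (κ τ : ℕ) (h : τ < 2 ^ κ) : flipN κ (τ + 2 ^ κ) = τ := by
  rw [← flipN_top κ τ h, flipN_flipN]

theorem flipN_add (κ i τ : ℕ) (hi : i < κ) (_h : τ < 2 ^ κ) :
    flipN i (τ + 2 ^ κ) = flipN i τ + 2 ^ κ := by
  have hpos : 0 < 2 ^ i := by positivity
  obtain ⟨k, rfl⟩ : ∃ k, κ = i + 1 + k := ⟨κ - (i + 1), by omega⟩
  have e : 2 ^ (i + 1 + k) = 2 ^ i * (2 * 2 ^ k) := by rw [pow_add, pow_succ]; ring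
  have h1 : (τ + 2 ^ (i + 1 + k)) / 2 ^ i = τ / 2 ^ i + 2 * 2 ^ k := by
    rw [e, Nat.add_mul_div_left _ _ hpos]
  have h2 : (τ + 2 ^ (i + 1 + k)) / 2 ^ i % 2 = τ / 2 ^ i % 2 := by
    rw [h1]; omega
  rcases Nat.mod_two_eq_zero_or_one (τ / 2 ^ i) with h | h
  · have h' : (τ + 2 ^ (i + 1 + k)) / 2 ^ i % 2 = 0 := by rw [h2, h]
    simp only [flipN, h, h', decide_true, if_true]
    omega
  · have h' : (τ + 2 ^ (i + 1 + k)) / 2 ^ i % 2 = 1 := by rw [h2, h]
    have h2 : 2 ^ i ≤ τ := by
      by_contra hc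
      rw [Nat.div_eq_of_lt (by omega)] at h
      omega
    simp only [flipN, h, h']
    norm_num
    omega

/-- edges leaving a set, each direction -/
def EE (κ : ℕ) (A : Finset ℕ) : ℕ :=
  ∑ i ∈ Finset.range κ, ∑ τ ∈ A, if flipN i τ ∈ A then 0 else 1

theorem cubeN (κ : ℕ) : ∀ A : Finset ℕ, (∀ x ∈ A, x < 2 ^ κ) →
    2 * (A.card : ℤ) * (2 ^ κ - A.card) ≤ 2 ^ κ * (EE κ A : ℤ) := by
  induction κ with
  | zero =>
    intro A hA
    have hc : A.card ≤ 1 := by
      have : A ⊆ Finset.range 1 := by
        intro x hx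
        have := hA x hx
        simpa using this
      simpa using Finset.card_le_card this
    have h0 : (0 : ℤ) ≤ (EE 0 A : ℤ) := by positivity
    interval_cases hA' : A.card <;> simp
  | succ κ ih =>
    intro A hA
    set A0 : Finset ℕ := (Finset.range (2 ^ κ)).filter (fun x => x ∈ A) with hA0
    set A1 : Finset ℕ := (Finset.range (2 ^ κ)).filter (fun x => x + 2 ^ κ ∈ A) with hA1
    have m0 : ∀ x, x ∈ A0 ↔ x < 2 ^ κ ∧ x ∈ A := by
      intro x; simp [hA0]
    have m1 : ∀ x, x ∈ A1 ↔ x < 2 ^ κ ∧ x + 2 ^ κ ∈ A := by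
      intro x; simp [hA1]
    have hinj : Set.InjOn (fun x : ℕ => x + 2 ^ κ) A1 := by
      intro x _ y _ hxy
      simpa using hxy
    have hdisj : Disjoint A0 (A1.image (fun x => x + 2 ^ κ)) := by
      rw [Finset.disjoint_left]
      intro x hx hx'
      rw [m0] at hx
      rw [Finset.mem_image] at hx'
      obtain ⟨y, _, hy⟩ := hx'
      omega
    have hU : A = A0 ∪ A1.image (fun x => x + 2 ^ κ) := by
      ext x
      rw [Finset.mem_union, m0, Finset.mem_image]
      constructor
      · intro hx
        rcases lt_or_ge x (2 ^ κ) with h | h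
        · exact Or.inl ⟨h, hx⟩
        · refine Or.inr ⟨x - 2 ^ κ, ?_, Nat.sub_add_cancel h⟩
          rw [m1]
          have := hA x hx
          rw [pow_succ] at this
          refine ⟨by omega, ?_⟩
          rwa [Nat.sub_add_cancel h]
      · rintro (h | ⟨y, hy, rfl⟩)
        · exact h.2
        · rw [m1] at hy
          exact hy.2
    have hsum : ∀ f : ℕ → ℕ, ∑ x ∈ A, f x = ∑ x ∈ A0, f x + ∑ x ∈ A1, f (x + 2 ^ κ) := by
      intro f
      conv_lhs => rw [hU]
      rw [Finset.sum_union hdisj, Finset.sum_image hinj]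
    have hcard : A.card = A0.card + A1.card := by
      have := hsum (fun _ => 1)
      simpa using this
    have hE : EE (κ + 1) A = EE κ A0 + EE κ A1 +
        ((A0.filter (fun x => x ∉ A1)).card + (A1.filter (fun x => x ∉ A0)).card) := by
      unfold EE
      rw [Finset.sum_range_succ, ← Finset.sum_add_distrib]
      congr 1
      · apply Finset.sum_congr rfl
        intro i hi
        rw [Finset.mem_range] at hi
        rw [hsum]
        congr 1
        · apply Finset.sum_congr rfl
          intro x hx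
          rw [m0] at hx
          have : flipN i x ∈ A ↔ flipN i x ∈ A0 := by
            rw [m0]
            exact ⟨fun h => ⟨flipN_lt hi hx.1, h⟩, fun h => h.2⟩
          simp only [this]
        · apply Finset.sum_congr rfl
          intro x hx
          rw [m1] at hx
          have : flipN i (x + 2 ^ κ) ∈ A ↔ flipN i x ∈ A1 := by
            rw [m1, flipN_add κ i x hi hx.1]
            exact ⟨fun h => ⟨flipN_lt hi hx.1, h⟩, fun h => h.2⟩
          simp only [this]
      · rw [hsum, Finset.card_filter, Finset.card_filter]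
        congr 1
        · apply Finset.sum_congr rfl
          intro x hx
          rw [m0] at hx
          rw [flipN_top κ x hx.1]
          have : x + 2 ^ κ ∈ A ↔ x ∈ A1 := by
            rw [m1]
            exact ⟨fun h => ⟨hx.1, h⟩, fun h => h.2⟩
          simp only [this]
          by_cases h : x ∈ A1 <;> simp [h]
        · apply Finset.sum_congr rfl
          intro x hx
          rw [m1] at hx
          rw [flipN_top' κ x hx.1]
          have : x ∈ A ↔ x ∈ A0 := by
            rw [m0]
            exact ⟨fun h => ⟨hx.1, h⟩, fun h => h.2⟩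
          simp only [this]
          by_cases h : x ∈ A0 <;> simp [h]
    have i0 := ih A0 (fun x hx => ((m0 x).1 hx).1)
    have i1 := ih A1 (fun x hx => ((m1 x).1 hx).1)
    have c0 : A0.card ≤ (A0.filter (fun x => x ∉ A1)).card + A1.card := by
      have h1 := Finset.card_filter_add_card_filter_not (s := A0) (fun x => x ∉ A1)
      have h2 : (A0.filter (fun x => ¬ x ∉ A1)).card ≤ A1.card := by
        apply Finset.card_le_card
        intro x hx
        rw [Finset.mem_filter] at hx
        exact not_not.1 hx.2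
      omega
    have c1 : A1.card ≤ (A1.filter (fun x => x ∉ A0)).card + A0.card := by
      have h1 := Finset.card_filter_add_card_filter_not (s := A1) (fun x => x ∉ A0)
      have h2 : (A1.filter (fun x => ¬ x ∉ A0)).card ≤ A0.card := by
        apply Finset.card_le_card
        intro x hx
        rw [Finset.mem_filter] at hx
        exact not_not.1 hx.2
      omega
    have b0 : A0.card ≤ 2 ^ κ := by
      have : A0 ⊆ Finset.range (2 ^ κ) := Finset.filter_subset _ _
      simpa using Finset.card_le_card this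
    have b1 : A1.card ≤ 2 ^ κ := by
      have : A1 ⊆ Finset.range (2 ^ κ) := Finset.filter_subset _ _
      simpa using Finset.card_le_card this
    rw [hE, hcard]
    push_cast
    generalize EE κ A0 = e0 at *
    generalize EE κ A1 = e1 at *
    generalize (A0.filter (fun x => x ∉ A1)).card = f0 at *
    generalize (A1.filter (fun x => x ∉ A0)).card = f1 at *
    generalize A0.card = a at *
    generalize A1.card = b at *
    have b0' : (a : ℤ) ≤ 2 ^ κ := by exact_mod_cast b0
    have b1' : (b : ℤ) ≤ 2 ^ κ := by exact_mod_cast b1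
    have c0' : (a : ℤ) ≤ f0 + b := by exact_mod_cast c0
    have c1' : (b : ℤ) ≤ f1 + a := by exact_mod_cast c1
    have ha : (0 : ℤ) ≤ a := by positivity
    have hb : (0 : ℤ) ≤ b := by positivity
    have hf0 : (0 : ℤ) ≤ f0 := by positivity
    have hf1 : (0 : ℤ) ≤ f1 := by positivity
    rw [pow_succ]
    generalize (2 : ℤ) ^ κ = n at *
    have key : ((a : ℤ) - b) ^ 2 ≤ n * (f0 + f1) := by
      rcases le_total (a : ℤ) b with h | h
      · have h1 : (b - a : ℤ) * (b - a) ≤ n * (b - a) :=
          mul_le_mul_of_nonneg_right (by linarith) (by linarith)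
        have h2 : n * (b - a : ℤ) ≤ n * (f0 + f1) :=
          mul_le_mul_of_nonneg_left (by linarith) (by linarith)
        nlinarith
      · have h1 : (a - b : ℤ) * (a - b) ≤ n * (a - b) :=
          mul_le_mul_of_nonneg_right (by linarith) (by linarith)
        have h2 : n * (a - b : ℤ) ≤ n * (f0 + f1) :=
          mul_le_mul_of_nonneg_left (by linarith) (by linarith)
        nlinarith
    nlinarith

end CubeAux

open CubeAux

theorem flip_flip {κ : ℕ} (i : Fin κ) (τ : Fin (2 ^ κ)) : flip i (flip i τ) = τ := by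
  apply Fin.ext
  exact flipN_flipN _ _

theorem flip_ne {κ : ℕ} (i : Fin κ) (τ : Fin (2 ^ κ)) : flip i τ ≠ τ := by
  intro h
  exact flipN_ne _ _ (congrArg Fin.val h)

theorem flip_digit {κ : ℕ} (i : Fin κ) (τ : Fin (2 ^ κ)) :
    (flip i τ : ℕ) / 2 ^ (i : ℕ) % 2 = 1 - (τ : ℕ) / 2 ^ (i : ℕ) % 2 :=
  digit_flip _ _

theorem cube {κ : ℕ} (A : Finset (Fin (2 ^ κ))) :
    min A.card (2 ^ κ - A.card) ≤ ∑ i : Fin κ, ∑ τ ∈ A, if flip i τ ∈ A then 0 else 1 := by
  have hinj : Set.InjOn (fun x : Fin (2 ^ κ) => (x : ℕ)) A := by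
    intro x _ y _ hxy
    exact Fin.ext hxy
  have h := cubeN κ (A.image (fun x : Fin (2 ^ κ) => (x : ℕ))) (by
    intro x hx
    rw [Finset.mem_image] at hx
    obtain ⟨y, _, rfl⟩ := hx
    exact y.2)
  rw [Finset.card_image_of_injOn hinj] at h
  have hE : EE κ (A.image (fun x : Fin (2 ^ κ) => (x : ℕ))) =
      ∑ i : Fin κ, ∑ τ ∈ A, if flip i τ ∈ A then 0 else 1 := by
    unfold EE
    rw [Finset.sum_range]
    apply Finset.sum_congr rfl
    intro i _
    rw [Finset.sum_image hinj]
    apply Finset.sum_congr rfl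
    intro τ _
    have : flipN i τ ∈ A.image (fun x : Fin (2 ^ κ) => (x : ℕ)) ↔ flip i τ ∈ A := by
      rw [Finset.mem_image]
      constructor
      · rintro ⟨y, hy, he⟩
        have : y = flip i τ := Fin.ext he
        rwa [← this]
      · intro hy
        exact ⟨flip i τ, hy, rfl⟩
    simp only [this]
  rw [hE] at h
  have hc : A.card ≤ 2 ^ κ := by simpa using Finset.card_le_univ A
  generalize (∑ i : Fin κ, ∑ τ ∈ A, if flip i τ ∈ A then 0 else 1) = e at *
  generalize A.card = a at *
  obtain ⟨b, hb⟩ : ∃ b, 2 ^ κ = a + b := ⟨2 ^ κ - a, by omega⟩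
  have hb' : (2 : ℤ) ^ κ = a + b := by exact_mod_cast hb
  rw [hb'] at h
  rw [hb, Nat.add_sub_cancel_left]
  have hpos : 0 < a + b := by
    rw [← hb]; positivity
  have h2 : 2 * a * b ≤ (a + b) * e := by
    have : 2 * (a : ℤ) * b ≤ (a + b) * e := by
      have h3 : ((a : ℤ) + b - a) = b := by ring
      rw [h3] at h
      exact h
    exact_mod_cast this
  by_contra hlt
  rw [not_le, lt_min_iff] at hlt
  obtain ⟨h3, h4⟩ := hlt
  nlinarith

end Pool.Agent.Lib.Pa7c826s
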