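import Pool.Agent.Lib.Pa7c826s.XDef
import Pool.Agent.Lib.Pa7c826t.EPoly
import Pool.Agent.Lib.P8e91ed.PolyBin

/-!
The adjacency is computable in polynomial time.

Hint: adapt `poly_F3` (Lib/Pa7c826t/EPoly.lean) with `PolyN.divz`, `PolyN.modz`, `PolyN.ite`,
`PolyB.ite`, `poly_srcE`, `poly_tgtE`, `poly_repX`, `poly_repY`. For `2 ^ i` use `n_pow`
(Lib/P8e91ed/PolyBin.lean) on the domain where `l < κ * 2` (`PolyC.ite` restricts the domain of the
branches), `i = l / 2 < κ`, so `2 ^ i ≤ 2 ^ κ`, which is polynomially bounded by `h2`.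
-/

namespace Pool.Agent.Lib.Pa7c826s

open Pool.Agent.Lib.PolyTime Pool.Agent.Lib.Pa7c826 Pool.Agent.Lib.Pa7c826t

variable {α : Type} {D : α → Prop} {ctx : List (α → List Bool)} {G : α → BGraph} {s : α → ℕ}

namespace TPolyBAux

theorem niteR {φ : α → Bool} {f g : α → ℕ} (hφ : PolyB D ctx φ)
    (hf : PolyN (fun a => D a ∧ φ a = true) ctx f)
    (hg : PolyN (fun a => D a ∧ φ a = false) ctx g) :
    PolyN D ctx (fun a => if φ a = true then f a else g a) := by
  refine PolyC.congr (PolyC.ite hφ hf hg) (fun a _ => ?_)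
  show (if φ a = true then un (f a) else un (g a)) = un (if φ a = true then f a else g a)
  split_ifs <;> rfl

theorem pow_div {κ l : α → ℕ} (hl : PolyN D ctx l) (h2 : PolyN D ctx (fun x => 2 ^ κ x))
    (h : ∀ x, D x → l x < κ x * 2) : PolyN D ctx (fun x => 2 ^ (l x / 2)) := by
  obtain ⟨B, hB⟩ := PolyC.length_le h2
  refine Pool.Agent.Lib.P8e91ed.PT.n_pow (PolyN.const 2)
    (PolyN.div hl (PolyN.const 2) (fun _ _ => by norm_num)) ⟨B, fun x hx => ?_⟩
  have h1 := hB x hx
  rw [un_length] at h1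
  have h3 := h x hx
  exact le_trans (Nat.pow_le_pow_right (by norm_num) (by omega)) h1

theorem poly_flipN {κ l t : α → ℕ} (hl : PolyN D ctx l) (ht : PolyN D ctx t)
    (h2 : PolyN D ctx (fun x => 2 ^ κ x)) (h : ∀ x, D x → l x < κ x * 2) :
    PolyN D ctx (fun x => flipN (l x / 2) (t x)) := by
  have hp := pow_div hl h2 h
  have hd := PolyN.divPow ht (PolyN.div hl (PolyN.const 2) (fun _ _ => by norm_num))
  have hm := PolyN.mod hd (PolyN.const 2) (fun _ _ => by norm_num)
  exact PolyN.ite (PolyB.natEq hm (PolyN.const 0)) (ht.add hp) (PolyN.sub ht hp)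

theorem poly_RR {Y : α → ℕ} (hY : PolyN D ctx Y) : PolyN D ctx (fun x => RR (Y x)) :=
  (PolyN.const 1).add ((PolyN.const (3 * 7)).add (hY.mul (PolyN.const 2)))

theorem poly_parN {l : α → ℕ} (hl : PolyN D ctx l) : PolyN D ctx (fun x => parN (l x)) := by
  have hm := PolyN.mod hl (PolyN.const 2) (fun _ _ => by norm_num)
  exact PolyN.ite (PolyB.lt hl (PolyN.const 8)) (PolyN.const 0)
    (PolyN.ite (PolyB.lt hl (PolyN.const 22)) (PolyN.sub hl (PolyN.const 7))
      (PolyN.ite (PolyB.natEq hm (PolyN.const 0)) (PolyN.const 0) (PolyN.sub hl (PolyN.const 1))))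

theorem poly_srN {l : α → ℕ} (hl : PolyN D ctx l) : PolyN D ctx (fun x => srN (l x)) :=
  PolyN.ite ((PolyB.le (PolyN.const 8) hl).and (PolyB.lt hl (PolyN.const 22))) (poly_parN hl) hl

theorem poly_embN {Y v : α → ℕ} (hY : PolyN D ctx Y) (hv : PolyN D ctx v) :
    PolyN D ctx (fun x => embN (Y x) (v x)) := by
  have hm := PolyN.mod hv (PolyN.const 6) (fun _ _ => by norm_num)
  have hd := PolyN.div hv (PolyN.const 6) (fun _ _ => by norm_num)
  exact ((PolyN.const 1).add hm).add ((poly_RR hY).mul hd)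

theorem poly_ptN {κ Y l V : α → ℕ} (hw : PolyC D ctx (fun x => inCode (G x) (s x)))
    (hκ : PolyN D ctx κ) (h2 : PolyN D ctx (fun x => 2 ^ κ x)) (hY : PolyN D ctx Y)
    (hl : PolyN D ctx l) (hV : PolyN D ctx V) :
    PolyN D ctx (fun x => ptN (κ x) (Y x) (repI (ecount (G x)) (xI (G x)))
      (repI (ecount (G x)) (yI (G x))) (l x) (V x)) := by
  have hR := poly_RR hY
  have hk2 := hκ.mul (PolyN.const (D := D) (ctx := ctx) 2)
  have hVm := PolyN.modz hV hR
  have hVd := PolyN.divz hV hR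
  have hb1 := PolyB.lt hl hk2
  have hb2 := PolyB.lt hl (hk2.add hR)
  have hr := PolyN.sub hl hk2
  have hp := poly_parN hr
  have hg := PolyN.sub hl (hk2.add hR)
  have hs := poly_embN hY (poly_srcE hw hg)
  have ht := poly_embN hY (poly_tgtE hw hg)
  refine niteR hb1 ?_ ?_
  · refine PolyN.ite (PolyC.mono (PolyB.natEq hVm (PolyN.const 0)) fun _ h => h.1) ?_
      (PolyC.mono hV fun _ h => h.1)
    refine PolyN.mul (PolyC.mono hR fun _ h => h.1) ?_
    exact poly_flipN (PolyC.mono hl fun _ h => h.1) (PolyC.mono hVd fun _ h => h.1)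
      (PolyC.mono h2 fun _ h => h.1) (fun x hx => by simpa using hx.2)
  · refine PolyC.mono (D := D) ?_ fun _ h => h.1
    exact PolyN.ite hb2
      (PolyN.ite (PolyB.natEq hVm hr) ((hR.mul hVd).add hp)
        (PolyN.ite (PolyB.natEq hVm hp) ((hR.mul hVd).add hr) hV))
      (PolyN.ite (PolyB.natEq hV hs) ht (PolyN.ite (PolyB.natEq hV ht) hs hV))

theorem poly_drN {κ Y l V : α → ℕ} (hw : PolyC D ctx (fun x => inCode (G x) (s x)))
    (hκ : PolyN D ctx κ) (hY : PolyN D ctx Y)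
    (hl : PolyN D ctx l) (hV : PolyN D ctx V) :
    PolyB D ctx (fun x => drN (κ x) (Y x) (repI (ecount (G x)) (xI (G x))) (l x) (V x)) := by
  have hR := poly_RR hY
  have hk2 := hκ.mul (PolyN.const (D := D) (ctx := ctx) 2)
  have hVm := PolyN.modz hV hR
  have hVd := PolyN.divz hV hR
  have hb1 := PolyB.lt hl hk2
  have hb2 := PolyB.lt hl (hk2.add hR)
  have hr := PolyN.sub hl hk2
  have hg := PolyN.sub hl (hk2.add hR)
  have hs := poly_embN hY (poly_srcE hw hg)
  have hd := PolyN.divPow hVd (PolyN.div hl (PolyN.const 2) (fun _ _ => by norm_num))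
  have hm := PolyN.mod hd (PolyN.const 2) (fun _ _ => by norm_num)
  have hl2 := PolyN.mod hl (PolyN.const 2) (fun _ _ => by norm_num)
  have h1 := PolyB.natEq hm hl2
  have h3 := PolyB.natEq hVm (poly_srN hr)
  have h4 := PolyB.natEq hV hs
  have h5 := PolyB.ite hb2 (PolyC.mono h3 fun _ h => h.1) (PolyC.mono h4 fun _ h => h.1)
  exact PolyB.ite hb1 (PolyC.mono h1 fun _ h => h.1) (PolyC.mono h5 fun _ h => h.1)

theorem poly_F5g {κ Y c1 U S V T : α → ℕ} (hw : PolyC D ctx (fun x => inCode (G x) (s x)))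
    (hκ : PolyN D ctx κ) (h2 : PolyN D ctx (fun x => 2 ^ κ x)) (hY : PolyN D ctx Y)
    (hc : PolyN D ctx c1) (hU : PolyN D ctx U) (hS : PolyN D ctx S) (hV : PolyN D ctx V)
    (hT : PolyN D ctx T) :
    PolyB D ctx (fun x => F5g (κ x) (Y x) (c1 x) (repI (ecount (G x)) (xI (G x)))
      (repI (ecount (G x)) (yI (G x))) (U x) (S x) (V x) (T x)) := by
  have hg := PolyN.divz hT hc
  have hpt := poly_ptN hw hκ h2 hY hg hV
  have hdr := poly_drN hw hκ hY hg hV
  have hUV := PolyB.natEq hU hV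
  have hUp := PolyB.natEq hU hpt
  have hST := PolyB.natEq hS hT
  have h0 := PolyB.natEq hS (hc.mul hg)
  have A := (hUV.and hST.not).or (hUp.and h0)
  have B := (hUV.and h0.not).or (hUp.and hST)
  have C := PolyB.ite hdr (PolyC.mono A fun _ h => h.1) (PolyC.mono B fun _ h => h.1)
  exact PolyB.ite (PolyB.natEq hpt hV) (PolyC.mono hUV fun _ h => h.1)
    (PolyC.mono C fun _ h => h.1)

end TPolyBAux

open TPolyBAux

theorem poly_F5 {κ Y c1 f u v : α → ℕ} (hw : PolyC D ctx (fun x => inCode (G x) (s x)))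
    (hκ : PolyN D ctx κ) (h2 : PolyN D ctx (fun x => 2 ^ κ x)) (hY : PolyN D ctx Y)
    (hc : PolyN D ctx c1) (hf : PolyN D ctx f) (hu : PolyN D ctx u) (hv : PolyN D ctx v) :
    PolyB D ctx (fun x => F5 (κ x) (Y x) (ecount (G x)) (c1 x) (f x)
      (repI (ecount (G x)) (xI (G x))) (repI (ecount (G x)) (yI (G x))) (u x) (v x)) := by
  have hs : PolyN D ctx (fun x => LL (κ x) (Y x) (ecount (G x)) * c1 x) :=
    ((hκ.mul (PolyN.const 2)).add ((poly_RR hY).add ((poly_ecount hw).mul (PolyN.const 5)))).mul hc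
  have hd := hs.add hf
  have hU := PolyN.divz hu hd
  have hS := PolyN.modz hu hd
  have hV := PolyN.divz hv hd
  have hT := PolyN.modz hv hd
  have hlt := PolyB.lt hT hs
  have h1 := poly_F5g hw hκ h2 hY hc hU hS hV hT
  have h3 := PolyB.natEq hU hV
  exact PolyB.ite hlt (PolyC.mono h1 fun _ h => h.1) (PolyC.mono h3 fun _ h => h.1)

end Pool.Agent.Lib.Pa7c826s
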