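import Pool.Agent.Lib.Pa7c826s.XDef
import Pool.Agent.Lib.Pa7c826t.EPoly
import Pool.Agent.Lib.P8e91ed.PolyBin

/-!
The sizes are computable in polynomial time.

Hint: `n_log`, `PolyN.pow`, `PolyN.sub`, `PolyN.half` and `2 ^ Lx a b m t` (at most
`2 (a + b + m + 2 t + 30)`): `n_pow` of Lib/P8e91ed/PolyBin.lean with the bound
`2 ^ Lx = 2 * 2 ^ log ≤ 2 (…)` (a `Polynomial` bound follows from `PolyC.length_le`, see
`Bdd.ofN`). Then `2 ^ rx = (2 ^ Lx) ^ 2 * 2 ^ Cq`, `2 ^ (Kq q * Lx * k) = (2 ^ Lx) ^ (Kq q * k)`,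
and `2 ^ kx ≤ 2 ^ (Kq q * Lx * (q - p))`: `n_pow` again, or a quotient.
-/

namespace Pool.Agent.Lib.Pa7c826s

open Pool.Agent.Lib.PolyTime Pool.Agent.Lib.Pa7c826 Pool.Agent.Lib.Pa7c826t

variable {α : Type} {D : α → Prop} {ctx : List (α → List Bool)} {a b m t : α → ℕ}

theorem poly_Lx (ha : PolyN D ctx a) (hb : PolyN D ctx b) (hm : PolyN D ctx m)
    (ht : PolyN D ctx t) : PolyN D ctx (fun x => Lx (a x) (b x) (m x) (t x)) :=
  (Pool.Agent.Lib.P8e91ed.PT.n_log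
    ((((ha.add hb).add hm).add ((PolyN.const 2).mul ht)).add (PolyN.const 30))).add (PolyN.const 1)

namespace TPolyAAux

theorem two_Lx (ha : PolyN D ctx a) (hb : PolyN D ctx b) (hm : PolyN D ctx m)
    (ht : PolyN D ctx t) : PolyN D ctx (fun x => 2 ^ Lx (a x) (b x) (m x) (t x)) := by
  have hs : PolyN D ctx (fun x => 2 * (a x + b x + m x + 2 * t x + 30)) :=
    (PolyN.const 2).mul
      ((((ha.add hb).add hm).add ((PolyN.const 2).mul ht)).add (PolyN.const 30))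
  refine Pool.Agent.Lib.P8e91ed.PT.n_pow (PolyN.const 2) (poly_Lx ha hb hm ht)
    ((Pool.Agent.Lib.P8e91ed.PT.Bdd.ofN hs).le fun x _ => ?_)
  unfold Lx
  rw [pow_succ, mul_comm]
  exact Nat.mul_le_mul_left _ (Nat.pow_log_le_self 2 (by omega))

theorem two_mul_Lx (ha : PolyN D ctx a) (hb : PolyN D ctx b) (hm : PolyN D ctx m)
    (ht : PolyN D ctx t) (k l : ℕ) :
    PolyN D ctx (fun x => 2 ^ (k * Lx (a x) (b x) (m x) (t x) * l)) :=
  (PolyN.pow (two_Lx ha hb hm ht) (k * l)).congr (fun x _ => by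
    rw [← pow_mul]
    congr 1
    ring)

end TPolyAAux

open TPolyAAux

theorem poly_kx (p q : ℕ) (ha : PolyN D ctx a) (hb : PolyN D ctx b) (hm : PolyN D ctx m)
    (ht : PolyN D ctx t) : PolyN D ctx (fun x => kx p q (Lx (a x) (b x) (m x) (t x))) := by
  have L := poly_Lx ha hb hm ht
  exact PolyN.sub (PolyN.sub (((PolyN.const (Kq q)).mul L).mul (PolyN.const (q - p)))
    (PolyN.const 1)) (((PolyN.const 2).mul L).add (PolyN.const (Cq q)))

theorem poly_two_kx (p q : ℕ) (ha : PolyN D ctx a) (hb : PolyN D ctx b) (hm : PolyN D ctx m)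
    (ht : PolyN D ctx t) : PolyN D ctx (fun x => 2 ^ kx p q (Lx (a x) (b x) (m x) (t x))) := by
  refine Pool.Agent.Lib.P8e91ed.PT.n_pow (PolyN.const 2) (poly_kx p q ha hb hm ht)
    ((Pool.Agent.Lib.P8e91ed.PT.Bdd.ofN (two_mul_Lx ha hb hm ht (Kq q) (q - p))).le
      fun x _ => ?_)
  refine Nat.pow_le_pow_right (by norm_num) ?_
  unfold kx
  omega

theorem poly_Yx (q : ℕ) (ha : PolyN D ctx a) (hb : PolyN D ctx b) (hm : PolyN D ctx m)
    (ht : PolyN D ctx t) : PolyN D ctx (fun x => Yx q (Lx (a x) (b x) (m x) (t x))) := by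
  have h : PolyN D ctx (fun x => 2 ^ rx q (Lx (a x) (b x) (m x) (t x))) :=
    ((two_mul_Lx ha hb hm ht 2 1).mul (PolyN.const (2 ^ Cq q))).congr (fun x _ => by
      unfold rx
      rw [mul_one, ← pow_add])
  exact PolyN.half (PolyN.sub h (PolyN.const 22))

theorem poly_cx (q : ℕ) (ha : PolyN D ctx a) (hb : PolyN D ctx b) (hm : PolyN D ctx m)
    (ht : PolyN D ctx t) : PolyN D ctx (fun x => cx q (a x) (b x) (m x) (t x)) :=
  poly_ce ha hb hm ((PolyN.const 1).add ((PolyN.const (3 * 7)).add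
    ((poly_Yx q ha hb hm ht).mul (PolyN.const 2))))

theorem poly_slx (p q : ℕ) (ha : PolyN D ctx a) (hb : PolyN D ctx b) (hm : PolyN D ctx m)
    (ht : PolyN D ctx t) : PolyN D ctx (fun x => slx p q (a x) (b x) (m x) (t x)) :=
  (((poly_kx p q ha hb hm ht).mul (PolyN.const 2)).add
    (((PolyN.const 1).add ((PolyN.const (3 * 7)).add
      ((poly_Yx q ha hb hm ht).mul (PolyN.const 2)))).add (hm.mul (PolyN.const 5)))).mul
    ((poly_cx q ha hb hm ht).add (PolyN.const 1))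

theorem poly_fx (p q : ℕ) (ha : PolyN D ctx a) (hb : PolyN D ctx b) (hm : PolyN D ctx m)
    (ht : PolyN D ctx t) : PolyN D ctx (fun x => fx p q (a x) (b x) (m x) (t x)) :=
  PolyN.sub (two_mul_Lx ha hb hm ht (Kq q) p) (poly_slx p q ha hb hm ht)

end Pool.Agent.Lib.Pa7c826s
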