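import Pool.Agent.Lib.Pa7c826s.Cube

/-!
The pairings of the tile system.
-/

namespace Pool.Agent.Lib.Pa7c826s

open Pool.Agent.Lib.Pa7c826 Pool.Agent.Lib.Pa7c826t

theorem card_TB (κ Y : ℕ) : Fintype.card (TB κ Y) = 2 ^ κ * RR Y := by
  simp [TB, Role, RR]

theorem card_TL (κ Y M : ℕ) : Fintype.card (TL κ Y M) = LL κ Y M := by
  simp [TL, Role, LL, RR]

theorem emb_injective {κ Y M : ℕ} (hM : M + 1 ≤ 2 ^ κ) :
    Function.Injective (emb (Y := Y) hM) := by
  rintro ⟨a, b⟩ ⟨a', b'⟩ h
  simp only [emb, Prod.mk.injEq, Sum.inr.injEq, Sum.inl.injEq, true_and] at h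
  obtain ⟨h1, h2⟩ := h
  have e1 : a = a' := by
    apply Fin.ext
    have := congrArg Fin.val h1
    simpa using this
  have e2 : b = b' := Fin.castSucc_injective _ h2
  rw [e1, e2]

namespace TPairAux

theorem swap_dir {α : Type} [DecidableEq α] (a b s x : α) (hs : s = a ∨ s = b)
    (h : Equiv.swap a b x ≠ x) :
    decide (Equiv.swap a b x = s) = !decide (x = s) := by
  have hab : a ≠ b := by
    rintro rfl
    simp at h
  by_cases hxa : x = a
  · subst hxa
    rw [Equiv.swap_apply_left]
    rcases hs with rfl | rfl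
    · simp [hab.symm]
    · simp [hab]
  · by_cases hxb : x = b
    · subst hxb
      rw [Equiv.swap_apply_right]
      rcases hs with rfl | rfl
      · simp [hab.symm]
      · simp [hab]
    · exact absurd (Equiv.swap_apply_of_ne_of_ne hxa hxb) h

end TPairAux

theorem tpair {κ Y M : ℕ} (hM : M + 1 ≤ 2 ^ κ) (rl rr : Fin M → Fin M) :
    Pairing (tpt (Y := Y) hM rl rr) (tdr hM rl) := by
  constructor
  · rintro (⟨i, b⟩ | (l | g)) ⟨τ, r⟩
    · by_cases hr : r = .inl 0
      · simp [tpt, hr, flip_flip]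
      · simp [tpt, hr]
    · simp [tpt]
    · simp [tpt]
  · rintro (⟨i, b⟩ | (l | g)) ⟨τ, r⟩ h
    · by_cases hr : r = .inl 0
      · have h1 : tpt (Y := Y) hM rl rr (.inl (i, b)) (τ, r) = (flip i τ, r) := by
          simp [tpt, hr]
        rw [h1]
        simp only [tdr]
        rw [flip_digit]
        have hb : (b : ℕ) < 2 := b.2
        rw [Bool.eq_not_iff, ne_eq, decide_eq_decide]
        omega
      · exact absurd (by simp [tpt, hr]) h
    · have h1 : tpt (Y := Y) hM rl rr (.inr (.inl l)) (τ, r) =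
          (τ, Equiv.swap l (par l) r) := rfl
      have h2 : Equiv.swap l (par l) r ≠ r := by
        intro h3
        apply h
        rw [h1, h3]
      rw [h1]
      simp only [tdr]
      apply TPairAux.swap_dir _ _ _ _ _ h2
      unfold sr
      cases isSrc l <;> simp
    · have h1 : tpt (Y := Y) hM rl rr (.inr (.inr g)) (τ, r) =
          Equiv.swap (emb hM (esrc rl g)) (emb hM (etgt rr g)) (τ, r) := rfl
      rw [h1] at h ⊢
      simp only [tdr]
      exact TPairAux.swap_dir _ _ _ _ (Or.inl rfl) h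

end Pool.Agent.Lib.Pa7c826s
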