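import Pool.Agent.Lib.Pa7c826s.XDef

/-!
The block graph is regular.

Hint: adapt Lib/Pa7c826/BlockDeg.lean. Right vertices `v = (x, .inl (l, j))`: the whole block `x`,
minus one vertex plus one vertex of the block `pt l x` when `pt l x ≠ x`. Left vertices
`u = (x, s)`: the map `v ↦ (x, v.2)` is a bijection from the neighbours of `u` to the block `x`
(neighbours outside the block `x` are of the form `(pt l x, .inl (l, j))`).
-/

namespace Pool.Agent.Lib.Pa7c826s

open Pool.Agent.Lib.Pa7c826 Pool.Agent.Lib.Pa7c826t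

variable {Λ Blk : Type} [Fintype Λ] [Fintype Blk] {pt : Λ → Blk → Blk}
  {dr : Λ → Blk → Bool} {c f : ℕ}

namespace XDegAux

omit [Fintype Λ] [Fintype Blk] in
theorem same_iff {u v : Vx Λ Blk c f} (h : u.1 = v.1) : XRel pt dr c f u v ↔
    ¬ ∃ g : Λ × Fin (c + 1), v.2 = .inl g ∧ pt g.1 v.1 ≠ v.1 ∧
      ((dr g.1 v.1 = true ∧ u.2 = .inl g) ∨ (dr g.1 v.1 = false ∧ u.2 = .inl (g.1, 0))) := by
  unfold XRel
  rcases hv : v.2 with g | s'
  · simp only
    constructor
    · rintro hR ⟨g', hg, ha, hh⟩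
      simp only [Sum.inl.injEq] at hg
      subst hg
      rcases hR with ⟨h1, _⟩ | ⟨_, h2, ⟨_, h4⟩ | ⟨h3, _⟩⟩ | ⟨_, h2, ⟨_, h4⟩ | ⟨h3, _⟩⟩
      · exact ha h1
      · rcases hh with ⟨_, h6⟩ | ⟨h5, _⟩
        · exact h4 h6
        · rw [h2] at h5
          simp at h5
      · exact ha (h3.symm.trans h)
      · rcases hh with ⟨h5, _⟩ | ⟨_, h6⟩
        · rw [h2] at h5
          simp at h5
        · exact h4 h6
      · exact ha (h3.symm.trans h)
    · intro hn
      by_cases h1 : pt g.1 v.1 = v.1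
      · exact Or.inl ⟨h1, h⟩
      · cases h2 : dr g.1 v.1 with
        | true =>
          exact Or.inr (Or.inl ⟨h1, rfl, Or.inl ⟨h, fun e => hn ⟨g, rfl, h1, Or.inl ⟨h2, e⟩⟩⟩⟩)
        | false =>
          exact Or.inr (Or.inr ⟨h1, rfl, Or.inl ⟨h, fun e => hn ⟨g, rfl, h1, Or.inr ⟨h2, e⟩⟩⟩⟩)
  · simp only
    constructor
    · rintro _ ⟨g, hg, _⟩
      simp at hg
    · intro _; exact h

omit [Fintype Λ] [Fintype Blk] in
theorem diff_iff {u v : Vx Λ Blk c f} (h : u.1 ≠ v.1) : XRel pt dr c f u v ↔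
    ∃ g : Λ × Fin (c + 1), v.2 = .inl g ∧ u.1 = pt g.1 v.1 ∧
      ((dr g.1 v.1 = true ∧ u.2 = .inl (g.1, 0)) ∨ (dr g.1 v.1 = false ∧ u.2 = .inl g)) := by
  unfold XRel
  rcases hv : v.2 with g | s'
  · simp only
    constructor
    · rintro (⟨_, h1⟩ | ⟨_, h2, ⟨h3, _⟩ | ⟨h3, h4⟩⟩ | ⟨_, h2, ⟨h3, _⟩ | ⟨h3, h4⟩⟩)
      · exact absurd h1 h
      · exact absurd h3 h
      · exact ⟨g, rfl, h3, Or.inl ⟨h2, h4⟩⟩
      · exact absurd h3 h
      · exact ⟨g, rfl, h3, Or.inr ⟨h2, h4⟩⟩
    · rintro ⟨g', hg, h1, h2⟩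
      simp only [Sum.inl.injEq] at hg
      subst hg
      have hne : pt g.1 v.1 ≠ v.1 := fun e => h (h1.trans e)
      rcases h2 with ⟨h2, h3⟩ | ⟨h2, h3⟩
      · exact Or.inr (Or.inl ⟨hne, h2, Or.inr ⟨h1, h3⟩⟩)
      · exact Or.inr (Or.inr ⟨hne, h2, Or.inr ⟨h1, h3⟩⟩)
  · simp only
    constructor
    · intro h1
      exact absurd h1 h
    · rintro ⟨g', hg, _⟩
      simp at hg

end XDegAux

open XDegAux

theorem ldeg_x (hp : Pairing pt dr) (u : Vx Λ Blk c f) :
    {v | XRel pt dr c f u v}.ncard = Fintype.card Λ * (c + 1) + f := by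
  classical
  rw [← ncard_fiber (Γ := Λ) (c := c) (f := f) u.1]
  refine Set.ncard_congr (fun v _ => (u.1, v.2)) (fun v _ => rfl) ?_ ?_
  · -- injective
    have key : ∀ v v' : Vx Λ Blk c f, XRel pt dr c f u v →
        XRel pt dr c f u v' → v.2 = v'.2 → u.1 = v.1 → u.1 = v'.1 := by
      intro v v' hv hv' h2 h1
      by_contra hne
      rw [diff_iff hne] at hv'
      rw [same_iff h1] at hv
      obtain ⟨g, hg, ha, hh⟩ := hv'
      have hb : pt g.1 v.1 = v'.1 := by
        rw [← h1, ha, hp.inv]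
      have hc : pt g.1 v.1 ≠ v.1 := by
        rw [hb, ← h1]
        exact fun e => hne e.symm
      have hd : dr g.1 v'.1 = !dr g.1 v.1 := by
        rw [← hb]
        exact hp.dir _ _ hc
      refine hv ⟨g, h2.trans hg, hc, ?_⟩
      rcases hh with ⟨h4, h5⟩ | ⟨h4, h5⟩
      · refine Or.inr ⟨?_, h5⟩
        rw [h4] at hd
        cases h6 : dr g.1 v.1
        · rfl
        · rw [h6] at hd
          simp at hd
      · refine Or.inl ⟨?_, h5⟩
        rw [h4] at hd
        cases h6 : dr g.1 v.1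
        · rw [h6] at hd
          simp at hd
        · rfl
    intro v v' hv hv' h
    simp only [Prod.mk.injEq, true_and] at h
    refine Prod.ext ?_ h
    by_cases h1 : u.1 = v.1
    · exact h1.symm.trans (key v v' hv hv' h h1)
    · by_cases h2 : u.1 = v'.1
      · exact absurd (key v' v hv' hv h.symm h2) h1
      · obtain ⟨g, hg, h3, _⟩ := (diff_iff h1).1 hv
        obtain ⟨g', hg', h3', _⟩ := (diff_iff h2).1 hv'
        have e : g = g' := by
          have := hg.symm.trans (h.trans hg')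
          simpa using this
        subst e
        rw [← hp.inv g.1 v.1, ← hp.inv g.1 v'.1, ← h3, ← h3']
  · -- surjective
    rintro ⟨x, s⟩ hx
    have hx' : x = u.1 := hx
    subst hx'
    by_cases h : XRel pt dr c f u (u.1, s)
    · exact ⟨(u.1, s), h, rfl⟩
    · rw [same_iff (u := u) (v := (u.1, s)) rfl, not_not] at h
      obtain ⟨g, hg, ha, hh⟩ := h
      simp only at hg hh ha
      subst hg
      refine ⟨(pt g.1 u.1, .inl g), ?_, rfl⟩
      show XRel pt dr c f u (pt g.1 u.1, .inl g)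
      rw [diff_iff (fun e => ha e.symm)]
      refine ⟨g, rfl, (hp.inv _ _).symm, ?_⟩
      have hd := hp.dir g.1 u.1 ha
      rcases hh with ⟨h1, h2⟩ | ⟨h1, h2⟩
      · refine Or.inr ⟨?_, h2⟩
        simp only
        rw [hd, h1]
        rfl
      · refine Or.inl ⟨?_, h2⟩
        simp only
        rw [hd, h1]
        rfl

theorem rdeg_x (hp : Pairing pt dr) (v : Vx Λ Blk c f) :
    {u | XRel pt dr c f u v}.ncard = Fintype.card Λ * (c + 1) + f := by
  classical
  have _ := hp
  rw [← ncard_fiber (Γ := Λ) (c := c) (f := f) v.1]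
  rcases hv : v.2 with g | s
  · -- remove one vertex, add another one
    have key : ∀ (p q : Vx Λ Blk c f), p.1 = v.1 → q.1 ≠ v.1 →
        {u | XRel pt dr c f u v} = insert q ({u | u.1 = v.1} \ {p}) →
        {u | XRel pt dr c f u v}.ncard =
          {u : Vx Λ Blk c f | u.1 = v.1}.ncard := by
      intro p q hp hq e
      rw [e, Set.ncard_insert_of_notMem (fun h => hq h.1) (Set.toFinite _)]
      exact Set.ncard_sdiff_singleton_add_one hp (Set.toFinite _)
    by_cases h0 : pt g.1 v.1 = v.1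
    · congr 1
      ext u
      simp only [Set.mem_ofPred_eq]
      unfold XRel
      rw [hv]
      simp only
      constructor
      · rintro (⟨_, h⟩ | ⟨h, _⟩ | ⟨h, _⟩)
        · exact h
        · exact absurd h0 h
        · exact absurd h0 h
      · intro h
        exact Or.inl ⟨h0, h⟩
    · cases h1 : dr g.1 v.1 with
      | true =>
        refine key (v.1, .inl g) (pt g.1 v.1, .inl (g.1, 0)) rfl h0 ?_
        ext u
        simp only [Set.mem_ofPred_eq, Set.mem_insert_iff, Set.mem_sdiff, Set.mem_singleton_iff]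
        unfold XRel
        rw [hv]
        simp only
        constructor
        · rintro (⟨h2, _⟩ | ⟨_, _, ⟨h3, h4⟩ | ⟨h3, h4⟩⟩ | ⟨_, h3, _⟩)
          · exact absurd h2 h0
          · exact Or.inr ⟨h3, fun e => h4 (by rw [e])⟩
          · exact Or.inl (Prod.ext h3 h4)
          · rw [h1] at h3
            simp at h3
        · rintro (h3 | ⟨h3, h4⟩)
          · exact Or.inr (Or.inl ⟨h0, h1, Or.inr ⟨by rw [h3], by rw [h3]⟩⟩)
          · exact Or.inr (Or.inl ⟨h0, h1, Or.inl ⟨h3, fun e => h4 (Prod.ext h3 e)⟩⟩)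
      | false =>
        refine key (v.1, .inl (g.1, 0)) (pt g.1 v.1, .inl g) rfl h0 ?_
        ext u
        simp only [Set.mem_ofPred_eq, Set.mem_insert_iff, Set.mem_sdiff, Set.mem_singleton_iff]
        unfold XRel
        rw [hv]
        simp only
        constructor
        · rintro (⟨h2, _⟩ | ⟨_, h3, _⟩ | ⟨_, _, ⟨h3, h4⟩ | ⟨h3, h4⟩⟩)
          · exact absurd h2 h0
          · rw [h1] at h3
            simp at h3
          · exact Or.inr ⟨h3, fun e => h4 (by rw [e])⟩
          · exact Or.inl (Prod.ext h3 h4)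
        · rintro (h3 | ⟨h3, h4⟩)
          · exact Or.inr (Or.inr ⟨h0, h1, Or.inr ⟨by rw [h3], by rw [h3]⟩⟩)
          · exact Or.inr (Or.inr ⟨h0, h1, Or.inl ⟨h3, fun e => h4 (Prod.ext h3 e)⟩⟩)
  · congr 1
    ext u
    simp only [Set.mem_ofPred_eq]
    unfold XRel
    rw [hv]

end Pool.Agent.Lib.Pa7c826s
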