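import Pool.Agent.Lib.Pa7c826s.XDef
import Pool.Agent.Lib.Pa7c826t.ETotal

/-!
The sum over the states of the blocks that carry the given graph.

Proof: the index `(Fin.castLE hM e, k)`, `(e, k) : EB M`, is injective; the states of the other
blocks are free, so `isum` is `2 ^ (6 * 2 ^ κ - (M + 1) * 6)` times the sum over
`σ : EB M → Bool` of `∏ g, nw c (σ (esrc rl g)) (σ (etgt rr g))`. By `wt_free`, `wt_LR`, `wt_RL`,
`xx_eq`, `yy_eq`: `wt c True s t = 4 ^ (c + 1) * nw c s t`. Now use `esum_vertices`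
(Lib/Pa7c826t/ESum.lean) and, as in `epureTotal_eq` (Lib/Pa7c826t/ETotal.lean),
`pw c True s t = 2 * (4 ^ (c + 1)) ^ 5 * rw' c True s t`.
-/

namespace Pool.Agent.Lib.Pa7c826s

open Pool.Agent.Lib.Pa7c826 Pool.Agent.Lib.Pa7c826t

namespace ISumAux

/-- summing over the states of a larger set of blocks -/
theorem sum_comp_inj {A B : Type} [Fintype A] [Fintype B] [DecidableEq A] [DecidableEq B] (ι : A → B)
    (hι : Function.Injective ι) (Φ : (A → Bool) → ℚ) :
    (∑ s : B → Bool, Φ (fun a => s (ι a))) * 2 ^ Fintype.card A =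
      2 ^ Fintype.card B * ∑ σ : A → Bool, Φ σ := by
  classical
  let ψ : (B → Bool) × (A → Bool) → (B → Bool) × (A → Bool) := fun p =>
    (fun b => if h : ∃ a, ι a = b then p.2 h.choose else p.1 b, fun a => p.1 (ι a))
  have hψ1 : ∀ p a, (ψ p).1 (ι a) = p.2 a := by
    intro p a
    have hex : ∃ a', ι a' = ι a := ⟨a, rfl⟩
    simp only [ψ]
    rw [dif_pos hex, hι hex.choose_spec]
  have hinv : Function.Involutive ψ := by
    intro p
    refine Prod.ext ?_ ?_
    · funext b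
      show (if h : ∃ a, ι a = b then (ψ p).2 h.choose else (ψ p).1 b) = p.1 b
      split_ifs with h
      · show p.1 (ι h.choose) = p.1 b
        rw [h.choose_spec]
      · show (if h : ∃ a, ι a = b then p.2 h.choose else p.1 b) = p.1 b
        rw [dif_neg h]
    · funext a
      exact hψ1 p a
  have key : ∑ p : (B → Bool) × (A → Bool), Φ (fun a => p.1 (ι a)) =
      ∑ p : (B → Bool) × (A → Bool), Φ p.2 := by
    rw [← Equiv.sum_comp hinv.toPerm]
    refine Finset.sum_congr rfl fun p _ => ?_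
    congr 1
    funext a
    exact hψ1 p a
  rw [Fintype.sum_prod_type, Fintype.sum_prod_type] at key
  simp only [Finset.sum_const, Finset.card_univ, Fintype.card_fun, Fintype.card_bool,
    nsmul_eq_mul] at key
  rw [← Finset.mul_sum] at key
  push_cast at key
  rw [mul_comm]
  exact key

theorem wt_eq (c : ℕ) (s t : Bool) : (wt c True s t : ℚ) = 4 ^ (c + 1) * nw c s t := by
  unfold nw
  cases s <;> cases t
  · rw [wt_free (Or.inr rfl)]
    simp
  · rw [wt_RL trivial, yy_eq]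
    simp [mul_comm]
  · rw [wt_LR trivial, xx_eq]
    simp [mul_comm]
  · rw [wt_free (Or.inr rfl)]
    simp

/-- the sum over the blocks of the given graph -/
theorem nsum_eq {a b M : ℕ} (c : ℕ) (x : Fin M → Fin a)
    (y : Fin M → Fin b) (rl rr : Fin M → Fin M) (hl1 : ∀ e, x (rl e) = x e)
    (hl2 : ∀ e e', x e = x e' → rl e = rl e') (hr1 : ∀ e, y (rr e) = y e)
    (hr2 : ∀ e e', y e = y e' → rr e = rr e') :
    (∑ σ : EB M → Bool, ∏ g : EG M, nw c (σ (esrc rl g)) (σ (etgt rr g))) * 2 ^ (a + b) =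
      2 ^ (6 + 3 * M) * nsumE c x y := by
  have h2 : (4 : ℚ) ^ (c + 1) = 2 ^ ((c + 1) * 2) := by
    rw [mul_comm, pow_mul]; norm_num
  have hbw : (bw True : ℚ) = 2 := by
    unfold bw
    rw [if_pos trivial]
    norm_num
  have h3 : (∑ p : (Fin a → Bool) × (Fin b → Bool), ∏ e : Fin M,
        (pw c True (p.1 (x e)) (p.2 (y e)) : ℚ)) =
      2 ^ M * 2 ^ (M * 5 * ((c + 1) * 2)) * nsumE c x y := by
    unfold nsumE
    rw [Finset.mul_sum]
    refine Finset.sum_congr rfl fun p _ => ?_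
    have h4 : ∀ e : Fin M, (pw c True (p.1 (x e)) (p.2 (y e)) : ℚ) =
        2 * (4 ^ (c + 1)) ^ 5 * rw' c True (p.1 (x e)) (p.2 (y e)) := by
      intro e
      unfold rw'
      rw [hbw]
      field_simp
    rw [Finset.prod_congr rfl fun e _ => h4 e, Finset.prod_mul_distrib]
    congr 1
    rw [Finset.prod_const, Finset.card_univ, Fintype.card_fin, h2, mul_pow, ← pow_mul, ← pow_mul]
    congr 2
    ring
  have h5 := congrArg (Nat.cast : ℕ → ℚ) (esum_vertices c x y rl rr hl1 hl2 hr1 hr2)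
  push_cast at h5
  rw [h3] at h5
  have h6 : ∑ σ : EB M → Bool, ∏ g : EG M, (wt c True (σ (esrc rl g)) (σ (etgt rr g)) : ℚ) =
      2 ^ (M * 5 * ((c + 1) * 2)) *
        ∑ σ : EB M → Bool, ∏ g : EG M, nw c (σ (esrc rl g)) (σ (etgt rr g)) := by
    rw [Finset.mul_sum]
    refine Finset.sum_congr rfl fun σ _ => ?_
    simp only [wt_eq]
    rw [Finset.prod_mul_distrib, Finset.prod_const, Finset.card_univ, card_EG, h2, ← pow_mul]
    congr 2
    ring
  rw [h6] at h5
  have h7 : (0 : ℚ) < 2 ^ (M * 5 * ((c + 1) * 2)) := by positivity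
  refine mul_right_cancel₀ h7.ne' ?_
  have e1 : (2 : ℚ) ^ (6 + 3 * M) = 2 ^ (6 + 2 * M) * 2 ^ M := by
    rw [← pow_add]
    congr 1
    ring
  rw [e1]
  linear_combination h5

end ISumAux

open ISumAux

theorem isum_eq {a b κ M : ℕ} (hM : M + 1 ≤ 2 ^ κ) (c : ℕ) (x : Fin M → Fin a)
    (y : Fin M → Fin b) (rl rr : Fin M → Fin M) (hl1 : ∀ e, x (rl e) = x e)
    (hl2 : ∀ e e', x e = x e' → rl e = rl e') (hr1 : ∀ e, y (rr e) = y e)
    (hr2 : ∀ e e', y e = y e' → rr e = rr e') :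
    isum hM rl rr c * 2 ^ (a + b + 3 * M) = 2 ^ (6 * 2 ^ κ) * nsumE c x y := by
  have hinj : Function.Injective fun p : EB M => ((Fin.castLE hM p.1, p.2) :
      Fin (2 ^ κ) × Fin 6) := by
    intro p q h
    simp only [Prod.mk.injEq] at h
    exact Prod.ext (Fin.castLE_injective hM h.1) h.2
  have h1 := sum_comp_inj _ hinj fun σ : EB M → Bool =>
    ∏ g : EG M, nw c (σ (esrc rl g)) (σ (etgt rr g))
  have h2 := nsum_eq c x y rl rr hl1 hl2 hr1 hr2
  have e1 : Fintype.card (EB M) = 6 + 6 * M := by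
    rw [card_EB]; ring
  have e2 : Fintype.card (Fin (2 ^ κ) × Fin 6) = 6 * 2 ^ κ := by
    rw [Fintype.card_prod, Fintype.card_fin, Fintype.card_fin, mul_comm]
  rw [e1, e2] at h1
  have h3 : isum hM rl rr c = ∑ s : Fin (2 ^ κ) × Fin 6 → Bool, ∏ g : EG M,
      nw c (s (Fin.castLE hM (esrc rl g).1, (esrc rl g).2))
        (s (Fin.castLE hM (etgt rr g).1, (etgt rr g).2)) := rfl
  rw [← h3] at h1
  set S := ∑ σ : EB M → Bool, ∏ g : EG M, nw c (σ (esrc rl g)) (σ (etgt rr g)) with hS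
  have h7 : (0 : ℚ) < 2 ^ (6 + 3 * M) := by positivity
  refine mul_right_cancel₀ h7.ne' ?_
  have e3 : isum hM rl rr c * 2 ^ (a + b + 3 * M) * 2 ^ (6 + 3 * M) =
      isum hM rl rr c * 2 ^ (6 + 6 * M) * 2 ^ (a + b) := by
    rw [mul_assoc, mul_assoc, ← pow_add, ← pow_add]
    congr 2
    ring
  rw [e3, h1]
  linear_combination 2 ^ (6 * 2 ^ κ) * h2

end Pool.Agent.Lib.Pa7c826s
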