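import Pool.Agent.Lib.Pa7c826s.TSplit

/-!
Bounds for the sum over the states of all blocks of the tile system.

With `h = hh c`, `g = gg c` (`0 < h ≤ 1`, `1 / 2 ≤ g ≤ (1 + h) / 2`), `A0 = 1 + 2 h + h g`,
`A1 = 1 + 2 g + h g`: `1 ≤ A0 ≤ 1 + 3 h`, `2 ≤ A1 ≤ 2 (1 + h)` and `1 ≤ g A1 ≤ 1 + 3 h`.
All `nw` are in `(0, 1]`.
Lower bound: take only `w = true` everywhere; then
`tileW c Y true s = (A0 + g A1) * ∏ (A0 or g A1) * A1 ^ Y ≥ 2 * 1 * 2 ^ Y`.
Upper bound: drop the product over the links between the hubs (at most 1); for fixed `s` the sum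
over `w` of `∏ τ, tileW` is `∏ τ, (tileW c Y true _ + tileW c Y false _)`, and
`tileW c Y true s ≤ 2 (1 + 3 h) * (1 + 3 h) ^ 6 * (2 (1 + 3 h)) ^ Y`,
`tileW c Y false s = (h A0 + A1) * ∏ (h A0 or A1) * A0 ^ Y ≤ 4 (1 + 3 h) * (2 (1 + 3 h)) ^ 6 *
(1 + 3 h) ^ Y`.
-/

namespace Pool.Agent.Lib.Pa7c826s

open Pool.Agent.Lib.Pa7c826 Pool.Agent.Lib.Pa7c826t

namespace TBoundAux

theorem g_le_one (c : ℕ) : gg c ≤ 1 := by
  have h1 := gg_upper c
  have h2 := hh_le_one c
  linarith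

theorem g_pos (c : ℕ) : 0 < gg c := by
  have := gg_lower c
  linarith

theorem nw_pos (c : ℕ) (s t : Bool) : 0 < nw c s t := by
  unfold nw
  split_ifs
  · norm_num
  · exact hh_pos c
  · exact g_pos c

theorem nw_le_one (c : ℕ) (s t : Bool) : nw c s t ≤ 1 := by
  unfold nw
  split_ifs
  · exact le_rfl
  · exact hh_le_one c
  · exact g_le_one c

/-- the value of a branch with first block `true` -/
theorem A0_bounds (c : ℕ) : 1 ≤ brW c true ∧ brW c true ≤ 1 + 3 * hh c := by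
  have h1 := hh_pos c
  have h2 := g_pos c
  have h3 := g_le_one c
  have h4 : 0 ≤ hh c * gg c := by positivity
  have h5 : hh c * gg c ≤ hh c := mul_le_of_le_one_right h1.le h3
  simp only [brW, if_true]
  constructor <;> linarith

theorem A1_bounds (c : ℕ) : 2 ≤ brW c false ∧ brW c false ≤ 2 * (1 + hh c) := by
  have h1 := hh_pos c
  have h2 := g_pos c
  have h3 := g_le_one c
  have h4 : 0 ≤ hh c * gg c := by positivity
  have h5 : hh c * gg c ≤ hh c := mul_le_of_le_one_right h1.le h3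
  have h6 := gg_lower c
  have h7 := gg_upper c
  simp only [brW, Bool.false_eq_true, if_false]
  constructor <;> linarith

theorem gA1_bounds (c : ℕ) : 1 ≤ gg c * brW c false ∧ gg c * brW c false ≤ 1 + 3 * hh c := by
  have h1 := hh_pos c
  have h2 := g_pos c
  have h6 := gg_lower c
  have h7 := gg_upper c
  have h8 := hh_le_one c
  obtain ⟨a1, a2⟩ := A1_bounds c
  constructor
  · calc (1 : ℚ) = 1 / 2 * 2 := by norm_num
      _ ≤ _ := mul_le_mul h6 a1 (by norm_num) h2.le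
  · simp only [brW, Bool.false_eq_true, if_false]
    have e1 : gg c * (1 + 2 * gg c + hh c * gg c) =
        gg c + (2 + hh c) * gg c ^ 2 := by ring
    have e2 : gg c ^ 2 ≤ ((1 + hh c) / 2) ^ 2 := pow_le_pow_left₀ h2.le h7 2
    have e3 : (2 + hh c) * gg c ^ 2 ≤ (2 + hh c) * ((1 + hh c) / 2) ^ 2 :=
      mul_le_mul_of_nonneg_left e2 (by linarith)
    rw [e1]
    nlinarith [mul_nonneg h1.le (sub_nonneg.2 h8),
      mul_nonneg (mul_nonneg h1.le h1.le) (sub_nonneg.2 h8)]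

theorem fac_true (c : ℕ) (s : Bool) :
    1 ≤ nw c s true * brW c s ∧ nw c s true * brW c s ≤ 1 + 3 * hh c := by
  cases s
  · have : nw c false true = gg c := by simp [nw]
    rw [this]
    exact gA1_bounds c
  · have : nw c true true = 1 := by simp [nw]
    rw [this, one_mul]
    exact A0_bounds c

theorem fac_false (c : ℕ) (s : Bool) :
    0 ≤ nw c s false * brW c s ∧ nw c s false * brW c s ≤ 2 * (1 + 3 * hh c) := by
  have h1 := hh_pos c
  have h8 := hh_le_one c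
  cases s
  · have : nw c false false = 1 := by simp [nw]
    rw [this, one_mul]
    obtain ⟨a1, a2⟩ := A1_bounds c
    constructor <;> linarith
  · have : nw c true false = hh c := by simp [nw]
    rw [this]
    obtain ⟨a1, a2⟩ := A0_bounds c
    constructor
    · positivity
    · have : hh c * brW c true ≤ 1 * brW c true := mul_le_mul_of_nonneg_right h8 (by linarith)
      linarith

theorem ch_true (c : ℕ) : 2 ≤ chW c true ∧ chW c true ≤ 2 * (1 + 3 * hh c) := by
  have h1 := hh_pos c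
  obtain ⟨a1, a2⟩ := A1_bounds c
  have e : chW c true = brW c false := by simp [chW, brW]
  rw [e]
  constructor <;> linarith

theorem ch_false (c : ℕ) : 0 ≤ chW c false ∧ chW c false ≤ 1 + 3 * hh c := by
  obtain ⟨a1, a2⟩ := A0_bounds c
  have e : chW c false = brW c true := by simp [chW, brW]
  rw [e]
  constructor <;> linarith

theorem tile_nonneg (c Y : ℕ) (w : Bool) (s : Fin 6 → Bool) : 0 ≤ tileW c Y w s := by
  unfold tileW
  have hbr : ∀ p, 0 ≤ brW c p := by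
    intro p
    cases p
    · linarith [(A1_bounds c).1]
    · linarith [(A0_bounds c).1]
  have hch : 0 ≤ chW c w := by
    cases w
    · exact (ch_false c).1
    · linarith [(ch_true c).1]
  refine mul_nonneg (mul_nonneg (Finset.sum_nonneg fun p _ => mul_nonneg (nw_pos c p w).le (hbr p))
    (Finset.prod_nonneg fun k _ => mul_nonneg (nw_pos c _ w).le (hbr _))) (pow_nonneg hch _)

theorem tile_lower (c Y : ℕ) (s : Fin 6 → Bool) : 2 ^ (Y + 1) ≤ tileW c Y true s := by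
  unfold tileW
  have h1 : (2 : ℚ) ≤ ∑ p : Bool, nw c p true * brW c p := by
    rw [Fintype.sum_bool]
    have := (fac_true c true).1
    have := (fac_true c false).1
    linarith
  have h2 : (1 : ℚ) ≤ ∏ k : Fin 6, nw c (s k) true * brW c (s k) := by
    calc (1 : ℚ) = ∏ _k : Fin 6, (1 : ℚ) := by simp
      _ ≤ _ := Finset.prod_le_prod (fun _ _ => by norm_num) fun k _ => (fac_true c (s k)).1
  have h3 : (2 : ℚ) ^ Y ≤ chW c true ^ Y := pow_le_pow_left₀ (by norm_num) (ch_true c).1 Y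
  calc (2 : ℚ) ^ (Y + 1) = 2 * 1 * 2 ^ Y := by ring
    _ ≤ _ := mul_le_mul (mul_le_mul h1 h2 (by norm_num) (by linarith)) h3 (by positivity)
      (mul_nonneg (by linarith) (by linarith))

theorem tile_upper_true (c Y : ℕ) (s : Fin 6 → Bool) :
    tileW c Y true s ≤ 2 ^ (Y + 1) * (1 + 3 * hh c) ^ (Y + 7) := by
  unfold tileW
  have h0 := hh_pos c
  have h1 : ∑ p : Bool, nw c p true * brW c p ≤ 2 * (1 + 3 * hh c) := by
    rw [Fintype.sum_bool]
    have := (fac_true c true).2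
    have := (fac_true c false).2
    linarith
  have h2 : ∏ k : Fin 6, nw c (s k) true * brW c (s k) ≤ (1 + 3 * hh c) ^ 6 := by
    calc ∏ k : Fin 6, nw c (s k) true * brW c (s k) ≤ ∏ _k : Fin 6, (1 + 3 * hh c) :=
          Finset.prod_le_prod (fun k _ => by linarith [(fac_true c (s k)).1])
            fun k _ => (fac_true c (s k)).2
      _ = _ := by simp
  have h2' : 0 ≤ ∏ k : Fin 6, nw c (s k) true * brW c (s k) :=
    Finset.prod_nonneg fun k _ => by linarith [(fac_true c (s k)).1]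
  have h3 : chW c true ^ Y ≤ (2 * (1 + 3 * hh c)) ^ Y :=
    pow_le_pow_left₀ (by linarith [(ch_true c).1]) (ch_true c).2 Y
  calc _ ≤ 2 * (1 + 3 * hh c) * (1 + 3 * hh c) ^ 6 * (2 * (1 + 3 * hh c)) ^ Y :=
        mul_le_mul (mul_le_mul h1 h2 h2' (by positivity)) h3
          (pow_nonneg (by linarith [(ch_true c).1]) _) (by positivity)
    _ = _ := by rw [mul_pow]; ring

theorem tile_upper_false (c Y : ℕ) (s : Fin 6 → Bool) :
    tileW c Y false s ≤ 2 ^ 8 * (1 + 3 * hh c) ^ (Y + 7) := by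
  unfold tileW
  have h0 := hh_pos c
  have h1 : ∑ p : Bool, nw c p false * brW c p ≤ 4 * (1 + 3 * hh c) := by
    rw [Fintype.sum_bool]
    have := (fac_false c true).2
    have := (fac_false c false).2
    linarith
  have h2 : ∏ k : Fin 6, nw c (s k) false * brW c (s k) ≤ (2 * (1 + 3 * hh c)) ^ 6 := by
    calc ∏ k : Fin 6, nw c (s k) false * brW c (s k) ≤ ∏ _k : Fin 6, (2 * (1 + 3 * hh c)) :=
          Finset.prod_le_prod (fun k _ => (fac_false c (s k)).1) fun k _ => (fac_false c (s k)).2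
      _ = _ := by simp
  have h2' : 0 ≤ ∏ k : Fin 6, nw c (s k) false * brW c (s k) :=
    Finset.prod_nonneg fun k _ => (fac_false c (s k)).1
  have h3 : chW c false ^ Y ≤ (1 + 3 * hh c) ^ Y :=
    pow_le_pow_left₀ (ch_false c).1 (ch_false c).2 Y
  calc _ ≤ 4 * (1 + 3 * hh c) * (2 * (1 + 3 * hh c)) ^ 6 * (1 + 3 * hh c) ^ Y :=
        mul_le_mul (mul_le_mul h1 h2 h2' (by positivity)) h3
          (pow_nonneg (ch_false c).1 _) (by positivity)
    _ = _ := by rw [mul_pow]; ring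

theorem edge_pos {κ M : ℕ} (hM : M + 1 ≤ 2 ^ κ) (rl rr : Fin M → Fin M) (c : ℕ)
    (s : Fin (2 ^ κ) × Fin 6 → Bool) :
    0 ≤ ∏ g : EG M, nw c (s (Fin.castLE hM (esrc rl g).1, (esrc rl g).2))
      (s (Fin.castLE hM (etgt rr g).1, (etgt rr g).2)) :=
  Finset.prod_nonneg fun _ _ => (nw_pos c _ _).le

theorem links_nonneg {κ : ℕ} (c : ℕ) (w : Fin (2 ^ κ) → Bool) :
    0 ≤ ∏ i : Fin κ, ∏ τ : Fin (2 ^ κ), nw c (w τ) (w (flip i τ)) :=
  Finset.prod_nonneg fun _ _ => Finset.prod_nonneg fun _ _ => (nw_pos c _ _).le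

theorem links_le_one {κ : ℕ} (c : ℕ) (w : Fin (2 ^ κ) → Bool) :
    ∏ i : Fin κ, ∏ τ : Fin (2 ^ κ), nw c (w τ) (w (flip i τ)) ≤ 1 :=
  Finset.prod_le_one (fun _ _ => Finset.prod_nonneg fun _ _ => (nw_pos c _ _).le) fun _ _ =>
    Finset.prod_le_one (fun _ _ => (nw_pos c _ _).le) fun _ _ => nw_le_one c _ _

end TBoundAux

open TBoundAux

theorem tlower {κ Y M : ℕ} (hM : M + 1 ≤ 2 ^ κ) (rl rr : Fin M → Fin M) (c : ℕ) :
    2 ^ ((Y + 1) * 2 ^ κ) * isum hM rl rr c ≤
      ∑ σ : TB κ Y → Bool, lprod (tpt hM rl rr) (tdr hM rl) c σ := by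
  rw [tsplit]
  refine le_trans ?_ (Finset.single_le_sum (f := fun w : Fin (2 ^ κ) → Bool =>
    ∑ s : Fin (2 ^ κ) × Fin 6 → Bool,
        (∏ i : Fin κ, ∏ τ : Fin (2 ^ κ), nw c (w τ) (w (flip i τ))) *
        (∏ g : EG M, nw c (s (Fin.castLE hM (esrc rl g).1, (esrc rl g).2))
          (s (Fin.castLE hM (etgt rr g).1, (etgt rr g).2))) *
        ∏ τ : Fin (2 ^ κ), tileW c Y (w τ) (fun k => s (τ, k))) (fun w _ =>
        Finset.sum_nonneg fun s _ => mul_nonneg (mul_nonneg (links_nonneg c w)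
          (edge_pos hM rl rr c s)) (Finset.prod_nonneg fun τ _ => tile_nonneg c Y _ _))
        (Finset.mem_univ (fun _ => true)))
  unfold isum
  rw [Finset.mul_sum]
  refine Finset.sum_le_sum fun s _ => ?_
  have h1 : ∏ i : Fin κ, ∏ τ : Fin (2 ^ κ),
      nw c ((fun _ : Fin (2 ^ κ) => true) τ) ((fun _ : Fin (2 ^ κ) => true) (flip i τ)) = 1 :=
    Finset.prod_eq_one fun i _ => Finset.prod_eq_one fun τ _ => by simp [nw]
  rw [h1, one_mul, mul_comm]
  refine mul_le_mul_of_nonneg_left ?_ (edge_pos hM rl rr c s)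
  calc (2 : ℚ) ^ ((Y + 1) * 2 ^ κ) = ∏ _τ : Fin (2 ^ κ), (2 : ℚ) ^ (Y + 1) := by
        rw [Finset.prod_const, Finset.card_univ, Fintype.card_fin, pow_mul]
    _ ≤ _ := Finset.prod_le_prod (fun _ _ => by positivity) fun τ _ => tile_lower c Y _

theorem tupper {κ Y M : ℕ} (hM : M + 1 ≤ 2 ^ κ) (rl rr : Fin M → Fin M) (c : ℕ) :
    ∑ σ : TB κ Y → Bool, lprod (tpt hM rl rr) (tdr hM rl) c σ ≤
      ((2 ^ (Y + 1) + 2 ^ 8) * (1 + 3 * hh c) ^ (Y + 7)) ^ (2 ^ κ) * isum hM rl rr c := by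
  rw [tsplit, Finset.sum_comm]
  unfold isum
  rw [Finset.mul_sum]
  refine Finset.sum_le_sum fun s _ => ?_
  set E := ∏ g : EG M, nw c (s (Fin.castLE hM (esrc rl g).1, (esrc rl g).2))
    (s (Fin.castLE hM (etgt rr g).1, (etgt rr g).2)) with hE
  have hE0 : 0 ≤ E := edge_pos hM rl rr c s
  calc ∑ w : Fin (2 ^ κ) → Bool, (∏ i : Fin κ, ∏ τ : Fin (2 ^ κ), nw c (w τ) (w (flip i τ))) * E *
        ∏ τ : Fin (2 ^ κ), tileW c Y (w τ) (fun k => s (τ, k))
      ≤ ∑ w : Fin (2 ^ κ) → Bool, E * ∏ τ : Fin (2 ^ κ), tileW c Y (w τ) (fun k => s (τ, k)) := by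
        refine Finset.sum_le_sum fun w _ => mul_le_mul_of_nonneg_right ?_
          (Finset.prod_nonneg fun τ _ => tile_nonneg c Y _ _)
        exact mul_le_of_le_one_left hE0 (links_le_one c w)
    _ = E * ∏ τ : Fin (2 ^ κ), ∑ b : Bool, tileW c Y b (fun k => s (τ, k)) := by
        rw [← Finset.mul_sum, Finset.prod_univ_sum, Fintype.piFinset_univ]
    _ ≤ E * ∏ _τ : Fin (2 ^ κ), ((2 ^ (Y + 1) + 2 ^ 8) * (1 + 3 * hh c) ^ (Y + 7)) := by
        refine mul_le_mul_of_nonneg_left (Finset.prod_le_prod (fun τ _ => Finset.sum_nonneg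
          fun b _ => tile_nonneg c Y _ _) fun τ _ => ?_) hE0
        rw [Fintype.sum_bool, add_mul]
        exact add_le_add (tile_upper_true c Y _) (tile_upper_false c Y _)
    _ = _ := by
        rw [Finset.prod_const, Finset.card_univ, Fintype.card_fin, mul_comm]

end Pool.Agent.Lib.Pa7c826s
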