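import Pool.Agent.Lib.Pa7c826s.TPair

/-!
Edge isoperimetry of the tile system.

Proof: for a tile `τ` let `h τ` say whether the hub `(τ, .inl 0)` is in `A`. For a role `r` of the
tile `τ` let `e τ r` say whether exactly one of `(τ, r)`, `(τ, par r)` is in `A`; this gives a cut
link (label `.inr (.inl r)`) of weight at least `1`, seen from its end in `A`. Every role has
distance at most 3 from the hub and every role is on the way to the hub of at most 3 roles, so the
number of roles `r` for which `(τ, r) ∈ A` differs from `h τ` is at most `3 ∑ r, e τ r`. The links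
between the hubs have, for each pair of hubs `τ`, `flip i τ` exactly one of which is in `A`, total
weight at least `RR Y` (labels `.inl (i, 0)` and `.inl (i, 1)`), so by `cube` their
total weight is at least `RR Y * min a (2 ^ κ - a)`, `a` the number of hubs in `A`. If
`a ≤ 2 ^ κ - a` then `|A| ≤ RR Y * a + (number of differing blocks)`; otherwise the same holds for
the complement.
-/

namespace Pool.Agent.Lib.Pa7c826s

open Pool.Agent.Lib.Pa7c826 Pool.Agent.Lib.Pa7c826t

namespace TCutAux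

/-- every function vanishing at the hub: the sum over the parents is at most the sum -/
theorem sum_par_le {Y : ℕ} (E : Role Y → ℕ) (h0 : E (.inl 0) = 0) :
    ∑ r, E (par r) ≤ ∑ r, E r := by
  simp only [Fintype.sum_sum_type, Fintype.sum_prod_type]
  have e1 : ∑ x : Fin 1, E (par (.inl x)) = ∑ x : Fin 1, E (.inl x) := by
    rw [Fin.sum_univ_one, Fin.sum_univ_one]
    rfl
  have e2 : ∑ j : Fin 3, ∑ k : Fin 7, E (par (.inr (.inl (j, k)))) ≤
      ∑ j : Fin 3, ∑ k : Fin 7, E (.inr (.inl (j, k))) := by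
    simp only [Fin.sum_univ_succ (n := 2), Fin.sum_univ_succ (n := 1), Fin.sum_univ_one]
    have a0 : ∑ k : Fin 7, E (par (.inr (.inl (0, k)))) = 0 := by
      refine Finset.sum_eq_zero fun k _ => ?_
      exact h0
    have a1 : ∑ k : Fin 7, E (par (.inr (.inl (Fin.succ 0, k)))) =
        ∑ k : Fin 7, E (.inr (.inl (0, k))) := rfl
    have a2 : ∑ k : Fin 7, E (par (.inr (.inl (Fin.succ (Fin.succ 0), k)))) =
        ∑ k : Fin 7, E (.inr (.inl (Fin.succ 0, k))) := rfl
    rw [a0, a1, a2]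
    omega
  have e3 : ∑ y : Fin Y, ∑ b : Fin 2, E (par (.inr (.inr (y, b)))) ≤
      ∑ y : Fin Y, ∑ b : Fin 2, E (.inr (.inr (y, b))) := by
    refine Finset.sum_le_sum fun y _ => ?_
    rw [Fin.sum_univ_two, Fin.sum_univ_two]
    have a0 : E (par (.inr (.inr (y, 0)))) = 0 := h0
    have a1 : E (par (.inr (.inr (y, 1)))) = E (.inr (.inr (y, 0))) := rfl
    rw [a0, a1]
    omega
  omega

theorem par_par_par {Y : ℕ} (r : Role Y) : par (par (par r)) = .inl 0 := by
  rcases r with _ | ⟨j, k⟩ | ⟨y, b⟩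
  · rfl
  · fin_cases j <;> rfl
  · fin_cases b <;> rfl

/-- number of roles whose membership differs from that of the hub -/
theorem diff_le {Y : ℕ} (m : Role Y → Bool) :
    ∑ r, (if m r = m (.inl 0) then 0 else 1) ≤ 3 * ∑ r, (if m r = m (par r) then 0 else 1) := by
  obtain ⟨E, hE⟩ : ∃ E : Role Y → ℕ, ∀ r, E r = if m r = m (par r) then 0 else 1 :=
    ⟨_, fun _ => rfl⟩
  have hE0 : E (.inl 0) = 0 := by
    rw [hE]
    exact if_pos rfl
  have h1 := sum_par_le E hE0
  have h2 := sum_par_le (fun r => E (par r)) hE0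
  have h3 : ∑ r, (if m r = m (.inl 0) then 0 else 1) ≤
      ∑ r, (E r + E (par r) + E (par (par r))) := by
    refine Finset.sum_le_sum fun r _ => ?_
    simp only [hE]
    rw [par_par_par r]
    by_cases c1 : m r = m (par r)
    · by_cases c2 : m (par r) = m (par (par r))
      · by_cases c3 : m (par (par r)) = m (.inl 0)
        · rw [if_pos (by rw [c1, c2, c3])]
          omega
        · rw [if_neg c3]
          split_ifs <;> omega
      · rw [if_neg c2]
        split_ifs <;> omega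
    · rw [if_neg c1]
      split_ifs <;> omega
  rw [Finset.sum_add_distrib, Finset.sum_add_distrib] at h3
  have h4 : ∑ r, (if m r = m (par r) then 0 else 1) = ∑ r, E r :=
    Finset.sum_congr rfl fun r _ => (hE r).symm
  omega

theorem hub_le {κ Y M : ℕ} (hM : M + 1 ≤ 2 ^ κ) (rl rr : Fin M → Fin M)
    (w : TL κ Y M → TB κ Y → ℕ)
    (h2 : ∀ (i : Fin κ) (τ : Fin (2 ^ κ)),
      RR Y ≤ w (.inl (i, 0)) (τ, .inl 0) + w (.inl (i, 1)) (τ, .inl 0))
    (A : Finset (TB κ Y)) (Ah : Finset (Fin (2 ^ κ))) (hAh : ∀ τ, τ ∈ Ah ↔ (τ, .inl 0) ∈ A) :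
    RR Y * (∑ i : Fin κ, ∑ τ ∈ Ah, if flip i τ ∈ Ah then 0 else 1) ≤
      ∑ p : Fin κ × Fin 2, ∑ x ∈ A,
        if tpt hM rl rr (.inl p) x ∈ A then 0 else w (.inl p) x := by
  rw [Fintype.sum_prod_type, Finset.mul_sum]
  refine Finset.sum_le_sum fun i _ => ?_
  rw [Fin.sum_univ_two]
  have key : ∀ b : Fin 2, ∑ τ ∈ Ah, (if flip i τ ∈ Ah then 0 else w (.inl (i, b)) (τ, .inl 0)) ≤
      ∑ x ∈ A, if tpt hM rl rr (.inl (i, b)) x ∈ A then 0 else w (.inl (i, b)) x := by
    intro b
    have hsub : Ah.image (fun τ => ((τ, .inl 0) : TB κ Y)) ⊆ A := by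
      intro x hx
      obtain ⟨τ, hτ, rfl⟩ := Finset.mem_image.1 hx
      exact (hAh τ).1 hτ
    refine le_trans ?_ (Finset.sum_le_sum_of_subset hsub)
    rw [Finset.sum_image (fun x _ y _ h => (Prod.ext_iff.1 h).1)]
    refine Finset.sum_le_sum fun τ _ => ?_
    have ht : tpt hM rl rr (.inl (i, b)) ((τ, .inl 0) : TB κ Y) = (flip i τ, .inl 0) := by
      simp [tpt]
    rw [ht]
    by_cases h : flip i τ ∈ Ah
    · rw [if_pos h]; exact Nat.zero_le _
    · rw [if_neg h, if_neg (fun h' => h ((hAh _).2 h'))]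
  refine le_trans ?_ (Nat.add_le_add (key 0) (key 1))
  rw [← Finset.sum_add_distrib, Finset.mul_sum]
  refine Finset.sum_le_sum fun τ _ => ?_
  by_cases h : flip i τ ∈ Ah
  · simp [h]
  · rw [if_neg h, if_neg h, if_neg h, mul_one]
    exact h2 i τ

theorem role_le {κ Y M : ℕ} (hM : M + 1 ≤ 2 ^ κ) (rl rr : Fin M → Fin M)
    (w : TL κ Y M → TB κ Y → ℕ) (h1 : ∀ l x, 1 ≤ w l x) (A : Finset (TB κ Y)) (r : Role Y) :
    ∑ τ : Fin (2 ^ κ), (if decide ((τ, r) ∈ A) = decide ((τ, par r) ∈ A) then 0 else 1) ≤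
      ∑ x ∈ A, if tpt hM rl rr (.inr (.inl r)) x ∈ A then 0 else w (.inr (.inl r)) x := by
  set g : TB κ Y → ℕ := fun x =>
    if tpt hM rl rr (.inr (.inl r)) x ∈ A then 0 else w (.inr (.inl r)) x with hg
  have e1 : ∑ x ∈ A, g x = ∑ τ : Fin (2 ^ κ), ∑ r' : Role Y, if (τ, r') ∈ A then g (τ, r') else 0 := by
    rw [← Fintype.sum_prod_type (fun x : TB κ Y => if x ∈ A then g x else 0)]
    simp
  rw [e1]
  refine Finset.sum_le_sum fun τ _ => ?_
  by_cases hr : (τ, r) ∈ A
  · by_cases hp : (τ, par r) ∈ A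
    · simp [hr, hp]
    · have ht : tpt hM rl rr (.inr (.inl r)) ((τ, r) : TB κ Y) = (τ, par r) := by
        simp [tpt]
      have hgr : 1 ≤ (if (τ, r) ∈ A then g (τ, r) else 0) := by
        rw [if_pos hr, hg]
        simp only
        rw [ht, if_neg hp]
        exact h1 _ _
      refine le_trans ?_ (Finset.single_le_sum (f := fun r' => if (τ, r') ∈ A then g (τ, r') else 0)
        (fun _ _ => Nat.zero_le _) (Finset.mem_univ r))
      refine le_trans ?_ hgr
      split_ifs <;> omega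
  · by_cases hp : (τ, par r) ∈ A
    · have ht : tpt hM rl rr (.inr (.inl r)) ((τ, par r) : TB κ Y) = (τ, r) := by
        simp [tpt]
      have hgr : 1 ≤ (if (τ, par r) ∈ A then g (τ, par r) else 0) := by
        rw [if_pos hp, hg]
        simp only
        rw [ht, if_neg hr]
        exact h1 _ _
      refine le_trans ?_ (Finset.single_le_sum (f := fun r' => if (τ, r') ∈ A then g (τ, r') else 0)
        (fun _ _ => Nat.zero_le _) (Finset.mem_univ (par r)))
      refine le_trans ?_ hgr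
      split_ifs <;> omega
    · simp [hr, hp]

end TCutAux

open TCutAux

theorem tcut {κ Y M : ℕ} (hM : M + 1 ≤ 2 ^ κ) (rl rr : Fin M → Fin M)
    (w : TL κ Y M → TB κ Y → ℕ) (h1 : ∀ l x, 1 ≤ w l x)
    (h2 : ∀ (i : Fin κ) (τ : Fin (2 ^ κ)),
      RR Y ≤ w (.inl (i, 0)) (τ, .inl 0) + w (.inl (i, 1)) (τ, .inl 0))
    (A : Finset (TB κ Y)) :
    min A.card (Fintype.card (TB κ Y) - A.card) ≤ 3 * cutX (tpt hM rl rr) w A := by
  classical
  set Ah : Finset (Fin (2 ^ κ)) := Finset.univ.filter fun τ => (τ, .inl 0) ∈ A with hAh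
  have hAh' : ∀ τ, τ ∈ Ah ↔ (τ, .inl 0) ∈ A := by
    intro τ
    rw [hAh, Finset.mem_filter]
    exact ⟨fun h => h.2, fun h => ⟨Finset.mem_univ _, h⟩⟩
  have hcube := cube Ah
  have hhub := hub_le hM rl rr w h2 A Ah hAh'
  have hrole := fun r => role_le hM rl rr w h1 A r
  set Hub := ∑ p : Fin κ × Fin 2, ∑ x ∈ A,
        (if tpt hM rl rr (.inl p) x ∈ A then 0 else w (.inl p) x) with hHub
  set Rol := ∑ r : Role Y, ∑ x ∈ A,
        (if tpt hM rl rr (.inr (.inl r)) x ∈ A then 0 else w (.inr (.inl r)) x) with hRol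
  have hcut : Hub + Rol ≤ cutX (tpt hM rl rr) w A := by
    unfold cutX
    rw [Fintype.sum_sum_type, Fintype.sum_sum_type]
    exact Nat.add_le_add_left (Nat.le_add_right _ _) _
  set D : Fin (2 ^ κ) → ℕ := fun τ => ∑ r : Role Y,
    (if decide ((τ, r) ∈ A) = decide ((τ, (.inl 0 : Role Y)) ∈ A) then 0 else 1) with hD
  have hDle : ∑ τ, D τ ≤ 3 * Rol := by
    have a1 : ∑ τ, D τ ≤ ∑ τ : Fin (2 ^ κ), 3 * ∑ r : Role Y,
        (if decide ((τ, r) ∈ A) = decide ((τ, par r) ∈ A) then 0 else 1) :=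
      Finset.sum_le_sum fun τ _ => diff_le (fun r => decide ((τ, r) ∈ A))
    have a2 : ∑ τ : Fin (2 ^ κ), 3 * ∑ r : Role Y,
        (if decide ((τ, r) ∈ A) = decide ((τ, par r) ∈ A) then 0 else 1) =
        3 * ∑ r : Role Y, ∑ τ : Fin (2 ^ κ),
          (if decide ((τ, r) ∈ A) = decide ((τ, par r) ∈ A) then 0 else 1) := by
      rw [← Finset.mul_sum, Finset.sum_comm]
    rw [a2] at a1
    exact le_trans a1 (Nat.mul_le_mul_left 3 (Finset.sum_le_sum fun r _ => hrole r))
  have hcardR : Fintype.card (Role Y) = RR Y := by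
    simp [RR]
  have hcA : A.card = ∑ τ : Fin (2 ^ κ), ∑ r : Role Y, if (τ, r) ∈ A then 1 else 0 := by
    rw [← Fintype.sum_prod_type (fun x : TB κ Y => if x ∈ A then 1 else 0)]
    simp
  have hcAc : Fintype.card (TB κ Y) - A.card =
      ∑ τ : Fin (2 ^ κ), ∑ r : Role Y, if (τ, r) ∈ A then 0 else 1 := by
    rw [← Fintype.sum_prod_type (fun x : TB κ Y => if x ∈ A then 0 else 1)]
    rw [← Finset.card_compl, Finset.card_eq_sum_ones, ← Finset.sum_filter_add_sum_filter_not
      Finset.univ (fun x => x ∈ A) (fun x => if x ∈ A then 0 else 1)]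
    have b1 : ∑ x ∈ Finset.univ.filter (fun x => x ∈ A), (if x ∈ A then 0 else 1) = 0 :=
      Finset.sum_eq_zero fun x hx => if_pos (Finset.mem_filter.1 hx).2
    have b0 : Finset.univ.filter (fun x => x ∉ A) = Aᶜ := by
      ext x
      simp
    have b2 : ∑ x ∈ Finset.univ.filter (fun x => x ∉ A), (if x ∈ A then 0 else 1) =
        ∑ x ∈ Aᶜ, 1 := by
      rw [b0]
      exact Finset.sum_congr rfl fun x hx => if_neg (Finset.mem_compl.1 hx)
    rw [b1, b2, zero_add]
  have hle1 : A.card ≤ RR Y * Ah.card + ∑ τ, D τ := by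
    rw [hcA]
    have c1 : RR Y * Ah.card = ∑ τ : Fin (2 ^ κ), if τ ∈ Ah then RR Y else 0 := by
      rw [Finset.sum_ite_mem, Finset.univ_inter, Finset.sum_const, smul_eq_mul, mul_comm]
    rw [c1, ← Finset.sum_add_distrib]
    refine Finset.sum_le_sum fun τ _ => ?_
    by_cases hτ : τ ∈ Ah
    · rw [if_pos hτ]
      refine le_trans (Finset.sum_le_sum (g := fun _ => 1) fun r _ => ?_) ?_
      · split_ifs <;> omega
      · rw [Finset.sum_const, Finset.card_univ, hcardR, smul_eq_mul, mul_one]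
        exact Nat.le_add_right _ _
    · rw [if_neg hτ, zero_add, hD]
      refine Finset.sum_le_sum fun r _ => ?_
      have hn : (τ, (.inl 0 : Role Y)) ∉ A := fun h => hτ ((hAh' τ).2 h)
      by_cases hr : (τ, r) ∈ A
      · simp [hr, hn]
      · simp [hr]
  have hle2 : Fintype.card (TB κ Y) - A.card ≤ RR Y * (2 ^ κ - Ah.card) + ∑ τ, D τ := by
    rw [hcAc]
    have c1 : RR Y * (2 ^ κ - Ah.card) = ∑ τ : Fin (2 ^ κ), if τ ∈ Ah then 0 else RR Y := by
      have c2 : 2 ^ κ - Ah.card = (Ahᶜ).card := by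
        rw [Finset.card_compl, Fintype.card_fin]
      rw [c2]
      have c3 : ∑ τ : Fin (2 ^ κ), (if τ ∈ Ah then 0 else RR Y) =
          ∑ τ : Fin (2 ^ κ), if τ ∈ Ahᶜ then RR Y else 0 := by
        refine Finset.sum_congr rfl fun τ _ => ?_
        by_cases hτ : τ ∈ Ah
        · simp [hτ]
        · simp [hτ]
      rw [c3, Finset.sum_ite_mem, Finset.univ_inter, Finset.sum_const, smul_eq_mul, mul_comm]
    rw [c1, ← Finset.sum_add_distrib]
    refine Finset.sum_le_sum fun τ _ => ?_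
    by_cases hτ : τ ∈ Ah
    · rw [if_pos hτ, zero_add, hD]
      refine Finset.sum_le_sum fun r _ => ?_
      have hn : (τ, (.inl 0 : Role Y)) ∈ A := (hAh' τ).1 hτ
      by_cases hr : (τ, r) ∈ A
      · simp [hr]
      · simp [hr, hn]
    · rw [if_neg hτ]
      refine le_trans (Finset.sum_le_sum (g := fun _ => 1) fun r _ => ?_) ?_
      · split_ifs <;> omega
      · rw [Finset.sum_const, Finset.card_univ, hcardR, smul_eq_mul, mul_one]
        exact Nat.le_add_right _ _
  have hmul := Nat.mul_le_mul_left (RR Y) hcube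
  rcases le_total Ah.card (2 ^ κ - Ah.card) with hc | hc
  · rw [min_eq_left hc] at hmul
    refine le_trans (min_le_left _ _) ?_
    omega
  · rw [min_eq_right hc] at hmul
    refine le_trans (min_le_right _ _) ?_
    omega

end Pool.Agent.Lib.Pa7c826s
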