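import Pool.Agent.Lib.Pa7c826s.XDef

/-!
The product of the weights of the links of the tile system.

Label `.inl (i, b)`: the factor of `(τ, r)` is `1` unless `r` is the hub (else `tpt` fixes the block
and `nw c s s = 1`); for the hub of `τ` it is `nw c (σ (τ, hub)) (σ (flip i τ, hub))` when the
digit number `i` of `τ` is `b`, which holds for exactly one `b : Fin 2`. Label
`.inr (.inl l)`: only `(τ, sr l)` contributes, and `Equiv.swap l (par l) (sr l) = tr l`. Label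
`.inr (.inr g)`: only `emb hM (esrc rl g)` contributes.
-/

namespace Pool.Agent.Lib.Pa7c826s

open Pool.Agent.Lib.Pa7c826 Pool.Agent.Lib.Pa7c826t

namespace TFacAux

theorem nw_self (c : ℕ) (s : Bool) : nw c s s = 1 := by simp [nw]

theorem swap_sr {Y : ℕ} (l : Role Y) : Equiv.swap l (par l) (sr l) = tr l := by
  unfold sr tr
  cases isSrc l
  · simp
  · simp

theorem part1 {κ Y M : ℕ} (hM : M + 1 ≤ 2 ^ κ) (rl rr : Fin M → Fin M) (c : ℕ)
    (σ : TB κ Y → Bool) (i : Fin κ) :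
    (∏ b : Fin 2, ∏ x : TB κ Y, (bif tdr hM rl (.inl (i, b)) x then
      nw c (σ x) (σ (tpt hM rl rr (.inl (i, b)) x)) else 1)) =
    ∏ τ : Fin (2 ^ κ), nw c (σ (τ, .inl 0)) (σ (flip i τ, .inl 0)) := by
  have h1 : ∀ b : Fin 2, (∏ x : TB κ Y, (bif tdr hM rl (.inl (i, b)) x then
      nw c (σ x) (σ (tpt hM rl rr (.inl (i, b)) x)) else 1)) =
      ∏ τ : Fin (2 ^ κ), (if (τ : ℕ) / 2 ^ (i : ℕ) % 2 = (b : ℕ) then
        nw c (σ (τ, .inl 0)) (σ (flip i τ, .inl 0)) else 1) := by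
    intro b
    rw [Fintype.prod_prod_type]
    refine Finset.prod_congr rfl fun τ _ => ?_
    rw [Fintype.prod_eq_single (.inl 0 : Role Y)]
    · by_cases h : (τ : ℕ) / 2 ^ (i : ℕ) % 2 = (b : ℕ)
      · simp [tdr, tpt, h]
      · simp [tdr, h]
    · intro r hr
      by_cases h : (τ : ℕ) / 2 ^ (i : ℕ) % 2 = (b : ℕ)
      · simp only [tpt]
        rw [if_neg hr, nw_self]
        simp
      · simp [tdr, h]
  simp only [h1]
  rw [Fin.prod_univ_two, ← Finset.prod_mul_distrib]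
  refine Finset.prod_congr rfl fun τ _ => ?_
  rcases Nat.mod_two_eq_zero_or_one ((τ : ℕ) / 2 ^ (i : ℕ)) with h | h
  · simp [h]
  · simp [h]

end TFacAux

open TFacAux

theorem tfac {κ Y M : ℕ} (hM : M + 1 ≤ 2 ^ κ) (rl rr : Fin M → Fin M) (c : ℕ)
    (σ : TB κ Y → Bool) :
    lprod (tpt hM rl rr) (tdr hM rl) c σ =
      (∏ i : Fin κ, ∏ τ : Fin (2 ^ κ), nw c (σ (τ, .inl 0)) (σ (flip i τ, .inl 0))) *
      (∏ τ : Fin (2 ^ κ), ∏ l : Role Y, nw c (σ (τ, sr l)) (σ (τ, tr l))) *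
      ∏ g : EG M, nw c (σ (emb hM (esrc rl g))) (σ (emb hM (etgt rr g))) := by
  unfold lprod
  rw [Fintype.prod_sum_type, Fintype.prod_sum_type, ← mul_assoc]
  refine congrArg₂ (· * ·) (congrArg₂ (· * ·) ?_ ?_) ?_
  · rw [Fintype.prod_prod_type]
    exact Finset.prod_congr rfl fun i _ => part1 hM rl rr c σ i
  · rw [Finset.prod_comm]
    rw [Fintype.prod_prod_type]
    refine Finset.prod_congr rfl fun τ _ => ?_
    rw [Finset.prod_comm]
    refine Finset.prod_congr rfl fun l _ => ?_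
    rw [Fintype.prod_eq_single (sr l)]
    · simp [tdr, tpt, swap_sr]
    · intro r hr
      simp [tdr, hr]
  · refine Finset.prod_congr rfl fun g _ => ?_
    rw [Fintype.prod_eq_single (emb hM (esrc rl g))]
    · simp [tdr, tpt]
    · intro x hx
      obtain ⟨τ, r⟩ := x
      simp [tdr, hx]

end Pool.Agent.Lib.Pa7c826s
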