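import Pool.Agent.Lib.Pa7c826s.TPair
import Pool.Agent.Lib.Pa7c826t.EIndex

/-!
The block graph at the level of vertex numbers.

Hint: adapt Lib/Pa7c826t/EIndex.lean (`eVE_div`, `eVE_mod`, `srcE_eq`, `tgtE_eq`, `F3_iff`).
Useful steps: `(eTB κ Y (τ, r) : ℕ) = eRole Y r + RR Y * τ`; values of `eRole`: hub `0`, `(j, k) ↦
1 + k + 7 j`, `(y, b) ↦ 22 + b + 2 y`; `parN (eRole Y r) = eRole Y (par r)`,
`srN (eRole Y r) = eRole Y (sr r)`; `embN Y (eEB M x) = eTB κ Y (emb hM x)`; then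
`ptN κ Y L R (eTL κ Y M l) (eTB κ Y x) = eTB κ Y (tpt hM rl rr l x)` and
`drN κ Y L (eTL κ Y M l) (eTB κ Y x) = tdr hM rl l x`.
-/

namespace Pool.Agent.Lib.Pa7c826s

open Pool.Agent.Lib.Pa7c826 Pool.Agent.Lib.Pa7c826t

namespace TIdxAux

theorem eRole_hub {Y : ℕ} (i : Fin 1) : (eRole Y (.inl i) : ℕ) = 0 := by
  have : i = 0 := Subsingleton.elim _ _
  subst this
  simp [eRole]

theorem eRole_br {Y : ℕ} (j : Fin 3) (k : Fin 7) :
    (eRole Y (.inr (.inl (j, k))) : ℕ) = 1 + (k + 7 * j) := by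
  simp [eRole, finProdFinEquiv]

theorem eRole_ch {Y : ℕ} (y : Fin Y) (b : Fin 2) :
    (eRole Y (.inr (.inr (y, b))) : ℕ) = 22 + (b + 2 * y) := by
  simp [eRole, finProdFinEquiv]
  ring

theorem parN_eq {Y : ℕ} (r : Role Y) : parN (eRole Y r) = eRole Y (par r) := by
  rcases r with i | ⟨j, k⟩ | ⟨y, b⟩
  · rw [eRole_hub]
    have : par (Y := Y) (.inl i) = .inl 0 := rfl
    rw [this, eRole_hub]
    rfl
  · rw [eRole_br]
    have hk := k.2
    fin_cases j
    · have : par (Y := Y) (.inr (.inl (⟨0, by omega⟩, k))) = .inl 0 := rfl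
      simp only [Fin.zero_eta] at this ⊢
      rw [this, eRole_hub]
      unfold parN
      rw [if_pos]
      simp
      omega
    · have : par (Y := Y) (.inr (.inl (1, k))) = .inr (.inl (0, k)) := rfl
      simp only [Fin.mk_one] at this ⊢
      rw [this, eRole_br]
      unfold parN
      rw [if_neg (by simp; omega), if_pos (by simp; omega)]
      simp
      omega
    · have : par (Y := Y) (.inr (.inl (2, k))) = .inr (.inl (1, k)) := rfl
      simp only [Fin.reduceFinMk] at this ⊢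
      rw [this, eRole_br]
      unfold parN
      rw [if_neg (by simp; omega), if_pos (by simp; omega)]
      simp
      omega
  · rw [eRole_ch]
    fin_cases b
    · have : par (Y := Y) (.inr (.inr (y, 0))) = .inl 0 := rfl
      simp only [Fin.zero_eta] at this ⊢
      rw [this, eRole_hub]
      unfold parN
      rw [if_neg (by simp; omega), if_neg (by simp), if_pos (by simp)]
    · have : par (Y := Y) (.inr (.inr (y, 1))) = .inr (.inr (y, 0)) := rfl
      simp only [Fin.mk_one] at this ⊢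
      rw [this, eRole_ch]
      unfold parN
      rw [if_neg (by simp; omega), if_neg (by simp), if_neg (by simp; omega)]
      simp
      omega

theorem srN_eq {Y : ℕ} (r : Role Y) : srN (eRole Y r) = eRole Y (sr r) := by
  unfold srN
  rw [parN_eq]
  rcases r with i | ⟨j, k⟩ | ⟨y, b⟩
  · have : sr (Y := Y) (.inl i) = .inl i := rfl
    rw [this, eRole_hub]
    simp
  · have hk := k.2
    have hv := eRole_br (Y := Y) j k
    by_cases hj : j = 0
    · subst hj
      have : sr (Y := Y) (.inr (.inl (0, k))) = .inr (.inl (0, k)) := rfl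
      rw [this]
      have hv' : (eRole Y (.inr (.inl (0, k))) : ℕ) < 8 := by rw [hv]; simp; omega
      rw [if_neg]
      simp only [Bool.and_eq_true, decide_eq_true_eq]
      omega
    · have : sr (Y := Y) (.inr (.inl (j, k))) = par (.inr (.inl (j, k))) := by
        unfold sr isSrc
        simp [hj]
      rw [this]
      have h1 : 0 < (j : ℕ) := Nat.pos_of_ne_zero (fun h => hj (Fin.ext h))
      have h2 := j.2
      rw [if_pos]
      simp only [Bool.and_eq_true, decide_eq_true_eq]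
      omega
  · have : sr (Y := Y) (.inr (.inr (y, b))) = .inr (.inr (y, b)) := rfl
    rw [this]
    have hv := eRole_ch (Y := Y) y b
    rw [if_neg]
    simp only [Bool.and_eq_true, decide_eq_true_eq]
    omega

theorem eTB_val {κ Y : ℕ} (x : TB κ Y) : (eTB κ Y x : ℕ) = eRole Y x.2 + RR Y * x.1 := rfl

theorem eTB_mod {κ Y : ℕ} (x : TB κ Y) : (eTB κ Y x : ℕ) % RR Y = eRole Y x.2 := by
  rw [eTB_val, Nat.add_mul_mod_self_left, Nat.mod_eq_of_lt (eRole Y x.2).2]

theorem eTB_div {κ Y : ℕ} (x : TB κ Y) : (eTB κ Y x : ℕ) / RR Y = x.1 := by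
  rw [eTB_val, Nat.add_mul_div_left _ _ (show 0 < RR Y by unfold RR; omega),
    Nat.div_eq_of_lt (eRole Y x.2).2, Nat.zero_add]

theorem embN_eq {κ Y M : ℕ} (hM : M + 1 ≤ 2 ^ κ) (x : EB M) :
    embN Y (eEB M x) = eTB κ Y (emb hM x) := by
  obtain ⟨a, b⟩ := x
  have hb := b.2
  unfold embN emb
  rw [eEB_val, eTB_val, eRole_br]
  have h1 : ((b : ℕ) + 6 * a) % 6 = b := by omega
  have h2 : ((b : ℕ) + 6 * a) / 6 = a := by omega
  simp only [h1, h2, Fin.val_castSucc, Fin.val_castLE]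
  simp

theorem eTL_cube {κ Y M : ℕ} (i : Fin κ) (b : Fin 2) :
    (eTL κ Y M (.inl (i, b)) : ℕ) = b + 2 * i := by
  simp [eTL, finProdFinEquiv]

theorem eTL_role {κ Y M : ℕ} (l : Role Y) :
    (eTL κ Y M (.inr (.inl l)) : ℕ) = κ * 2 + eRole Y l := by
  simp [eTL]

theorem eTL_edge {κ Y M : ℕ} (g : EG M) :
    (eTL κ Y M (.inr (.inr g)) : ℕ) = κ * 2 + (RR Y + eEG M g) := by
  simp [eTL]

theorem eRole_inj {Y : ℕ} (r r' : Role Y) : ((eRole Y r : ℕ) = eRole Y r') ↔ r = r' := by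
  rw [← Fin.ext_iff, (eRole Y).injective.eq_iff]

theorem eTB_inj {κ Y : ℕ} (r r' : TB κ Y) : ((eTB κ Y r : ℕ) = eTB κ Y r') ↔ r = r' := by
  rw [← Fin.ext_iff, (eTB κ Y).injective.eq_iff]

theorem ptN_eq {κ Y M : ℕ} (hM : M + 1 ≤ 2 ^ κ) {L R : ℕ → ℕ} {rl rr : Fin M → Fin M}
    (hL : ∀ e : Fin M, L e = rl e) (hR : ∀ e : Fin M, R e = rr e) (l : TL κ Y M)
    (x : TB κ Y) :
    ptN κ Y L R (eTL κ Y M l) (eTB κ Y x) = eTB κ Y (tpt hM rl rr l x) := by
  obtain ⟨τ, r⟩ := x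
  unfold ptN
  rcases l with ⟨i, b⟩ | l' | g
  · rw [eTL_cube]
    have hi := i.2
    have hb := b.2
    rw [if_pos (by simp; omega), eTB_mod, eTB_div]
    have h1 : ((b : ℕ) + 2 * i) / 2 = i := by omega
    rw [h1]
    have h0 : (eRole Y r : ℕ) = 0 ↔ r = .inl 0 := by
      have h3 := eRole_inj (Y := Y) r (.inl 0)
      rw [eRole_hub] at h3
      exact h3
    simp only [decide_eq_true_eq, h0]
    unfold tpt
    simp only
    split_ifs with h
    · rw [eTB_val]
      subst h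
      simp only [eRole_hub]
      simp [flip]
    · rfl
  · rw [eTL_role]
    have h1 := (eRole Y l').2
    have h2 : κ * 2 + (eRole Y l' : ℕ) - κ * 2 = eRole Y l' := by omega
    rw [if_neg (by simp), if_pos (by simp), h2, eTB_mod, eTB_div, parN_eq]
    simp only [decide_eq_true_eq, eRole_inj]
    unfold tpt
    simp only [Equiv.swap_apply_def]
    split_ifs with h h'
    · rw [eTB_val]
      simp only
      ring
    · rw [eTB_val]
      simp only
      ring
    · rfl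
  · rw [eTL_edge]
    have h2 : κ * 2 + (RR Y + (eEG M g : ℕ)) - (κ * 2 + RR Y) = eEG M g := by omega
    rw [if_neg (by simp), if_neg (by simp), h2, srcE_eq hL, tgtE_eq hR,
      embN_eq hM, embN_eq hM]
    simp only [decide_eq_true_eq, eTB_inj]
    unfold tpt
    simp only [Equiv.swap_apply_def]
    split_ifs <;> rfl

theorem drN_eq {κ Y M : ℕ} (hM : M + 1 ≤ 2 ^ κ) {L : ℕ → ℕ} {rl : Fin M → Fin M}
    (hL : ∀ e : Fin M, L e = rl e) (l : TL κ Y M) (x : TB κ Y) :
    drN κ Y L (eTL κ Y M l) (eTB κ Y x) = tdr hM rl l x := by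
  obtain ⟨τ, r⟩ := x
  unfold drN
  rcases l with ⟨i, b⟩ | l' | g
  · rw [eTL_cube]
    have hi := i.2
    have hb := b.2
    rw [if_pos (by simp; omega), eTB_div]
    have h1 : ((b : ℕ) + 2 * i) / 2 = i := by omega
    have h2 : ((b : ℕ) + 2 * i) % 2 = b := by omega
    rw [h1, h2]
    rfl
  · rw [eTL_role]
    have h1 := (eRole Y l').2
    have h2 : κ * 2 + (eRole Y l' : ℕ) - κ * 2 = eRole Y l' := by omega
    rw [if_neg (by simp), if_pos (by simp), h2, eTB_mod, srN_eq]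
    simp only [eRole_inj]
    rfl
  · rw [eTL_edge]
    have h2 : κ * 2 + (RR Y + (eEG M g : ℕ)) - (κ * 2 + RR Y) = eEG M g := by omega
    rw [if_neg (by simp), if_neg (by simp), h2, srcE_eq hL, embN_eq hM]
    simp only [eTB_inj]
    rfl

theorem eTS_inl {κ Y M c f : ℕ} (l : TL κ Y M) (j : Fin (c + 1)) :
    (eTS κ Y M c f (.inl (l, j)) : ℕ) = j + (c + 1) * eTL κ Y M l := by
  simp [eTS, finProdFinEquiv]

theorem eTS_inr {κ Y M c f : ℕ} (s : Fin f) :
    (eTS κ Y M c f (.inr s) : ℕ) = LL κ Y M * (c + 1) + s := by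
  simp [eTS]

theorem eTV_div {κ Y M c f : ℕ} (v : Vx (TL κ Y M) (TB κ Y) c f) :
    (eTV κ Y M c f v : ℕ) / (LL κ Y M * (c + 1) + f) = eTB κ Y v.1 := by
  have h : (eTV κ Y M c f v : ℕ) = eTS κ Y M c f v.2 + (LL κ Y M * (c + 1) + f) * eTB κ Y v.1 :=
    rfl
  have h2 := (eTS κ Y M c f v.2).2
  rw [h, Nat.add_mul_div_left _ _ (by omega), Nat.div_eq_of_lt h2, Nat.zero_add]

theorem eTV_mod {κ Y M c f : ℕ} (v : Vx (TL κ Y M) (TB κ Y) c f) :
    (eTV κ Y M c f v : ℕ) % (LL κ Y M * (c + 1) + f) = eTS κ Y M c f v.2 := by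
  have h : (eTV κ Y M c f v : ℕ) = eTS κ Y M c f v.2 + (LL κ Y M * (c + 1) + f) * eTB κ Y v.1 :=
    rfl
  have h2 := (eTS κ Y M c f v.2).2
  rw [h, Nat.add_mul_mod_self_left, Nat.mod_eq_of_lt h2]

end TIdxAux

open TIdxAux

theorem F5_iff {κ Y M c f : ℕ} (hM : M + 1 ≤ 2 ^ κ) (L R : ℕ → ℕ) (rl rr : Fin M → Fin M)
    (hL : ∀ e : Fin M, L e = rl e) (hR : ∀ e : Fin M, R e = rr e)
    (u v : Vx (TL κ Y M) (TB κ Y) c f) :
    XRel (tpt hM rl rr) (tdr hM rl) c f u v ↔
      F5 κ Y M (c + 1) f L R (eTV κ Y M c f u) (eTV κ Y M c f v) = true := by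
  unfold F5
  simp only [eTV_div, eTV_mod]
  obtain ⟨V, T⟩ := v
  obtain ⟨U, S⟩ := u
  have hS : ∀ x y : Slt (TL κ Y M) c f,
      ((eTS κ Y M c f x : ℕ) = eTS κ Y M c f y) ↔ x = y := by
    intro x y
    rw [← Fin.ext_iff, (eTS κ Y M c f).injective.eq_iff]
  rcases T with ⟨l, j⟩ | s
  · have hlt : (eTS κ Y M c f (.inl (l, j)) : ℕ) < LL κ Y M * (c + 1) := by
      rw [eTS_inl]
      have h1 := (eTL κ Y M l).2
      have h2 := j.2
      calc (j : ℕ) + (c + 1) * eTL κ Y M l < (c + 1) + (c + 1) * eTL κ Y M l := by omega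
        _ = (c + 1) * (eTL κ Y M l + 1) := by ring
        _ ≤ (c + 1) * (LL κ Y M) := Nat.mul_le_mul_left _ h1
        _ = _ := by ring
    rw [if_pos (by simpa using hlt)]
    unfold F5g
    have hg : (eTS κ Y M c f (.inl (l, j)) : ℕ) / (c + 1) = eTL κ Y M l := by
      rw [eTS_inl, Nat.add_mul_div_left _ _ (by omega), Nat.div_eq_of_lt j.2, Nat.zero_add]
    simp only [hg, ptN_eq hM hL hR, drN_eq hM hL]
    have h0 : (c + 1) * (eTL κ Y M l : ℕ) = eTS κ Y M c f (.inl (l, 0)) := by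
      rw [eTS_inl]; simp
    rw [h0]
    simp only [eTB_inj, hS]
    unfold XRel
    simp only [decide_eq_true_eq]
    by_cases hp : tpt hM rl rr l V = V
    · rw [if_pos hp]
      simp [hp]
    · rw [if_neg hp]
      cases hd : tdr hM rl l V
      · simp [hp]
      · simp [hp]
  · have hlt : ¬ ((eTS κ Y M c f (.inr s) : ℕ) < LL κ Y M * (c + 1)) := by
      rw [eTS_inr]; omega
    rw [if_neg (by simpa using hlt)]
    simp only [decide_eq_true_eq, eTB_inj]
    rfl

end Pool.Agent.Lib.Pa7c826s
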