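import Pool.Agent.Lib.Pa7c826s.XDef

/-!
Counting independent sets of the block graph.

Hint: copy `card_miss`, `lower_bound`, `card_mixed`, `upper_bound` of
Lib/Pa7c826/BlockCount.lean. First prove analogues of `BRel_same_right`, `BRel_same_left`, and:
if `u.1 ≠ v.1` and `XRel pt dr c f u v` then `v.2` and `u.2` are label slots (`.inl`).
(`Pairing` is probably not needed.)
-/

namespace Pool.Agent.Lib.Pa7c826s

open Pool.Agent.Lib.Pa7c826 Pool.Agent.Lib.Pa7c826t

variable {Λ Blk : Type} [Fintype Λ] [Fintype Blk] [DecidableEq Blk] {pt : Λ → Blk → Blk}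
  {dr : Λ → Blk → Bool} {c f : ℕ}

private theorem XRel_inr {u v : Vx Λ Blk c f} {s : Fin f} (h : v.2 = .inr s) (hR : XRel pt dr c f u v) :
    u.1 = v.1 := by
  unfold XRel at hR
  rw [h] at hR
  exact hR

private theorem XRel_same_right {u v : Vx Λ Blk c f} {s : Fin f} (h1 : u.1 = v.1) (h : v.2 = .inr s) :
    XRel pt dr c f u v := by
  unfold XRel
  rw [h]
  exact h1

private theorem XRel_same_left {u v : Vx Λ Blk c f} {s : Fin f} (h1 : u.1 = v.1) (h : u.2 = .inr s) :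
    XRel pt dr c f u v := by
  unfold XRel
  rcases hv : v.2 with g | s'
  · simp only
    by_cases h2 : pt g.1 v.1 = v.1
    · exact Or.inl ⟨h2, h1⟩
    · rcases hd : dr g.1 v.1 with _ | _
      · exact Or.inr (Or.inr ⟨h2, rfl, Or.inl ⟨h1, by rw [h]; simp⟩⟩)
      · exact Or.inr (Or.inl ⟨h2, rfl, Or.inl ⟨h1, by rw [h]; simp⟩⟩)
  · exact h1

private theorem XRel_diff {u v : Vx Λ Blk c f} (hne : u.1 ≠ v.1) (hR : XRel pt dr c f u v) :
    (∃ g, v.2 = .inl g) ∧ ∃ g, u.2 = .inl g := by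
  unfold XRel at hR
  rcases hv : v.2 with g | s'
  · rw [hv] at hR
    simp only at hR
    refine ⟨⟨g, rfl⟩, ?_⟩
    rcases hR with ⟨_, h⟩ | ⟨_, _, ⟨h, _⟩ | ⟨_, h⟩⟩ | ⟨_, _, ⟨h, _⟩ | ⟨_, h⟩⟩
    · exact absurd h hne
    · exact absurd h hne
    · exact ⟨_, h⟩
    · exact absurd h hne
    · exact ⟨_, h⟩
  · rw [hv] at hR
    exact absurd hR hne

/-- pure sets missing the block `x` -/
private def MissX (pt : Λ → Blk → Blk) (dr : Λ → Blk → Bool) (c f : ℕ) (σ : Blk → Bool) (x : Blk) (U : Set (Vx Λ Blk c f)) : Prop :=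
  XPure pt dr c f σ U ∧ ∀ s, (x, s) ∉ U

private theorem card_miss (σ : Blk → Bool) (x : Blk) :
    Nat.card {U : Set (Vx Λ Blk c f) //
      MissX pt dr c f σ x U} * 2 ^ f ≤
    Nat.card {U : Set (Vx Λ Blk c f) // XPure pt dr c f σ U} := by
  classical
  have h1 : (2 : ℕ) ^ f = Nat.card (Set (Fin f)) := by
    rw [card_set', Nat.card_eq_fintype_card, Fintype.card_fin]
  rw [h1, ← Nat.card_prod]
  refine Nat.card_le_card_of_injective
    (fun p => ⟨p.1.1 ∪ {u | u.1 = x ∧ ∃ s ∈ p.2, u.2 = .inr s}, ?_⟩) ?_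
  · rintro u (hu | ⟨hu, s, hs, hus⟩) v (hv | ⟨hv, s', hs', hvs⟩) h1 h2 hR
    · exact p.1.2.1 u hu v hv h1 h2 hR
    · have hne : u.1 ≠ v.1 := by intro e; rw [e, h2] at h1; exact absurd h1 (by simp)
      obtain ⟨⟨g, hg⟩, _⟩ := XRel_diff hne hR
      rw [hvs] at hg
      simp at hg
    · have hne : u.1 ≠ v.1 := by intro e; rw [e, h2] at h1; exact absurd h1 (by simp)
      obtain ⟨_, ⟨g, hg⟩⟩ := XRel_diff hne hR
      rw [hus] at hg
      simp at hg
    · rw [hu] at h1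
      rw [hv, h1] at h2
      exact absurd h2 (by simp)
  · rintro ⟨⟨U, hU, hUx⟩, S⟩ ⟨⟨U', hU', hUx'⟩, S'⟩ h
    have h' := congrArg Subtype.val h
    have key : ∀ u, (u ∈ U ∨ (u.1 = x ∧ ∃ s ∈ S, u.2 = .inr s)) ↔
        (u ∈ U' ∨ (u.1 = x ∧ ∃ s ∈ S', u.2 = .inr s)) := by
      intro u
      have := Set.ext_iff.1 h' u
      exact this
    refine Prod.ext (Subtype.ext ?_) ?_
    · ext u
      constructor
      · intro hu
        rcases (key u).1 (Or.inl hu) with h3 | ⟨h3, _⟩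
        · exact h3
        · exact absurd (show (x, u.2) ∈ U by rw [← h3]; exact hu) (hUx u.2)
      · intro hu
        rcases (key u).2 (Or.inl hu) with h3 | ⟨h3, _⟩
        · exact h3
        · exact absurd (show (x, u.2) ∈ U' by rw [← h3]; exact hu) (hUx' u.2)
    · ext s
      constructor
      · intro hs
        rcases (key (x, .inr s)).1 (Or.inr ⟨rfl, s, hs, rfl⟩) with h3 | ⟨_, s', hs', h3⟩
        · exact absurd h3 (hUx' _)
        · simp only [Sum.inr.injEq] at h3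
          rw [h3]; exact hs'
      · intro hs
        rcases (key (x, .inr s)).2 (Or.inr ⟨rfl, s, hs, rfl⟩) with h3 | ⟨_, s', hs', h3⟩
        · exact absurd h3 (hUx _)
        · simp only [Sum.inr.injEq] at h3
          rw [h3]; exact hs'

theorem lower_x (hp : Pairing pt dr) :
    2 ^ f * xpure pt dr c f ≤ 2 ^ f * cnt (XRel pt dr c f) +
      Fintype.card Blk * xpure pt dr c f := by
  classical
  -- full pure sets
  let Full : (Blk → Bool) → Set (Vx Λ Blk c f) → Prop := fun σ U =>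
    XPure pt dr c f σ U ∧ ∀ x, ∃ s, (x, s) ∈ U
  have h1 : ∀ σ, Nat.card {U // XPure pt dr c f σ U} ≤ Nat.card {U // Full σ U} +
      ∑ x, Nat.card {U // MissX pt dr c f σ x U} := by
    intro σ
    rw [← Nat.card_sigma, ← Nat.card_sum]
    have hx : ∀ U : {U // XPure pt dr c f σ U}, ¬ Full σ U.1 → ∃ x, ∀ s, (x, s) ∉ U.1 := by
      intro U hU
      by_contra h
      push Not at h
      exact hU ⟨U.2, h⟩
    refine Nat.card_le_card_of_injective
      (fun U => if h : Full σ U.1 then Sum.inl ⟨U.1, h⟩ else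
        Sum.inr ⟨(hx U h).choose, ⟨U.1, U.2, (hx U h).choose_spec⟩⟩) ?_
    intro U U' h
    apply Subtype.ext
    by_cases h2 : Full σ U.1 <;> by_cases h3 : Full σ U'.1
    · simp only [dif_pos h2, dif_pos h3, Sum.inl.injEq, Subtype.mk.injEq] at h
      exact h
    · simp only [dif_pos h2, dif_neg h3] at h
      exact absurd h (by simp)
    · simp only [dif_neg h2, dif_pos h3] at h
      exact absurd h (by simp)
    · simp only [dif_neg h2, dif_neg h3, Sum.inr.injEq] at h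
      have h4 := congrArg (fun z : (Σ x, {U // MissX pt dr c f σ x U}) => z.2.1) h
      exact h4
  have h2 : ∑ σ : Blk → Bool, Nat.card {U // Full σ U} ≤ cnt (XRel pt dr c f) := by
    rw [← Nat.card_sigma]
    unfold cnt
    refine Nat.card_le_card_of_injective
      (fun p => ⟨({u | u ∈ p.2.1 ∧ p.1 u.1 = true}, {u | u ∈ p.2.1 ∧ p.1 u.1 = false}),
        fun u hu v hv => p.2.2.1 u hu.1 v hv.1 hu.2 hv.2⟩) ?_
    rintro ⟨σ, ⟨U, hU, hf⟩⟩ ⟨σ', ⟨U', hU', hf'⟩⟩ h
    simp only [Subtype.mk.injEq, Prod.mk.injEq] at h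
    obtain ⟨hL, hR⟩ := h
    have kL : ∀ u, (u ∈ U ∧ σ u.1 = true) ↔ (u ∈ U' ∧ σ' u.1 = true) := fun u =>
      Set.ext_iff.1 hL u
    have kR : ∀ u, (u ∈ U ∧ σ u.1 = false) ↔ (u ∈ U' ∧ σ' u.1 = false) := fun u =>
      Set.ext_iff.1 hR u
    have hUU : U = U' := by
      ext u
      cases hb : σ u.1
      · constructor
        · intro hu; exact ((kR u).1 ⟨hu, hb⟩).1
        · intro hu
          cases hb' : σ' u.1
          · exact ((kR u).2 ⟨hu, hb'⟩).1
          · exact ((kL u).2 ⟨hu, hb'⟩).1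
      · constructor
        · intro hu; exact ((kL u).1 ⟨hu, hb⟩).1
        · intro hu
          cases hb' : σ' u.1
          · exact ((kR u).2 ⟨hu, hb'⟩).1
          · exact ((kL u).2 ⟨hu, hb'⟩).1
    subst hUU
    have hσ : σ = σ' := by
      funext x
      obtain ⟨s, hs⟩ := hf x
      cases hb : σ x
      · exact ((kR (x, s)).1 ⟨hs, hb⟩).2.symm
      · exact ((kL (x, s)).1 ⟨hs, hb⟩).2.symm
    subst hσ
    rfl
  have h3 : ∀ σ, 2 ^ f * ∑ x, Nat.card {U // MissX pt dr c f σ x U} ≤ Fintype.card Blk *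
        Nat.card {U // XPure pt dr c f σ U} := by
    intro σ
    rw [Finset.mul_sum, ← Finset.card_univ, ← smul_eq_mul (a := (Finset.univ : Finset Blk).card),
      ← Finset.sum_const]
    refine Finset.sum_le_sum fun x _ => ?_
    rw [mul_comm]
    exact card_miss σ x
  unfold xpure
  calc 2 ^ f * ∑ σ : Blk → Bool, Nat.card {U // XPure pt dr c f σ U}
      ≤ 2 ^ f * ∑ σ : Blk → Bool, (Nat.card {U // Full σ U} +
        ∑ x, Nat.card {U // MissX pt dr c f
          σ x U}) := Nat.mul_le_mul_left _ (Finset.sum_le_sum fun σ _ => h1 σ)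
    _ = 2 ^ f * ∑ σ : Blk → Bool, Nat.card {U // Full σ U} +
        ∑ σ : Blk → Bool, 2 ^ f * ∑ x, Nat.card {U // MissX pt dr c f σ x U} := by
        rw [Finset.sum_add_distrib, Nat.mul_add, Finset.mul_sum Finset.univ (fun σ => ∑ x, _)]
    _ ≤ 2 ^ f * cnt (XRel pt dr c f) + ∑ σ : Blk → Bool, Fintype.card Blk *
        Nat.card {U // XPure pt dr c f σ U} :=
        Nat.add_le_add (Nat.mul_le_mul_left _ h2) (Finset.sum_le_sum fun σ _ => h3 σ)
    _ = _ := by rw [Finset.mul_sum]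

/-- independent pairs that meet both sides of the block `x` -/
private def MixedX (pt : Λ → Blk → Blk) (dr : Λ → Blk → Bool) (c f : ℕ) (x : Blk) (p : Set (Vx Λ Blk c f) ×
    Set (Vx Λ Blk c f)) : Prop :=
  (∀ u ∈ p.1, ∀ v ∈ p.2, ¬ XRel pt dr c f u v) ∧ (∃ s, (x, s) ∈ p.1) ∧ ∃ s, (x, s) ∈ p.2

private theorem card_mixed (x : Blk) :
    Nat.card {p // MixedX pt dr c f x p} * 2 ^ f ≤
      2 ^ (Fintype.card Λ * (c + 1)) * cnt (XRel pt dr c f) := by
  classical
  have h1 : (2 : ℕ) ^ f = Nat.card (Set (Fin f)) := by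
    rw [card_set', Nat.card_eq_fintype_card, Fintype.card_fin]
  have h2 : (2 : ℕ) ^ (Fintype.card Λ * (c + 1)) = Nat.card (Set (Λ × Fin (c + 1))) := by
    rw [card_set', Nat.card_prod, Nat.card_eq_fintype_card, Nat.card_eq_fintype_card,
      Fintype.card_fin]
  unfold cnt
  rw [h1, h2, ← Nat.card_prod, ← Nat.card_prod]
  refine Nat.card_le_card_of_injective
    (fun q => ({g | (x, .inl g) ∈ q.1.1.1},
      ⟨({u | u ∈ q.1.1.1 ∧ u.1 ≠ x}, q.1.1.2 ∪ {u | u.1 = x ∧ ∃ s ∈ q.2, u.2 = .inr s}), ?_⟩)) ?_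
  · rintro u ⟨hu, hux⟩ v (hv | ⟨hvx, s, hs, hvs⟩) hR
    · exact q.1.2.1 u hu v hv hR
    · exact hux ((XRel_inr hvs hR).trans hvx)
  · rintro ⟨⟨⟨P, Q⟩, hI, ⟨s0, hs0⟩, ⟨s1, hs1⟩⟩, S⟩ ⟨⟨⟨P', Q'⟩, hI', ⟨s0', hs0'⟩, ⟨s1', hs1'⟩⟩, S'⟩ h
    simp only [Prod.mk.injEq, Subtype.mk.injEq] at h
    obtain ⟨hA, hP, hQ⟩ := h
    -- no free slots
    have nP : ∀ s, (x, Sum.inr s) ∉ P := fun s hs => hI _ hs _ hs1 (XRel_same_left rfl rfl)
    have nP' : ∀ s, (x, Sum.inr s) ∉ P' := fun s hs => hI' _ hs _ hs1' (XRel_same_left rfl rfl)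
    have nQ : ∀ s, (x, Sum.inr s) ∉ Q := fun s hs => hI _ hs0 _ hs (XRel_same_right rfl rfl)
    have nQ' : ∀ s, (x, Sum.inr s) ∉ Q' := fun s hs => hI' _ hs0' _ hs (XRel_same_right rfl rfl)
    have kA : ∀ g, (x, Sum.inl g) ∈ P ↔ (x, Sum.inl g) ∈ P' := fun g => Set.ext_iff.1 hA g
    have kP : ∀ u, (u ∈ P ∧ u.1 ≠ x) ↔ (u ∈ P' ∧ u.1 ≠ x) := fun u => Set.ext_iff.1 hP u
    have kQ : ∀ u, (u ∈ Q ∨ (u.1 = x ∧ ∃ s ∈ S, u.2 = .inr s)) ↔
        (u ∈ Q' ∨ (u.1 = x ∧ ∃ s ∈ S', u.2 = .inr s)) := fun u => Set.ext_iff.1 hQ u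
    have hPP : P = P' := by
      ext ⟨y, s⟩
      by_cases hy : y = x
      · subst hy
        rcases s with g | s
        · exact kA g
        · exact iff_of_false (nP s) (nP' s)
      · constructor
        · intro hu; exact ((kP _).1 ⟨hu, hy⟩).1
        · intro hu; exact ((kP _).2 ⟨hu, hy⟩).1
    have hQQ : Q = Q' := by
      ext u
      constructor
      · intro hu
        rcases (kQ u).1 (Or.inl hu) with h3 | ⟨h3, s, _, h4⟩
        · exact h3
        · exact absurd (show (x, Sum.inr s) ∈ Q by rw [← h3, ← h4]; exact hu) (nQ s)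
      · intro hu
        rcases (kQ u).2 (Or.inl hu) with h3 | ⟨h3, s, _, h4⟩
        · exact h3
        · exact absurd (show (x, Sum.inr s) ∈ Q' by rw [← h3, ← h4]; exact hu) (nQ' s)
    have hSS : S = S' := by
      ext s
      constructor
      · intro hs
        rcases (kQ (x, .inr s)).1 (Or.inr ⟨rfl, s, hs, rfl⟩) with h3 | ⟨_, s', hs', h3⟩
        · exact absurd h3 (nQ' s)
        · simp only [Sum.inr.injEq] at h3
          rw [h3]; exact hs'
      · intro hs
        rcases (kQ (x, .inr s)).2 (Or.inr ⟨rfl, s, hs, rfl⟩) with h3 | ⟨_, s', hs', h3⟩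
        · exact absurd h3 (nQ s)
        · simp only [Sum.inr.injEq] at h3
          rw [h3]; exact hs'
    subst hPP hQQ hSS
    rfl

theorem upper_x (hp : Pairing pt dr) :
    2 ^ f * cnt (XRel pt dr c f) ≤ 2 ^ f * xpure pt dr c f +
      Fintype.card Blk * (2 ^ (Fintype.card Λ * (c + 1)) * cnt (XRel pt dr c f)) := by
  classical
  let I : Set (Vx Λ Blk c f) × Set (Vx Λ Blk c f) →
    Prop := fun p => ∀ u ∈ p.1, ∀ v ∈ p.2, ¬ XRel pt dr c f u v
  have h1 : Nat.card {p // I p} ≤ Nat.card {p // I p ∧ ∀ x, ¬ ((∃ s, (x, s) ∈ p.1) ∧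
      ∃ s, (x, s) ∈ p.2)} + ∑ x, Nat.card {p // MixedX pt dr c f x p} := by
    rw [← Nat.card_sigma, ← Nat.card_sum]
    have hx : ∀ p : {p // I p}, ¬ (I p.1 ∧ ∀ x, ¬ ((∃ s, (x, s) ∈ p.1.1) ∧
      ∃ s, (x, s) ∈ p.1.2)) → ∃ x, MixedX pt dr c f x p.1 := by
      intro p hp
      by_contra h
      push Not at h
      exact hp ⟨p.2, fun x hxx => h x ⟨p.2, hxx.1, hxx.2⟩⟩
    refine Nat.card_le_card_of_injective
      (fun p => if h : (I p.1 ∧ ∀ x, ¬ ((∃ s, (x, s) ∈ p.1.1) ∧ ∃ s, (x, s) ∈ p.1.2)) then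
        Sum.inl ⟨p.1, h⟩ else Sum.inr ⟨(hx p h).choose, ⟨p.1, (hx p h).choose_spec⟩⟩) ?_
    intro p p' h
    apply Subtype.ext
    by_cases h2 : (I p.1 ∧ ∀ x, ¬ ((∃ s, (x, s) ∈ p.1.1) ∧ ∃ s, (x, s) ∈ p.1.2)) <;>
    by_cases h3 : (I p'.1 ∧ ∀ x, ¬ ((∃ s, (x, s) ∈ p'.1.1) ∧ ∃ s, (x, s) ∈ p'.1.2))
    · simp only [dif_pos h2, dif_pos h3, Sum.inl.injEq, Subtype.mk.injEq] at h
      exact h
    · simp only [dif_pos h2, dif_neg h3] at h
      exact absurd h (by simp)
    · simp only [dif_neg h2, dif_pos h3] at h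
      exact absurd h (by simp)
    · simp only [dif_neg h2, dif_neg h3, Sum.inr.injEq] at h
      have h4 := congrArg (fun z : (Σ x, {p // MixedX pt dr c f x p}) => z.2.1) h
      exact h4
  have h2 : Nat.card {p // I p ∧ ∀ x, ¬ ((∃ s, (x, s) ∈ p.1) ∧ ∃ s, (x, s) ∈ p.2)} ≤
      xpure pt dr c f := by
    unfold xpure
    rw [← Nat.card_sigma]
    have key : ∀ p : {p // I p ∧ ∀ x, ¬ ((∃ s, (x, s) ∈ p.1) ∧ ∃ s, (x, s) ∈ p.2)}, ∀ u,
        u ∈ p.1.2 → decide (∃ s, (u.1, s) ∈ p.1.1) = false := by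
      intro p u hu
      rw [decide_eq_false_iff_not]
      intro h
      exact p.2.2 u.1 ⟨h, u.2, hu⟩
    have key1 : ∀ p : {p // I p ∧ ∀ x, ¬ ((∃ s, (x, s) ∈ p.1) ∧ ∃ s, (x, s) ∈ p.2)}, ∀ u,
        u ∈ p.1.1 → decide (∃ s, (u.1, s) ∈ p.1.1) = true := by
      intro p u hu
      rw [decide_eq_true_eq]
      exact ⟨u.2, hu⟩
    refine Nat.card_le_card_of_injective
      (fun p => ⟨fun x => decide (∃ s, (x, s) ∈ p.1.1), ⟨p.1.1 ∪ p.1.2, ?_⟩⟩) ?_
    · rintro u (hu | hu) v (hv | hv) e1 e2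
      all_goals beta_reduce at e1 e2
      · rw [key1 p v hv] at e2; exact absurd e2 (by simp)
      · exact p.2.1 u hu v hv
      · rw [key p u hu] at e1; exact absurd e1 (by simp)
      · rw [key p u hu] at e1; exact absurd e1 (by simp)
    · intro p p' h
      have hσ := congrArg (fun z : (Σ σ : Blk → Bool, {U : Set (Vx Λ Blk c f)
        // XPure pt dr c f σ U}) => z.1) h
      have hU := congrArg (fun z : (Σ σ : Blk → Bool, {U : Set (Vx Λ Blk c f)
        // XPure pt dr c f σ U}) => z.2.1) h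
      simp only at hσ hU
      have kσ : ∀ x, decide (∃ s, (x, s) ∈ p.1.1) = decide (∃ s, (x, s) ∈ p'.1.1) :=
        fun x => congrFun hσ x
      have kU : ∀ u, (u ∈ p.1.1 ∨ u ∈ p.1.2) ↔ (u ∈ p'.1.1 ∨ u ∈ p'.1.2) := fun u =>
        Set.ext_iff.1 hU u
      apply Subtype.ext
      refine Prod.ext ?_ ?_
      · ext u
        constructor
        · intro hu
          rcases (kU u).1 (Or.inl hu) with h3 | h3
          · exact h3
          · have := kσ u.1
            rw [key1 p u hu, key p' u h3] at this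
            exact absurd this (by simp)
        · intro hu
          rcases (kU u).2 (Or.inl hu) with h3 | h3
          · exact h3
          · have := kσ u.1
            rw [key1 p' u hu, key p u h3] at this
            exact absurd this (by simp)
      · ext u
        constructor
        · intro hu
          rcases (kU u).1 (Or.inr hu) with h3 | h3
          · have := kσ u.1
            rw [key1 p' u h3, key p u hu] at this
            exact absurd this (by simp)
          · exact h3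
        · intro hu
          rcases (kU u).2 (Or.inr hu) with h3 | h3
          · have := kσ u.1
            rw [key1 p u h3, key p' u hu] at this
            exact absurd this (by simp)
          · exact h3
  have h3 : 2 ^ f * ∑ x, Nat.card {p // MixedX pt dr c f x p} ≤
      Fintype.card Blk * (2 ^ (Fintype.card Λ * (c + 1)) * cnt (XRel pt dr c f)) := by
    rw [Finset.mul_sum, ← Finset.card_univ, ← smul_eq_mul (a := (Finset.univ : Finset Blk).card),
      ← Finset.sum_const]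
    refine Finset.sum_le_sum fun x _ => ?_
    rw [mul_comm]
    exact card_mixed x
  have h4 : cnt (XRel pt dr c f) = Nat.card {p // I p} := rfl
  calc 2 ^ f * cnt (XRel pt dr c f)
      ≤ 2 ^ f * (xpure pt dr c f + ∑ x, Nat.card {p // MixedX pt dr c f x p}) := by
        refine Nat.mul_le_mul_left _ ?_
        rw [h4]
        exact h1.trans (Nat.add_le_add_right h2 _)
    _ = 2 ^ f * xpure pt dr c f +
        2 ^ f * ∑ x, Nat.card {p // MixedX pt dr c f x p} := Nat.mul_add _ _ _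
    _ ≤ _ := Nat.add_le_add_left h3 _

end Pool.Agent.Lib.Pa7c826s
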