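import Pool.Agent.Lib.Pa7c826s.XPure
import Pool.Agent.Lib.Pa7c826s.XCount
import Pool.Agent.Lib.Pa7c826s.TPair
import Pool.Agent.Lib.Pa7c826s.TBound
import Pool.Agent.Lib.Pa7c826s.ISum

/-!
The number of independent sets of the tile system.

`tnum` is the estimate of the normalised sum: with `h = hh (ce a b M (RR Y))` one has
`h * 2 ^ (a + b + M + 2 * RR Y + 8) ≤ 1` (`hh_small`), `RR Y = 2 Y + 22`, and
`nsumE_upper` holds with `t := RR Y`. Put `ε = 1 / (2 t + 1)`. Then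
`(2 ^ (Y + 1) + 2 ^ 8) ^ (2 ^ κ) = 2 ^ ((Y + 1) 2 ^ κ) (1 + 2 ^ (7 - Y)) ^ (2 ^ κ)`,
`(1 + 2 ^ (7 - Y)) ^ (2 ^ κ) ≤ 1 + 2 * 2 ^ κ * 2 ^ (7 - Y) ≤ 1 + ε / 16` by `one_add_pow_le` and
`κ + 2 t + 20 ≤ Y`, `(1 + 3 h) ^ ((Y + 7) 2 ^ κ) ≤ 1 + 6 h (Y + 7) 2 ^ κ ≤ 1 + ε / 16`,
`1 / (4 (2 RR Y + 1)) ≤ ε / 16`, and `(1 + ε / 16) ^ 3 ≤ 1 + ε / 4`.
`tfinal` follows with `num_final` (Lib/Pa7c826/BISTotal.lean; see `efinal_estimate` in
Lib/Pa7c826t/ETotal.lean for its use), `xpure_eq`, `lower_x`, `upper_x`, with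
`B = 2 ^ (N + (Y + 7) 2 ^ κ - (a + b + 3 M))` and `S` the normalised sum.
-/

namespace Pool.Agent.Lib.Pa7c826s

open Pool.Agent.Lib.Pa7c826 Pool.Agent.Lib.Pa7c826t

theorem tnum {a b κ Y M t : ℕ} (hM : M + 1 ≤ 2 ^ κ) (x : Fin M → Fin a) (y : Fin M → Fin b)
    (rl rr : Fin M → Fin M) (hl1 : ∀ e, x (rl e) = x e)
    (hl2 : ∀ e e', x e = x e' → rl e = rl e') (hr1 : ∀ e, y (rr e) = y e)
    (hr2 : ∀ e e', y e = y e' → rr e = rr e')
    (hE : 1 ≤ cnt (fun i j => ∃ e, x e = i ∧ y e = j)) (hY : κ + 2 * t + 20 ≤ Y) :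
    (cnt (fun i j => ∃ e, x e = i ∧ y e = j) : ℚ) ≤
      (∑ σ : TB κ Y → Bool, lprod (tpt hM rl rr) (tdr hM rl) (ce a b M (RR Y)) σ) *
        2 ^ (a + b + 3 * M) / 2 ^ ((Y + 7) * 2 ^ κ) ∧
    (∑ σ : TB κ Y → Bool, lprod (tpt hM rl rr) (tdr hM rl) (ce a b M (RR Y)) σ) *
        2 ^ (a + b + 3 * M) / 2 ^ ((Y + 7) * 2 ^ κ) ≤
      cnt (fun i j => ∃ e, x e = i ∧ y e = j) * (1 + 1 / (4 * (2 * (t : ℚ) + 1))) := by
  have hlo := tlower (Y := Y) hM rl rr (ce a b M (RR Y))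
  have hup := tupper (Y := Y) hM rl rr (ce a b M (RR Y))
  have hI := isum_eq hM (ce a b M (RR Y)) x y rl rr hl1 hl2 hr1 hr2
  have hn1 := nsumE_lower (ce a b M (RR Y)) x y
  have hn2 := nsumE_upper (t := RR Y) x y hE
  have hh1 : hh (ce a b M (RR Y)) * 2 ^ (a + b + M + 2 * RR Y + 8) ≤ 1 :=
    hh_small (a + b + M + 2 * RR Y + 8)
  have hh0 := hh_pos (ce a b M (RR Y))
  generalize hh (ce a b M (RR Y)) = h at hup hh1 hh0
  generalize isum hM rl rr (ce a b M (RR Y)) = I at hlo hup hI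
  generalize nsumE (ce a b M (RR Y)) x y = n at hI hn1 hn2
  generalize (∑ σ : TB κ Y → Bool, lprod (tpt hM rl rr) (tdr hM rl) (ce a b M (RR Y)) σ) = S
    at hlo hup ⊢
  generalize hEg : cnt (fun i j => ∃ e, x e = i ∧ y e = j) = E at hE hn1 hn2 ⊢
  have hE1 : (1 : ℚ) ≤ E := by exact_mod_cast hE
  have hB0 : (0 : ℚ) < 2 ^ ((Y + 7) * 2 ^ κ) := by positivity
  have hA0 : (0 : ℚ) < 2 ^ (a + b + 3 * M) := by positivity
  have hn0 : 0 < n := by linarith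
  constructor
  · refine hn1.trans ?_
    rw [le_div_iff₀ hB0]
    have e1 : n * 2 ^ ((Y + 7) * 2 ^ κ) = 2 ^ ((Y + 1) * 2 ^ κ) * (2 ^ (6 * 2 ^ κ) * n) := by
      have : (2 : ℚ) ^ ((Y + 7) * 2 ^ κ) = 2 ^ ((Y + 1) * 2 ^ κ) * 2 ^ (6 * 2 ^ κ) := by
        rw [← pow_add]
        congr 1
        ring
      rw [this]
      ring
    rw [e1, ← hI, ← mul_assoc]
    exact mul_le_mul_of_nonneg_right hlo hA0.le
  · -- the upper bound
    have hT : RR Y = 2 * Y + 22 := by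
      show 1 + (3 * 7 + Y * 2) = _
      ring
    set K : ℕ := 2 ^ κ with hK
    have hK1 : (1 : ℚ) ≤ K := by
      rw [hK]
      push_cast
      exact one_le_pow₀ (by norm_num)
    set ε : ℚ := 1 / (2 * (t : ℚ) + 1) with hε
    have ht0 : (0 : ℚ) ≤ t := by positivity
    have hε0 : 0 < ε := by positivity
    have hε1 : ε ≤ 1 := by
      rw [hε, div_le_one (by positivity)]
      linarith
    have ht2 : (2 * (t : ℚ) + 1) ≤ 2 ^ (2 * t) := by
      have : 2 * t + 1 ≤ 2 ^ (2 * t) := Nat.lt_two_pow_self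
      exact_mod_cast this
    set q : ℚ := 2 ^ 7 / 2 ^ Y with hq
    have hq0 : 0 < q := by positivity
    have b1 : 2 * (K : ℚ) * q ≤ ε / 16 := by
      rw [hq, hε, div_div, ← mul_div_assoc, div_le_div_iff₀ (by positivity) (by positivity)]
      have h1 : (2 : ℚ) ^ (κ + 2 * t + 20) ≤ 2 ^ Y := pow_le_pow_right₀ (by norm_num) hY
      have h2 : (2 : ℚ) ^ (κ + 2 * t + 20) = K * 2 ^ (2 * t) * 2 ^ 20 := by
        rw [hK, pow_add, pow_add]
        push_cast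
        ring
      have h3 : 2 * (K : ℚ) * 2 ^ 7 * ((2 * (t : ℚ) + 1) * 16) ≤
          2 * (K : ℚ) * 2 ^ 7 * (2 ^ (2 * t) * 16) := by gcongr
      have h4 : 2 * (K : ℚ) * 2 ^ 7 * ((2 : ℚ) ^ (2 * t) * 16) ≤
          (K : ℚ) * 2 ^ (2 * t) * 2 ^ 20 := by
        have : (0 : ℚ) ≤ (K : ℚ) * 2 ^ (2 * t) := by positivity
        nlinarith
      rw [one_mul]
      exact h3.trans (h4.trans (by rw [← h2]; exact h1))
    have b2 : 2 * (((Y + 7) * K : ℕ) : ℚ) * (3 * h) ≤ ε / 16 := by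
      have h1 : h ≤ 1 / 2 ^ (a + b + M + 2 * RR Y + 8) := by
        rw [le_div_iff₀ (by positivity)]
        exact hh1
      have h2 : (1 : ℚ) / 2 ^ (a + b + M + 2 * RR Y + 8) ≤ 1 / 2 ^ (4 * Y + 52) := by
        refine one_div_le_one_div_of_le (by positivity)
          (pow_le_pow_right₀ (by norm_num) ?_)
        rw [hT]
        omega
      have h3 : h ≤ 1 / 2 ^ (4 * Y + 52) := h1.trans h2
      have h4 : ((Y + 7 : ℕ) : ℚ) ≤ 2 ^ (Y + 7) := by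
        have : Y + 7 ≤ 2 ^ (Y + 7) := Nat.lt_two_pow_self.le
        exact_mod_cast this
      have h5 : (K : ℚ) ≤ 2 ^ Y := by
        rw [hK]
        push_cast
        exact pow_le_pow_right₀ (by norm_num) (by omega)
      have h6 : (2 * (t : ℚ) + 1) ≤ 2 ^ Y :=
        ht2.trans (pow_le_pow_right₀ (by norm_num) (by omega))
      rw [hε, div_div, le_div_iff₀ (by positivity)]
      calc 2 * (((Y + 7) * K : ℕ) : ℚ) * (3 * h) * ((2 * (t : ℚ) + 1) * 16)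
          = 96 * ((Y + 7 : ℕ) : ℚ) * K * (2 * (t : ℚ) + 1) * h := by
            push_cast
            ring
        _ ≤ 2 ^ 7 * 2 ^ (Y + 7) * 2 ^ Y * 2 ^ Y * (1 / 2 ^ (4 * Y + 52)) := by
            have : (96 : ℚ) ≤ 2 ^ 7 := by norm_num
            gcongr
        _ = 2 ^ (3 * Y + 14) / 2 ^ (4 * Y + 52) := by
            rw [mul_one_div]
            congr 1
            rw [← pow_add, ← pow_add, ← pow_add]
            congr 1
            ring
        _ ≤ 1 := by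
            rw [div_le_one (by positivity)]
            exact pow_le_pow_right₀ (by norm_num) (by omega)
    have b3 : 1 / (4 * (2 * ((RR Y : ℕ) : ℚ) + 1)) ≤ ε / 16 := by
      rw [hε, div_div]
      refine one_div_le_one_div_of_le (by positivity) ?_
      rw [hT]
      have : (2 * t + 20 : ℕ) ≤ Y := by omega
      have h1 : 2 * (t : ℚ) + 20 ≤ Y := by exact_mod_cast this
      push_cast
      linarith
    have c1 : (1 + q) ^ K ≤ 1 + ε / 16 :=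
      (one_add_pow_le K hq0.le (by linarith)).trans (by linarith)
    have c2 : (1 + 3 * h) ^ ((Y + 7) * K) ≤ 1 + ε / 16 :=
      (one_add_pow_le ((Y + 7) * K) (by positivity) (by linarith)).trans (by linarith)
    have c3 : n ≤ E * (1 + ε / 16) := hn2.trans (by gcongr)
    have hP : ((2 ^ (Y + 1) + 2 ^ 8) * (1 + 3 * h) ^ (Y + 7)) ^ K * 2 ^ (6 * K) =
        2 ^ ((Y + 7) * K) * ((1 + q) ^ K * (1 + 3 * h) ^ ((Y + 7) * K)) := by
      have e1 : (2 : ℚ) ^ (Y + 1) + 2 ^ 8 = 2 ^ (Y + 1) * (1 + q) := by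
        rw [hq]
        have : (2 : ℚ) ^ Y ≠ 0 := by positivity
        field_simp
        ring
      have e2 : (2 : ℚ) ^ ((Y + 7) * K) = (2 ^ (Y + 1)) ^ K * 2 ^ (6 * K) := by
        rw [← pow_mul, ← pow_add]
        congr 1
        ring
      rw [e1, e2, mul_pow, mul_pow, pow_mul (1 + 3 * h)]
      ring
    rw [div_le_iff₀ hB0]
    have d1 : S * 2 ^ (a + b + 3 * M) ≤
        ((2 ^ (Y + 1) + 2 ^ 8) * (1 + 3 * h) ^ (Y + 7)) ^ K * (I * 2 ^ (a + b + 3 * M)) := by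
      rw [← mul_assoc]
      exact mul_le_mul_of_nonneg_right hup hA0.le
    rw [hI, ← mul_assoc, hP] at d1
    refine d1.trans ?_
    have hε16 : 0 ≤ 1 + ε / 16 := by positivity
    calc 2 ^ ((Y + 7) * K) * ((1 + q) ^ K * (1 + 3 * h) ^ ((Y + 7) * K)) * n
        ≤ 2 ^ ((Y + 7) * K) * ((1 + ε / 16) * (1 + ε / 16)) * (E * (1 + ε / 16)) := by
          gcongr
      _ = 2 ^ ((Y + 7) * K) * E * (1 + ε / 16) ^ 3 := by ring
      _ ≤ 2 ^ ((Y + 7) * K) * E * (1 + ε / 4) := by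
          refine mul_le_mul_of_nonneg_left ?_ (by positivity)
          nlinarith [sq_nonneg ε, mul_pos hε0 hε0]
      _ = E * (1 + 1 / (4 * (2 * (t : ℚ) + 1))) * 2 ^ ((Y + 7) * K) := by
          have : 1 / (4 * (2 * (t : ℚ) + 1)) = ε / 4 := by
            rw [hε]
            field_simp
          rw [this]
          ring

theorem tfinal {a b κ Y M t f : ℕ} (hM : M + 1 ≤ 2 ^ κ) (x : Fin M → Fin a) (y : Fin M → Fin b)
    (rl rr : Fin M → Fin M) (hl1 : ∀ e, x (rl e) = x e)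
    (hl2 : ∀ e e', x e = x e' → rl e = rl e') (hr1 : ∀ e, y (rr e) = y e)
    (hr2 : ∀ e e', y e = y e' → rr e = rr e')
    (hE : 1 ≤ cnt (fun i j => ∃ e, x e = i ∧ y e = j)) (hY : κ + 2 * t + 20 ≤ Y)
    (hf : 2 ^ κ * RR Y * 2 ^ (LL κ Y M * (ce a b M (RR Y) + 1)) * (4 * (2 * t + 1)) ≤ 2 ^ f)
    (hab : a + b + 3 * M ≤ 2 ^ κ * RR Y * (LL κ Y M * (ce a b M (RR Y) + 1) + f) +
      (Y + 7) * 2 ^ κ) :
    |(cnt (XRel (tpt (Y := Y) hM rl rr) (tdr hM rl) (ce a b M (RR Y)) f) : ℚ) /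
        2 ^ (2 ^ κ * RR Y * (LL κ Y M * (ce a b M (RR Y) + 1) + f) + (Y + 7) * 2 ^ κ -
          (a + b + 3 * M)) - cnt (fun i j => ∃ e, x e = i ∧ y e = j)| ≤
      cnt (fun i j => ∃ e, x e = i ∧ y e = j) / (2 * t + 1) := by
  obtain ⟨hn1, hn2⟩ := tnum (κ := κ) (Y := Y) hM x y rl rr hl1 hl2 hr1 hr2 hE hY
  have hp := tpair (Y := Y) hM rl rr
  have hlo := lower_x (c := ce a b M (RR Y)) (f := f) hp
  have hup := upper_x (c := ce a b M (RR Y)) (f := f) hp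
  have hx := xpure_eq (c := ce a b M (RR Y)) (f := f) hp
  rw [card_TB] at hlo hup hx
  rw [card_TL] at hup hx
  generalize (∑ σ : TB κ Y → Bool, lprod (tpt hM rl rr) (tdr hM rl) (ce a b M (RR Y)) σ) = S
    at hn1 hn2 hx
  have hBS : (2 : ℚ) ^ (2 ^ κ * RR Y * (LL κ Y M * (ce a b M (RR Y) + 1) + f) +
      (Y + 7) * 2 ^ κ - (a + b + 3 * M)) *
      (S * 2 ^ (a + b + 3 * M) / 2 ^ ((Y + 7) * 2 ^ κ)) =
      xpure (tpt (Y := Y) hM rl rr) (tdr hM rl) (ce a b M (RR Y)) f := by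
    rw [hx, ← mul_div_assoc, div_eq_iff (by positivity)]
    have e1 : (2 : ℚ) ^ (2 ^ κ * RR Y * (LL κ Y M * (ce a b M (RR Y) + 1) + f)) *
        2 ^ ((Y + 7) * 2 ^ κ) =
        2 ^ (2 ^ κ * RR Y * (LL κ Y M * (ce a b M (RR Y) + 1) + f) +
          (Y + 7) * 2 ^ κ - (a + b + 3 * M)) * 2 ^ (a + b + 3 * M) := by
      rw [← pow_add, ← pow_add]
      congr 1
      omega
    linear_combination (-S) * e1
  refine num_final (F := 2 ^ f) (W := 2 ^ (LL κ Y M * (ce a b M (RR Y) + 1)))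
    (N := ((2 ^ κ * RR Y : ℕ) : ℚ)) (S := S * 2 ^ (a + b + 3 * M) / 2 ^ ((Y + 7) * 2 ^ κ))
    (by positivity) (by positivity) (by positivity)
    (by exact_mod_cast hE) (one_le_pow₀ (by norm_num)) (by positivity) ?_ ?_ ?_
    (by exact_mod_cast hf) hn1 hn2
  · have : (0 : ℚ) ≤ t := by positivity
    linarith
  · rw [hBS]
    exact_mod_cast hlo
  · rw [hBS]
    exact_mod_cast hup

end Pool.Agent.Lib.Pa7c826s
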