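import Pool.Agent.Lib.Pa7c826s.XDef

/-!
The sizes.

Put `L = Lx a b m t`, so that `a + b + m + 2 t + 30 < 2 ^ L` and `5 ≤ L`; `C = Cq q = 2 q + 12`,
`K = Kq q = 2 C + 14`, `ρ = rx q L = 2 L + C`, `κ = kx p q L = K L (q - p) - 1 - ρ`
(no truncation: `K L ≥ 1 + ρ + L`), `RR Y = 2 ^ ρ`.
`size3`: `κ + 2 t + 20 + 11 ≤ K q L + 2 ^ L + 1 ≤ 2 ^ (2 L + C - 1)`, because
`K q + 2 ≤ 2 ^ (C - 1)`.
`size4`, `size5`, `size6`: `LL ≤ 7 * 2 ^ ρ`, `cx + 1 ≤ 10 * 2 ^ ρ`, so `slx ≤ 70 * 4 ^ ρ`, and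
`Dx ≥ 2 ^ (K L) ≥ 2 ^ 10 * 4 ^ ρ` (because `K L ≥ 2 ρ + 10`).
-/

namespace Pool.Agent.Lib.Pa7c826s

open Pool.Agent.Lib.Pa7c826 Pool.Agent.Lib.Pa7c826t

namespace TSizeAux

theorem base_lt (a b m t : ℕ) : a + b + m + 2 * t + 30 < 2 ^ Lx a b m t := by
  unfold Lx
  exact Nat.lt_pow_succ_log_self (by norm_num) _

theorem L_ge (a b m t : ℕ) : 5 ≤ Lx a b m t := by
  by_contra h
  have h1 := base_lt a b m t
  have h2 : 2 ^ Lx a b m t ≤ 2 ^ 4 := Nat.pow_le_pow_right (by norm_num) (by omega)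
  omega

theorem KL_ge (q : ℕ) {L : ℕ} (hL : 5 ≤ L) : 2 * rx q L + 10 ≤ Kq q * L ∧
    1 + rx q L + L ≤ Kq q * L := by
  unfold rx Kq
  obtain ⟨k, rfl⟩ : ∃ k, L = k + 5 := ⟨L - 5, by omega⟩
  constructor <;> nlinarith [Nat.zero_le (Cq q * k)]

theorem KLq_ge {p q : ℕ} (hpq : p < q) (L : ℕ) : Kq q * L ≤ Kq q * L * (q - p) :=
  Nat.le_mul_of_pos_right _ (by omega)

theorem kx_add {p q : ℕ} (hpq : p < q) {L : ℕ} (hL : 5 ≤ L) :
    1 + kx p q L + rx q L = Kq q * L * (q - p) := by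
  have h1 := (KL_ge q hL).2
  have h2 := KLq_ge hpq L
  unfold kx
  omega

theorem L_le_kx {p q : ℕ} (hpq : p < q) {L : ℕ} (hL : 5 ≤ L) : L ≤ kx p q L := by
  have h1 := (KL_ge q hL).2
  have h2 := KLq_ge hpq L
  have h3 := kx_add hpq hL
  omega

theorem rx_ge (q L : ℕ) : 12 ≤ rx q L := by
  unfold rx Cq
  omega

theorem two_Yx (q L : ℕ) : 2 * Yx q L + 22 = 2 ^ rx q L := by
  have h1 := rx_ge q L
  obtain ⟨k, hk⟩ : ∃ k, rx q L = k + 12 := ⟨rx q L - 12, by omega⟩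
  have h2 : 2 ^ rx q L = 2 * (2 ^ 11 * 2 ^ k) := by
    rw [hk, pow_add]
    ring
  have h3 : 1 ≤ 2 ^ k := Nat.one_le_two_pow
  unfold Yx
  omega

theorem two_pow_C (q : ℕ) (hq : 1 ≤ q) : Kq q * q + 1 ≤ 2 ^ (Cq q - 1) := by
  have e : 2 ^ (Cq q - 1) = 2048 * (2 ^ q * 2 ^ q) := by
    have : Cq q - 1 = 11 + (q + q) := by unfold Cq; omega
    rw [this, pow_add, pow_add]
    norm_num
  rw [e]
  have h1 : q ≤ 2 ^ q := Nat.lt_two_pow_self.le
  have h2 : q * q ≤ 2 ^ q * 2 ^ q := Nat.mul_le_mul h1 h1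
  have h3 : q ≤ q * q := Nat.le_mul_of_pos_right _ hq
  have h4 : Kq q * q = 4 * (q * q) + 38 * q := by
    unfold Kq Cq
    ring
  rw [h4]
  have h5 : 1 ≤ q * q := Nat.mul_pos hq hq
  omega

theorem key3 {p q : ℕ} (hp : 0 < p) (hpq : p < q) (a b m t : ℕ) :
    kx p q (Lx a b m t) + 2 * t + 31 ≤ 2 ^ (rx q (Lx a b m t) - 1) := by
  have hb := base_lt a b m t
  have hL := L_ge a b m t
  set L := Lx a b m t with hLd
  have h1 : kx p q L ≤ Kq q * L * q := by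
    have h2 := kx_add hpq hL
    have h3 : Kq q * L * (q - p) ≤ Kq q * L * q := Nat.mul_le_mul_left _ (Nat.sub_le _ _)
    omega
  have h4 : L ≤ 2 ^ L := Nat.lt_two_pow_self.le
  have h5 : Kq q * L * q ≤ Kq q * q * 2 ^ L := by
    calc Kq q * L * q = Kq q * q * L := by ring
      _ ≤ _ := Nat.mul_le_mul_left _ h4
  have h6 : kx p q L + 2 * t + 31 ≤ (Kq q * q + 1) * 2 ^ L := by
    rw [Nat.add_mul, one_mul]
    omega
  have h7 := two_pow_C q (by omega)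
  have h8 : 2 ^ (rx q L - 1) = 2 ^ (Cq q - 1) * (2 ^ L * 2 ^ L) := by
    have : rx q L - 1 = Cq q - 1 + (L + L) := by unfold rx Cq; omega
    rw [this, pow_add, pow_add]
  rw [h8]
  refine h6.trans (Nat.mul_le_mul h7 ?_)
  exact Nat.le_mul_of_pos_right _ (by positivity)

theorem two_rx (q L : ℕ) : 2 ^ rx q L = 2 * 2 ^ (rx q L - 1) := by
  have h := rx_ge q L
  obtain ⟨k, hk⟩ : ∃ k, rx q L = k + 1 := ⟨rx q L - 1, by omega⟩
  rw [hk, pow_succ, Nat.add_sub_cancel]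
  ring

theorem L_pow_le (q L : ℕ) : 2 ^ L ≤ 2 ^ rx q L := by
  apply Nat.pow_le_pow_right (by norm_num)
  unfold rx
  omega

end TSizeAux

open TSizeAux

theorem size1 {p q : ℕ} (hp : 0 < p) (hpq : p < q) (a b m t : ℕ) :
    m + 1 ≤ 2 ^ kx p q (Lx a b m t) := by
  have h1 := base_lt a b m t
  have h2 := L_le_kx hpq (L_ge a b m t)
  have h3 : 2 ^ Lx a b m t ≤ 2 ^ kx p q (Lx a b m t) := Nat.pow_le_pow_right (by norm_num) h2
  omega

theorem size2 (q L : ℕ) : RR (Yx q L) = 2 ^ rx q L := by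
  have h := two_Yx q L
  show 1 + (3 * 7 + Yx q L * 2) = _
  omega

theorem size3 {p q : ℕ} (hp : 0 < p) (hpq : p < q) (a b m t : ℕ) :
    kx p q (Lx a b m t) + 2 * t + 20 ≤ Yx q (Lx a b m t) := by
  have h1 := key3 hp hpq a b m t
  have h2 := two_Yx q (Lx a b m t)
  have h3 := two_rx q (Lx a b m t)
  omega

namespace TSizeAux

theorem LL_le {p q : ℕ} (hp : 0 < p) (hpq : p < q) (a b m t : ℕ) :
    LL (kx p q (Lx a b m t)) (Yx q (Lx a b m t)) m ≤ 7 * 2 ^ rx q (Lx a b m t) := by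
  have h1 := key3 hp hpq a b m t
  have h3 := two_rx q (Lx a b m t)
  have h4 := base_lt a b m t
  have h5 := L_pow_le q (Lx a b m t)
  have h6 := size2 q (Lx a b m t)
  show kx p q (Lx a b m t) * 2 + (RR (Yx q (Lx a b m t)) + m * 5) ≤ _
  rw [h6]
  omega

theorem cx_le (q a b m t : ℕ) : cx q a b m t + 1 ≤ 9 * 2 ^ rx q (Lx a b m t) := by
  have h4 := base_lt a b m t
  have h5 := L_pow_le q (Lx a b m t)
  have h6 := size2 q (Lx a b m t)
  unfold cx ce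
  rw [h6]
  omega

theorem slx_le {p q : ℕ} (hp : 0 < p) (hpq : p < q) (a b m t : ℕ) :
    slx p q a b m t ≤ 63 * (2 ^ rx q (Lx a b m t) * 2 ^ rx q (Lx a b m t)) := by
  unfold slx
  refine (Nat.mul_le_mul (LL_le hp hpq a b m t) (cx_le q a b m t)).trans ?_
  apply le_of_eq
  ring

theorem Dx_ge {p q : ℕ} (hp : 0 < p) (a b m t : ℕ) :
    1024 * (2 ^ rx q (Lx a b m t) * 2 ^ rx q (Lx a b m t)) ≤ Dx p q a b m t := by
  have h1 := (KL_ge q (L_ge a b m t)).1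
  have h2 : Kq q * Lx a b m t ≤ Kq q * Lx a b m t * p := Nat.le_mul_of_pos_right _ hp
  have h3 : 2 ^ (2 * rx q (Lx a b m t) + 10) ≤ Dx p q a b m t :=
    Nat.pow_le_pow_right (by norm_num) (h1.trans h2)
  refine le_trans (le_of_eq ?_) h3
  rw [pow_add, two_mul, pow_add]
  norm_num
  ring

theorem rr_ge (q a b m t : ℕ) : 2 ^ rx q (Lx a b m t) ≤
    2 ^ rx q (Lx a b m t) * 2 ^ rx q (Lx a b m t) :=
  Nat.le_mul_of_pos_right _ (by positivity)

theorem one_le_rr (q a b m t : ℕ) : 31 ≤ 2 ^ rx q (Lx a b m t) := by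
  have h4 := base_lt a b m t
  have h5 := L_pow_le q (Lx a b m t)
  omega

end TSizeAux

theorem size4 {p q : ℕ} (hp : 0 < p) (hpq : p < q) (a b m t : ℕ) :
    slx p q a b m t + 2 * (cx q a b m t + 1) + 2 ≤ fx p q a b m t := by
  have h1 := slx_le hp hpq a b m t
  have h2 := cx_le q a b m t
  have h3 := Dx_ge (q := q) hp a b m t
  have h4 := rr_ge q a b m t
  have h5 := one_le_rr q a b m t
  unfold fx
  omega

theorem size5 {p q : ℕ} (hp : 0 < p) (hpq : p < q) (a b m t : ℕ) :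
    slx p q a b m t + fx p q a b m t = Dx p q a b m t := by
  have h1 := slx_le hp hpq a b m t
  have h3 := Dx_ge (q := q) hp a b m t
  unfold fx
  omega

theorem size6 {p q : ℕ} (hp : 0 < p) (hpq : p < q) (a b m t : ℕ) :
    2 ^ kx p q (Lx a b m t) * RR (Yx q (Lx a b m t)) * 2 ^ slx p q a b m t *
      (4 * (2 * t + 1)) ≤ 2 ^ fx p q a b m t := by
  have h1 := slx_le hp hpq a b m t
  have h3 := Dx_ge (q := q) hp a b m t
  have h4 := rr_ge q a b m t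
  have h5 := one_le_rr q a b m t
  have h6 := key3 hp hpq a b m t
  have h7 := two_rx q (Lx a b m t)
  have h8 := base_lt a b m t
  have h9 := L_pow_le q (Lx a b m t)
  have h10 : rx q (Lx a b m t) ≤ 2 ^ rx q (Lx a b m t) := Nat.lt_two_pow_self.le
  have h11 : Lx a b m t ≤ 2 ^ Lx a b m t := Nat.lt_two_pow_self.le
  rw [size2]
  calc 2 ^ kx p q (Lx a b m t) * 2 ^ rx q (Lx a b m t) * 2 ^ slx p q a b m t * (4 * (2 * t + 1))
      ≤ 2 ^ kx p q (Lx a b m t) * 2 ^ rx q (Lx a b m t) * 2 ^ slx p q a b m t *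
          (2 ^ 2 * 2 ^ Lx a b m t) := by
        apply Nat.mul_le_mul_left
        omega
    _ = 2 ^ (kx p q (Lx a b m t) + rx q (Lx a b m t) + slx p q a b m t + (2 + Lx a b m t)) := by
        rw [← pow_add, ← pow_add, ← pow_add, ← pow_add]
    _ ≤ 2 ^ fx p q a b m t := by
        apply Nat.pow_le_pow_right (by norm_num)
        unfold fx
        omega

/-- the number of vertices -/
theorem size7 {p q : ℕ} (hp : 0 < p) (hpq : p < q) (a b m t : ℕ) :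
    2 * (2 ^ kx p q (Lx a b m t) * RR (Yx q (Lx a b m t)) * Dx p q a b m t) =
      2 ^ (Kq q * Lx a b m t * q) := by
  have h1 := kx_add hpq (L_ge a b m t)
  rw [size2]
  unfold Dx
  have h2 : Kq q * Lx a b m t * q = 1 + kx p q (Lx a b m t) + rx q (Lx a b m t) +
      Kq q * Lx a b m t * p := by
    rw [h1, ← Nat.mul_add]
    congr 1
    omega
  rw [h2, pow_add, pow_add, pow_add, pow_one]
  ring

theorem size8 {p q : ℕ} (hp : 0 < p) (hpq : p < q) (a b m t : ℕ) :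
    a + b + 3 * m ≤ 2 ^ kx p q (Lx a b m t) * RR (Yx q (Lx a b m t)) *
      (slx p q a b m t + fx p q a b m t) +
      (Yx q (Lx a b m t) + 7) * 2 ^ kx p q (Lx a b m t) := by
  have h3 := Dx_ge (q := q) hp a b m t
  have h4 := rr_ge q a b m t
  have h8 := base_lt a b m t
  have h9 := L_pow_le q (Lx a b m t)
  rw [size5 hp hpq, size2]
  have h10 : Dx p q a b m t ≤ 2 ^ kx p q (Lx a b m t) * 2 ^ rx q (Lx a b m t) *
      Dx p q a b m t := Nat.le_mul_of_pos_left _ (by positivity)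
  have h11 := Nat.zero_le ((Yx q (Lx a b m t) + 7) * 2 ^ kx p q (Lx a b m t))
  omega

end Pool.Agent.Lib.Pa7c826s
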