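import Pool.Agent.Lib.Pa7c826s.XExpL

/-!
Expansion of sets of right vertices.

Let `D = |Λ| (c + 1) + f`, let `S` be a set of right vertices, `N` the set of its left neighbours,
`s x` the number of elements of `S` in the block `x`, `A` the set of the heavy blocks
(`D < 2 s x`) and `B` the set of the light blocks (`0 < s x`, `2 s x ≤ D`).

Neighbours of a left vertex `u = (x, .inl (l, j))`. If `pt l x = x` (or if `u = (x, .inr _)`):
exactly the right vertices of the block `x`. If `dr l x = true`, `y = pt l x ≠ x`: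
the right vertices of the block `x` but `(x, .inl (l, j))`, and `(y, .inl (l, j))`. If
`dr l x = false`, `y = pt l x ≠ x`: for `j ≠ 0` exactly the right vertices of the block `x`; for
`j = 0` the right vertices of the block `x` but all `(x, .inl (l, j'))`, and all
`(y, .inl (l, j'))`.

Proof of `gain_right`. Let `n x` be the number of elements of `N` in the block `x`.
(a) Let `0 < s x`. Then `n x ≥ D - 1` if `s x = 1`: at most one left vertex of the block `x` is
missing for every single right vertex (for `v = (x, .inl (l, j))` the vertex `(x, .inl (l, j))` or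
`(x, .inl (l, 0))`); so `n x ≥ D - 1` whenever `s x ≥ 1`. If `s x > c + 1` then `n x = D`
(`(x, .inl (l, 0))` misses at most `c + 1` right vertices of the block). Heavy blocks have
`s x > c + 1` by `hf`. For light blocks `n x - s x ≥ D / 2 - 1 ≥ |Λ| (c + 1) + 1`.
(b) Let `x` be heavy, `y = pt l x ≠ x` with `s y = 0`, and let `miss` be the number of `j` with
`(x, .inl (l, j)) ∉ S`, `gain` the number of `j` with `(y, .inl (l, j)) ∈ N`. If
`dr l x = false` then `dr l y = true`, `(y, .inl (l, j))` is adjacent to `(x, .inl (l, j))` for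
every `j`, and `gain + miss ≥ c + 1`. If `dr l x = true` then `dr l y = false` and
`(y, .inl (l, 0))` is adjacent to all `(x, .inl (l, j))`, so `gain ≥ 1` or `miss = c + 1`. In both
cases `gain + miss ≥ wR dr c l x`.
(c) `D - s x ≥ ∑ l, miss` for heavy `x`; `n y ≥ ∑ l, gain` for empty `y`; the cut links from heavy
to light blocks number at most `|Λ|` per light block, weight at most `c + 1` each. Sum up.
-/

namespace Pool.Agent.Lib.Pa7c826s

open Pool.Agent.Lib.Pa7c826 Pool.Agent.Lib.Pa7c826t

variable {Λ Blk : Type} [Fintype Λ] [Fintype Blk] [DecidableEq Blk] {pt : Λ → Blk → Blk}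
  {dr : Λ → Blk → Bool} {c f : ℕ}

namespace XExpRAux

open XExpLAux

theorem cnt_full {S N : Finset (Vx Λ Blk c f)}
    (hN : ∀ u, u ∈ N ↔ ∃ v ∈ S, XRel pt dr c f u v) {x : Blk} (h : c + 2 ≤ XExpLAux.cnt S x) :
    XExpLAux.cnt N x = Fintype.card Λ * (c + 1) + f := by
  classical
  have hall : ∀ t, (x, t) ∈ N := by
    intro t
    by_contra hcon
    have hno : ∀ t', (x, t') ∈ S → ∃ g, t' = Sum.inl g ∧ ∃ j, t = Sum.inl (g.1, j) := by
      intro t' ht'
      by_contra hne
      apply hcon
      rw [hN]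
      refine ⟨_, ht', adj_other ?_⟩
      intro g hg j hj
      exact hne ⟨g, hg, j, hj⟩
    have hex : ∃ l : Λ, ∀ t', (x, t') ∈ S → ∃ j, t' = Sum.inl (l, j) := by
      have hpos : 0 < XExpLAux.cnt S x := by omega
      rw [← card_block] at hpos
      obtain ⟨v, hv⟩ := Finset.card_pos.mp hpos
      obtain ⟨h1, h2⟩ := Finset.mem_filter.mp hv
      have h3 : (x, v.2) ∈ S := by
        rw [← h2]
        exact h1
      obtain ⟨g, _, j, hj⟩ := hno v.2 h3
      refine ⟨g.1, fun t' ht' => ?_⟩
      obtain ⟨g', hg', j', hj'⟩ := hno t' ht'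
      rw [hj] at hj'
      have h5 : (g.1, j) = (g'.1, j') := Sum.inl_injective hj'
      have h6 : g.1 = g'.1 := (Prod.mk.inj h5).1
      refine ⟨g'.2, ?_⟩
      rw [hg', h6]
    obtain ⟨l, hl⟩ := hex
    have h4 : ∑ t' : Slt Λ c f, (if (∃ j, t' = Sum.inl (l, j)) then 1 else 0) = c + 1 := by
      rw [Fintype.sum_sum_type, Fintype.sum_prod_type]
      have e2 : ∀ l' : Λ, (∑ j : Fin (c + 1),
          if (∃ j', (Sum.inl (l', j) : Slt Λ c f) = Sum.inl (l, j')) then 1 else 0) =
          if l' = l then c + 1 else 0 := by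
        intro l'
        by_cases hl : l' = l
        · rw [if_pos hl, hl]
          rw [Finset.sum_congr rfl fun j _ => if_pos ⟨j, rfl⟩]
          simp
        · rw [if_neg hl]
          refine Finset.sum_eq_zero fun j _ => if_neg ?_
          rintro ⟨j', hj'⟩
          exact hl (congrArg Prod.fst (Sum.inl_injective hj'))
      rw [Finset.sum_congr rfl fun l _ => e2 l]
      have e3 : ∑ j : Fin f, (if (∃ j', (Sum.inr j : Slt Λ c f) = Sum.inl (l, j')) then 1 else 0)
          = 0 := by
        refine Finset.sum_eq_zero fun j _ => if_neg ?_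
        rintro ⟨j', hj'⟩
        exact Sum.inr_ne_inl hj'
      rw [e3]
      simp
    have h5 : XExpLAux.cnt S x ≤ c + 1 := by
      rw [← h4]
      unfold XExpLAux.cnt
      refine Finset.sum_le_sum fun t' _ => ?_
      by_cases ht' : (x, t') ∈ S
      · rw [if_pos ht', if_pos (hl t' ht')]
      · rw [if_neg ht']
        exact Nat.zero_le _
    omega
  unfold XExpLAux.cnt
  rw [Finset.sum_congr rfl fun t _ => if_pos (hall t)]
  rw [Finset.sum_const, Finset.card_univ, card_slt, smul_eq_mul, mul_one]

theorem cnt_one {S N : Finset (Vx Λ Blk c f)}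
    (hN : ∀ u, u ∈ N ↔ ∃ v ∈ S, XRel pt dr c f u v) {x : Blk} (h : 1 ≤ XExpLAux.cnt S x) :
    Fintype.card Λ * (c + 1) + f ≤ XExpLAux.cnt N x + 1 := by
  classical
  rw [← card_block] at h
  obtain ⟨v, hv⟩ := Finset.card_pos.mp h
  obtain ⟨h1, h2⟩ := Finset.mem_filter.mp hv
  obtain ⟨e, he⟩ := exists_excl (pt := pt) (dr := dr) v
  rw [h2] at he
  have h3 : ∀ t : Slt Λ c f, 1 ≤ (if (x, t) ∈ N then 1 else 0) + (if t = e then 1 else 0) := by
    intro t
    by_cases ht : t = e
    · rw [if_pos ht]
      omega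
    · have : (x, t) ∈ N := by
        rw [hN]
        exact ⟨v, h1, he t ht⟩
      rw [if_pos this]
      omega
  calc Fintype.card Λ * (c + 1) + f = ∑ _t : Slt Λ c f, 1 := by
        rw [Finset.sum_const, Finset.card_univ, card_slt, smul_eq_mul, mul_one]
    _ ≤ ∑ t : Slt Λ c f, ((if (x, t) ∈ N then 1 else 0) + (if t = e then 1 else 0)) :=
        Finset.sum_le_sum fun t _ => h3 t
    _ = XExpLAux.cnt N x + 1 := by
        rw [Finset.sum_add_distrib, Finset.sum_ite_eq' Finset.univ e fun _ => 1,
          if_pos (Finset.mem_univ _)]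
        rfl

/-- links to blocks without elements of `S` -/
theorem link_gain (hp : Pairing pt dr) {S N : Finset (Vx Λ Blk c f)}
    (hN : ∀ u, u ∈ N ↔ ∃ v ∈ S, XRel pt dr c f u v) (l : Λ) (x : Blk) (hx : pt l x ≠ x) :
    wR dr c l x ≤ miss S l x + gain N l (pt l x) := by
  classical
  unfold miss gain wR
  by_cases h2 : dr l x = true
  · rw [h2, cond_true]
    by_cases hj : ((x, Sum.inl (l, 0)) : Vx Λ Blk c f) ∈ S
    · have h3 : ((pt l x, Sum.inl (l, 0)) : Vx Λ Blk c f) ∈ N := by
        rw [hN]
        exact ⟨_, hj, Or.inr (Or.inl ⟨hx, h2, Or.inr ⟨rfl, rfl⟩⟩)⟩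
      have h4 : 1 ≤ ∑ j : Fin (c + 1),
          if ((pt l x, Sum.inl (l, j)) : Vx Λ Blk c f) ∈ N then 1 else 0 := by
        calc 1 = if ((pt l x, Sum.inl (l, 0)) : Vx Λ Blk c f) ∈ N then 1 else 0 := by
              rw [if_pos h3]
          _ ≤ _ := Finset.single_le_sum (f := fun j : Fin (c + 1) =>
              if ((pt l x, Sum.inl (l, j)) : Vx Λ Blk c f) ∈ N then 1 else 0)
              (fun _ _ => Nat.zero_le _) (Finset.mem_univ 0)
      omega
    · have h4 : 1 ≤ ∑ j : Fin (c + 1),
          if ((x, Sum.inl (l, j)) : Vx Λ Blk c f) ∈ S then 0 else 1 := by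
        calc 1 = if ((x, Sum.inl (l, 0)) : Vx Λ Blk c f) ∈ S then 0 else 1 := by
              rw [if_neg hj]
          _ ≤ _ := Finset.single_le_sum (f := fun j : Fin (c + 1) =>
              if ((x, Sum.inl (l, j)) : Vx Λ Blk c f) ∈ S then 0 else 1)
              (fun _ _ => Nat.zero_le _) (Finset.mem_univ 0)
      omega
  · rw [Bool.not_eq_true] at h2
    rw [h2, cond_false, ← Finset.sum_add_distrib]
    calc c + 1 = ∑ _j : Fin (c + 1), 1 := by simp
      _ ≤ _ := Finset.sum_le_sum fun j _ => ?_
    by_cases hj : ((x, Sum.inl (l, j)) : Vx Λ Blk c f) ∈ S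
    · have h3 : ((pt l x, Sum.inl (l, j)) : Vx Λ Blk c f) ∈ N := by
        rw [hN]
        exact ⟨_, hj, Or.inr (Or.inr ⟨hx, h2, Or.inr ⟨rfl, rfl⟩⟩)⟩
      rw [if_pos h3]
      omega
    · rw [if_neg hj]
      omega

end XExpRAux

open XExpLAux in
theorem gain_right (hp : Pairing pt dr) {D : ℕ} (hD : D = Fintype.card Λ * (c + 1) + f)
    (hf : Fintype.card Λ * (c + 1) + 2 * (c + 1) + 2 ≤ f) (S N : Finset (Vx Λ Blk c f))
    (hN : ∀ u, u ∈ N ↔ ∃ v ∈ S, XRel pt dr c f u v) (s : Blk → ℕ)
    (hs : ∀ x, s x = (S.filter fun v => v.1 = x).card) :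
    S.card + cutX pt (wR dr c) (Finset.univ.filter fun x => D < 2 * s x) +
      (Finset.univ.filter fun x => 0 < s x ∧ 2 * s x ≤ D).card ≤ N.card := by
  classical
  have hsc : ∀ x, s x = XExpLAux.cnt S x := fun x => by rw [hs, card_block]
  have hmul : 0 ≤ Fintype.card Λ * (c + 1) := Nat.zero_le _
  -- pointwise bound
  have hpt : ∀ x, s x + (if D < 2 * s x then ∑ l, miss S l x else 0) +
      (if s x = 0 then ∑ l, gain N l x else 0) +
      (if 0 < s x ∧ 2 * s x ≤ D then Fintype.card Λ * (c + 1) + 1 else 0) ≤ XExpLAux.cnt N x := by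
    intro x
    by_cases h1 : D < 2 * s x
    · have h2 : c + 2 ≤ XExpLAux.cnt S x := by rw [← hsc]; omega
      have h3 := XExpRAux.cnt_full hN h2
      have h4 := cnt_miss S x
      rw [if_pos h1, if_neg (by omega), if_neg (by omega), h3, hsc x]
      omega
    · rw [if_neg h1]
      by_cases h5 : s x = 0
      · rw [if_pos h5, if_neg (by omega), h5]
        have := cnt_eq N x
        omega
      · rw [if_neg h5, if_pos (by omega)]
        have h7 : 1 ≤ XExpLAux.cnt S x := by rw [← hsc]; omega
        have h8 := XExpRAux.cnt_one hN h7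
        omega
  -- cut links
  have hcut : ∀ l, (∑ x ∈ Finset.univ.filter fun x => D < 2 * s x,
      if pt l x ∈ Finset.univ.filter fun x => D < 2 * s x then 0 else wR dr c l x) ≤
      (∑ x, if D < 2 * s x then miss S l x else 0) +
      (∑ y, if s y = 0 then gain N l y else 0) +
      (∑ y, if 0 < s y ∧ 2 * s y ≤ D then c + 1 else 0) := by
    intro l
    have hinv : Function.Involutive (pt l) := hp.inv l
    have e1 : ∀ g : Blk → ℕ, ∑ y, g y = ∑ x, g (pt l x) := fun g =>
      (Equiv.sum_comp (hinv.toPerm (pt l)) g).symm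
    rw [e1 (fun y => if s y = 0 then gain N l y else 0),
      e1 (fun y => if 0 < s y ∧ 2 * s y ≤ D then c + 1 else 0), Finset.sum_filter,
      ← Finset.sum_add_distrib, ← Finset.sum_add_distrib]
    refine Finset.sum_le_sum fun x _ => ?_
    by_cases h1 : D < 2 * s x
    · rw [if_pos h1, if_pos h1]
      have hmem : pt l x ∈ Finset.univ.filter (fun x => D < 2 * s x) ↔ D < 2 * s (pt l x) := by
        simp
      by_cases h2 : D < 2 * s (pt l x)
      · rw [if_pos (hmem.mpr h2)]
        exact Nat.zero_le _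
      · rw [if_neg fun h => h2 (hmem.mp h)]
        have hne : pt l x ≠ x := by
          intro h
          rw [h] at h2
          exact h2 h1
        by_cases h3 : s (pt l x) = 0
        · rw [if_pos h3, if_neg (by omega)]
          have := XExpRAux.link_gain hp hN l x hne
          omega
        · rw [if_neg h3, if_pos (by omega)]
          have : wR dr c l x ≤ c + 1 := by
            unfold wR
            cases dr l x <;> simp
          omega
    · rw [if_neg h1, if_neg h1]
      exact Nat.zero_le _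
  have hN1 := card_eq N
  have hS1 : S.card = ∑ x, s x := by
    rw [card_eq S]
    exact Finset.sum_congr rfl fun x _ => (hsc x).symm
  have hsum := Finset.sum_le_sum fun x (_ : x ∈ Finset.univ) => hpt x
  rw [Finset.sum_add_distrib, Finset.sum_add_distrib, Finset.sum_add_distrib] at hsum
  have hcutx : cutX pt (wR dr c) (Finset.univ.filter fun x => D < 2 * s x) ≤
      (∑ x, if D < 2 * s x then ∑ l, miss S l x else 0) +
      (∑ x, if s x = 0 then ∑ l, gain N l x else 0) +
      (Finset.univ.filter fun x => 0 < s x ∧ 2 * s x ≤ D).card *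
        (Fintype.card Λ * (c + 1)) := by
    unfold cutX
    refine le_trans (Finset.sum_le_sum fun l _ => hcut l) ?_
    rw [Finset.sum_add_distrib, Finset.sum_add_distrib, Finset.sum_comm,
      Finset.sum_comm (f := fun l y => if s y = 0 then gain N l y else 0)]
    refine Nat.add_le_add (Nat.add_le_add (le_of_eq ?_) (le_of_eq ?_)) (le_of_eq ?_)
    · refine Finset.sum_congr rfl fun x _ => ?_
      split_ifs <;> simp
    · refine Finset.sum_congr rfl fun x _ => ?_
      split_ifs <;> simp
    · rw [Finset.sum_const, Finset.card_univ, smul_eq_mul, ← Finset.sum_filter,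
        Finset.sum_const, smul_eq_mul]
      ring
  have hB : ∑ x, (if 0 < s x ∧ 2 * s x ≤ D then Fintype.card Λ * (c + 1) + 1 else 0) =
      (Finset.univ.filter fun x => 0 < s x ∧ 2 * s x ≤ D).card *
        (Fintype.card Λ * (c + 1)) +
      (Finset.univ.filter fun x => 0 < s x ∧ 2 * s x ≤ D).card := by
    rw [← Finset.sum_filter, Finset.sum_const, smul_eq_mul]
    ring
  rw [hB] at hsum
  omega

/-- heavy blocks have all left vertices as neighbours -/
theorem full_right (hp : Pairing pt dr) {D : ℕ} (hD : D = Fintype.card Λ * (c + 1) + f)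
    (hf : Fintype.card Λ * (c + 1) + 2 * (c + 1) + 2 ≤ f) (S N : Finset (Vx Λ Blk c f))
    (hN : ∀ u, u ∈ N ↔ ∃ v ∈ S, XRel pt dr c f u v) (s : Blk → ℕ)
    (hs : ∀ x, s x = (S.filter fun v => v.1 = x).card) :
    D * (Finset.univ.filter fun x => D < 2 * s x).card ≤ N.card := by
  classical
  have hmul : 0 ≤ Fintype.card Λ * (c + 1) := Nat.zero_le _
  have hsc : ∀ x, s x = XExpLAux.cnt S x := fun x => by rw [hs, XExpLAux.card_block]
  rw [XExpLAux.card_eq N]
  calc D * (Finset.univ.filter fun x => D < 2 * s x).card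
      = ∑ x ∈ Finset.univ.filter (fun x => D < 2 * s x), D := by
        rw [Finset.sum_const, smul_eq_mul, mul_comm]
    _ ≤ ∑ x ∈ Finset.univ.filter (fun x => D < 2 * s x), XExpLAux.cnt N x := by
        refine Finset.sum_le_sum fun x hx => ?_
        have h1 := (Finset.mem_filter.mp hx).2
        have h2 : c + 2 ≤ XExpLAux.cnt S x := by rw [← hsc]; omega
        rw [XExpRAux.cnt_full hN h2, hD]
    _ ≤ ∑ x, XExpLAux.cnt N x :=
        Finset.sum_le_sum_of_subset (Finset.filter_subset _ _)

end Pool.Agent.Lib.Pa7c826s
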