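import Pool.Agent.Lib.Pa7c826s.XExpL
import Pool.Agent.Lib.Pa7c826s.XExpR

/-!
Expansion of the block graph.
-/

namespace Pool.Agent.Lib.Pa7c826s

open Pool.Agent.Lib.Pa7c826 Pool.Agent.Lib.Pa7c826t

/-- Proof: let `Δ = n - s`, so `Δ ≥ cut + b`. If `a ≤ nb - a` then `a + 3 b ≤ 3 Δ` and
`2 s ≤ 2 D (a + b) ≤ 6 D Δ`. Otherwise `nb - a ≤ 3 Δ`, `D a ≤ s + Δ` and
`2 s ≤ D (nb - a) + D a ≤ 3 D Δ + s + Δ`. -/
theorem exp_arith {D nb s n a b cut : ℕ} (h1 : s + cut + b ≤ n) (h2 : D * a ≤ n)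
    (h3 : 2 * s ≤ 2 * (D * a) + D * b) (h4 : 2 * s ≤ nb * D) (h5 : min a (nb - a) ≤ 3 * cut)
    (ha : a ≤ nb) : (4 * D + 1) * s ≤ 4 * D * n := by
  obtain ⟨Δ, rfl⟩ : ∃ Δ, n = s + Δ := ⟨n - s, by omega⟩
  have hΔ : cut + b ≤ Δ := by omega
  have e2 : D * (cut + b) ≤ D * Δ := Nat.mul_le_mul_left _ hΔ
  rw [Nat.mul_add] at e2
  have key : s ≤ 4 * (D * Δ) := by
    rcases le_total a (nb - a) with h | h
    · rw [min_eq_left h] at h5
      have e1 : D * a ≤ D * (3 * cut) := Nat.mul_le_mul_left _ h5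
      have e4 : D * (3 * cut) = 3 * (D * cut) := by ring
      omega
    · rw [min_eq_right h] at h5
      have e1 : D * (nb - a) ≤ D * (3 * cut) := Nat.mul_le_mul_left _ h5
      have e4 : D * (3 * cut) = 3 * (D * cut) := by ring
      have e3 : nb * D = D * (nb - a) + D * a := by
        rw [← Nat.mul_add, Nat.sub_add_cancel ha, mul_comm]
      rcases Nat.eq_zero_or_pos D with h0 | h0
      · subst h0
        simp only [mul_zero] at h4
        omega
      · have : Δ ≤ D * Δ := Nat.le_mul_of_pos_left _ h0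
        omega
  have e5 : (4 * D + 1) * s = 4 * D * s + s := by ring
  have e6 : 4 * D * (s + Δ) = 4 * D * s + 4 * (D * Δ) := by ring
  omega

variable {Λ Blk : Type} [Fintype Λ] [Fintype Blk] [DecidableEq Blk] {pt : Λ → Blk → Blk}
  {dr : Λ → Blk → Bool} {c f : ℕ}

theorem exp_aux {D : ℕ} (hD : D = Fintype.card Λ * (c + 1) + f) (S : Finset (Vx Λ Blk c f))
    (s : Blk → ℕ) (hs : ∀ x, s x = (S.filter fun u => u.1 = x).card) :
    2 * S.card ≤ 2 * (D * (Finset.univ.filter fun x => D < 2 * s x).card) +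
      D * (Finset.univ.filter fun x => 0 < s x ∧ 2 * s x ≤ D).card := by
  classical
  have h1 : S.card = ∑ x, s x := by
    rw [Finset.card_eq_sum_card_fiberwise (f := fun u : Vx Λ Blk c f => u.1) (t := Finset.univ)
      (fun _ _ => Finset.mem_univ _)]
    exact Finset.sum_congr rfl fun x _ => (hs x).symm
  have h2 : ∀ x, s x ≤ D := by
    intro x
    rw [hs]
    have h3 : (S.filter fun u => u.1 = x).card ≤ (Finset.univ : Finset (Slt Λ c f)).card := by
      refine Finset.card_le_card_of_injOn (fun u => u.2) (fun _ _ => Finset.mem_univ _) ?_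
      intro u hu v hv h
      have hu' := (Finset.mem_filter.1 (Finset.mem_coe.1 hu)).2
      have hv' := (Finset.mem_filter.1 (Finset.mem_coe.1 hv)).2
      exact Prod.ext (hu'.trans hv'.symm) h
    refine h3.trans (le_of_eq ?_)
    rw [Finset.card_univ, Fintype.card_sum, Fintype.card_prod, Fintype.card_fin, Fintype.card_fin,
      hD]
  rw [h1, Finset.mul_sum, Finset.card_filter, Finset.card_filter, Finset.mul_sum, Finset.mul_sum,
    Finset.mul_sum, ← Finset.sum_add_distrib]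
  refine Finset.sum_le_sum fun x _ => ?_
  have := h2 x
  split_ifs <;> omega

theorem exp_left (hp : Pairing pt dr) {D : ℕ} (hD : D = Fintype.card Λ * (c + 1) + f)
    (hf : Fintype.card Λ * (c + 1) + 2 * (c + 1) + 2 ≤ f)
    (hcut : ∀ A : Finset Blk, min A.card (Fintype.card Blk - A.card) ≤
      3 * cutX pt (wL dr c) A) (S N : Finset (Vx Λ Blk c f))
    (hN : ∀ v, v ∈ N ↔ ∃ u ∈ S, XRel pt dr c f u v) (hS : 2 * S.card ≤ Fintype.card Blk * D) :
    (4 * D + 1) * S.card ≤ 4 * D * N.card := by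
  obtain ⟨s, hs⟩ : ∃ s : Blk → ℕ, ∀ x, s x = (S.filter fun u => u.1 = x).card := ⟨_, fun _ => rfl⟩
  have h1 := gain_left hp hD hf S N hN s hs
  have h2 := full_left hp hD hf S N hN s hs
  have h3 := exp_aux hD S s hs
  have h5 := hcut (Finset.univ.filter fun x => D < 2 * s x)
  have h6 := Finset.card_le_univ (Finset.univ.filter fun x => D < 2 * s x)
  generalize (Finset.univ.filter fun x => D < 2 * s x) = A at *
  generalize (Finset.univ.filter fun x => 0 < s x ∧ 2 * s x ≤ D).card = b at *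
  exact exp_arith h1 h2 h3 hS h5 h6

theorem exp_right (hp : Pairing pt dr) {D : ℕ} (hD : D = Fintype.card Λ * (c + 1) + f)
    (hf : Fintype.card Λ * (c + 1) + 2 * (c + 1) + 2 ≤ f)
    (hcut : ∀ A : Finset Blk, min A.card (Fintype.card Blk - A.card) ≤
      3 * cutX pt (wR dr c) A) (S N : Finset (Vx Λ Blk c f))
    (hN : ∀ u, u ∈ N ↔ ∃ v ∈ S, XRel pt dr c f u v) (hS : 2 * S.card ≤ Fintype.card Blk * D) :
    (4 * D + 1) * S.card ≤ 4 * D * N.card := by
  obtain ⟨s, hs⟩ : ∃ s : Blk → ℕ, ∀ x, s x = (S.filter fun u => u.1 = x).card := ⟨_, fun _ => rfl⟩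
  have h1 := gain_right hp hD hf S N hN s hs
  have h2 := full_right hp hD hf S N hN s hs
  have h3 := exp_aux hD S s hs
  have h5 := hcut (Finset.univ.filter fun x => D < 2 * s x)
  have h6 := Finset.card_le_univ (Finset.univ.filter fun x => D < 2 * s x)
  generalize (Finset.univ.filter fun x => D < 2 * s x) = A at *
  generalize (Finset.univ.filter fun x => 0 < s x ∧ 2 * s x ≤ D).card = b at *
  exact exp_arith h1 h2 h3 hS h5 h6

end Pool.Agent.Lib.Pa7c826s
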