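import Pool.Agent.Lib.Pa7c826s.XDeg
import Pool.Agent.Lib.Pa7c826s.XExp
import Pool.Agent.Lib.Pa7c826s.XIso
import Pool.Agent.Lib.Pa7c826s.TCut
import Pool.Agent.Lib.Pa7c826s.TNum
import Pool.Agent.Lib.Pa7c826s.TIdx
import Pool.Agent.Lib.Pa7c826s.TSize
import Pool.Agent.Lib.Pa7c826s.TPolyA
import Pool.Agent.Lib.Pa7c826s.TPolyB
import Pool.Agent.Lib.Pa7c826t.FTransfer

/-!
The reduction to regular expanders.
-/

namespace Pool.Agent.Lib.Pa7c826s

open Pool.Agent.Lib.PolyTime Pool.Agent.Lib.Pa7c826 Pool.Agent.Lib.Pa7c826t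

/-- the abstract relation of the reduction -/
abbrev relS {p q : ℕ} (hp : 0 < p) (hpq : p < q) (G : BGraph) (t : ℕ) :=
  XRel (tpt (Y := Yx q (Lx G.a G.b (ecount G) t)) (size1 hp hpq G.a G.b (ecount G) t)
      (rlF G) (rrF G))
    (tdr (size1 hp hpq G.a G.b (ecount G) t) (rlF G)) (cx q G.a G.b (ecount G) t)
    (fx p q G.a G.b (ecount G) t)

/-- numbering of the vertices of one side -/
def eG (p q : ℕ) (G : BGraph) (t : ℕ) :
    Vx (TL (kx p q (Lx G.a G.b (ecount G) t)) (Yx q (Lx G.a G.b (ecount G) t)) (ecount G))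
      (TB (kx p q (Lx G.a G.b (ecount G) t)) (Yx q (Lx G.a G.b (ecount G) t)))
      (cx q G.a G.b (ecount G) t) (fx p q G.a G.b (ecount G) t) ≃
    Fin (2 ^ kx p q (Lx G.a G.b (ecount G) t) * RR (Yx q (Lx G.a G.b (ecount G) t)) *
      (slx p q G.a G.b (ecount G) t + fx p q G.a G.b (ecount G) t)) :=
  eTV (kx p q (Lx G.a G.b (ecount G) t)) (Yx q (Lx G.a G.b (ecount G) t)) (ecount G)
    (cx q G.a G.b (ecount G) t) (fx p q G.a G.b (ecount G) t)

theorem relS_iff {p q : ℕ} (hp : 0 < p) (hpq : p < q) (G : BGraph) (t : ℕ) (x y) :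
    relS hp hpq G t x y ↔
      F5 (kx p q (Lx G.a G.b (ecount G) t)) (Yx q (Lx G.a G.b (ecount G) t)) (ecount G)
        (cx q G.a G.b (ecount G) t + 1) (fx p q G.a G.b (ecount G) t)
        (repI (ecount G) (xI G)) (repI (ecount G) (yI G)) (eG p q G t x) (eG p q G t y) = true :=
  F5_iff _ _ _ (rlF G) (rrF G) (fun _ => rfl) (fun _ => rfl) x y

theorem numIndep_redS {p q : ℕ} (hp : 0 < p) (hpq : p < q) (G : BGraph) (t : ℕ) :
    numIndep (redS p q G t).graph = cnt (relS hp hpq G t) :=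
  numIndep_mkGraph (eG p q G t) (eG p q G t) (relS_iff hp hpq G t)

theorem redS_estimate {p q : ℕ} (hp : 0 < p) (hpq : p < q) (G : BGraph) (t : ℕ) :
    |(numIndep (redS p q G t).graph : ℚ) / 2 ^ KS p q G t - numIndep G.graph| ≤
      numIndep G.graph / (2 * t + 1) := by
  have h1 := tfinal (t := t) (size1 hp hpq G.a G.b (ecount G) t) (xF G) (yF G) (rlF G) (rrF G)
    (fun e => Fin.ext (repI_spec (xI G) e.2))
    (fun e e' h => Fin.ext (repI_congr (xI G) (Fin.ext_iff.1 h)))
    (fun e => Fin.ext (repI_spec (yI G) e.2))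
    (fun e e' h => Fin.ext (repI_congr (yI G) (Fin.ext_iff.1 h)))
    (by rw [cnt_edges]; exact one_le_numIndep G) (size3 hp hpq G.a G.b (ecount G) t)
    (size6 hp hpq G.a G.b (ecount G) t) (size8 hp hpq G.a G.b (ecount G) t)
  rw [cnt_edges] at h1
  rw [numIndep_redS hp hpq]
  exact h1

theorem card_side (p q : ℕ) (G : BGraph) (t : ℕ) :
    Fintype.card (TL (kx p q (Lx G.a G.b (ecount G) t)) (Yx q (Lx G.a G.b (ecount G) t))
      (ecount G)) * (cx q G.a G.b (ecount G) t + 1) + fx p q G.a G.b (ecount G) t =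
    slx p q G.a G.b (ecount G) t + fx p q G.a G.b (ecount G) t := by
  rw [card_TL]
  rfl

theorem redS_class {p q : ℕ} (hp : 0 < p) (hpq : p < q) (G : BGraph) (t : ℕ) :
    RegExpander p q (redS p q G t) := by
  have hD := size5 hp hpq G.a G.b (ecount G) t
  have hcard := card_side p q G t
  have hf : Fintype.card (TL (kx p q (Lx G.a G.b (ecount G) t))
      (Yx q (Lx G.a G.b (ecount G) t)) (ecount G)) * (cx q G.a G.b (ecount G) t + 1) +
      2 * (cx q G.a G.b (ecount G) t + 1) + 2 ≤ fx p q G.a G.b (ecount G) t := by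
    have h1 := size4 hp hpq G.a G.b (ecount G) t
    have h2 : Fintype.card (TL (kx p q (Lx G.a G.b (ecount G) t))
      (Yx q (Lx G.a G.b (ecount G) t)) (ecount G)) * (cx q G.a G.b (ecount G) t + 1) =
      slx p q G.a G.b (ecount G) t := by
      rw [card_TL]
      rfl
    omega
  have hRR : 1 + (3 * 7 + Yx q (Lx G.a G.b (ecount G) t) * 2) ≤
      cx q G.a G.b (ecount G) t + 2 := by
    have h0 : RR (Yx q (Lx G.a G.b (ecount G) t)) ≤ cx q G.a G.b (ecount G) t + 2 := by
      unfold cx ce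
      omega
    exact h0
  have hpair := tpair (Y := Yx q (Lx G.a G.b (ecount G) t)) (size1 hp hpq G.a G.b (ecount G) t)
    (rlF G) (rrF G)
  refine ⟨Dx p q G.a G.b (ecount G) t, ?_, ?_, ?_, ?_⟩
  · intro i
    obtain ⟨x, hx⟩ := (eG p q G t).surjective i
    have h1 := rowDeg_mkGraph (eG p q G t) (eG p q G t) (relS_iff hp hpq G t) x
    have h2 : (redS p q G t).rowDeg i = {y | relS hp hpq G t x y}.ncard := by
      rw [← hx]; exact h1
    rw [h2, ldeg_x hpair x, hcard, hD]
  · intro i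
    obtain ⟨x, hx⟩ := (eG p q G t).surjective i
    have h1 := colDeg_mkGraph (eG p q G t) (eG p q G t) (relS_iff hp hpq G t) x
    have h2 : (redS p q G t).colDeg i = {y | relS hp hpq G t y x}.ncard := by
      rw [← hx]; exact h1
    rw [h2, rdeg_x hpair x, hcard, hD]
  · show Dx p q G.a G.b (ecount G) t ^ q =
      (2 ^ kx p q (Lx G.a G.b (ecount G) t) * RR (Yx q (Lx G.a G.b (ecount G) t)) *
        (slx p q G.a G.b (ecount G) t + fx p q G.a G.b (ecount G) t) +
      2 ^ kx p q (Lx G.a G.b (ecount G) t) * RR (Yx q (Lx G.a G.b (ecount G) t)) *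
        (slx p q G.a G.b (ecount G) t + fx p q G.a G.b (ecount G) t)) ^ p
    rw [← two_mul, hD, size7 hp hpq]
    unfold Dx
    rw [← pow_mul, ← pow_mul]
    congr 1
    ring
  · rw [hD] at hcard
    have hn : 2 ^ kx p q (Lx G.a G.b (ecount G) t) * RR (Yx q (Lx G.a G.b (ecount G) t)) *
        (slx p q G.a G.b (ecount G) t + fx p q G.a G.b (ecount G) t) =
        Fintype.card (TB (kx p q (Lx G.a G.b (ecount G) t))
          (Yx q (Lx G.a G.b (ecount G) t))) * Dx p q G.a G.b (ecount G) t := by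
      rw [card_TB, hD]
    refine isExpander_mkGraph (eG p q G t) (relS_iff hp hpq G t) (by unfold Dx; positivity)
      (fun S N hN hS => ?_) (fun S N hN hS => ?_)
    · refine exp_left hpair hcard.symm hf (fun A => ?_) S N hN (by rw [← hn]; exact hS)
      refine tcut _ _ _ _ ?_ ?_ A
      · intro l x
        unfold wL
        cases tdr (size1 hp hpq G.a G.b (ecount G) t) (rlF G) l x <;> simp
      · intro i τ
        unfold wL tdr
        rcases Nat.mod_two_eq_zero_or_one ((τ : ℕ) / 2 ^ (i : ℕ)) with h0 | h0 <;>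
          simp [h0] <;> omega
    · refine exp_right hpair hcard.symm hf (fun A => ?_) S N hN (by rw [← hn]; exact hS)
      refine tcut _ _ _ _ ?_ ?_ A
      · intro l x
        unfold wR
        cases tdr (size1 hp hpq G.a G.b (ecount G) t) (rlF G) l x <;> simp
      · intro i τ
        unfold wR tdr
        rcases Nat.mod_two_eq_zero_or_one ((τ : ℕ) / 2 ^ (i : ℕ)) with h0 | h0 <;>
          simp [h0] <;> omega

section

variable {α : Type} {D : α → Prop} {ctx : List (α → List Bool)} {a b m t : α → ℕ}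

theorem poly_sideS (p q : ℕ) (ha : PolyN D ctx a) (hb : PolyN D ctx b) (hm : PolyN D ctx m)
    (ht : PolyN D ctx t) : PolyN D ctx (fun x => 2 ^ kx p q (Lx (a x) (b x) (m x) (t x)) *
      RR (Yx q (Lx (a x) (b x) (m x) (t x))) *
      (slx p q (a x) (b x) (m x) (t x) + fx p q (a x) (b x) (m x) (t x))) :=
  ((poly_two_kx p q ha hb hm ht).mul ((PolyN.const 1).add ((PolyN.const (3 * 7)).add
    ((poly_Yx q ha hb hm ht).mul (PolyN.const 2))))).mul
    ((poly_slx p q ha hb hm ht).add (poly_fx p q ha hb hm ht))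

end

theorem poly_redS (p q : ℕ) (D : BGraph × ℕ → Prop) :
    PolyC D [fun x => inCode x.1 x.2] (fun x => inCode (redS p q x.1 x.2) (2 * x.2)) := by
  have hw : PolyC D [fun x => inCode x.1 x.2] (fun x => inCode x.1 x.2) := PolyC.var (by simp)
  have ha := poly_a hw
  have hb := poly_b hw
  have hm := Pool.Agent.Lib.Pa7c826t.poly_ecount hw
  have ht := poly_s hw
  have hn := poly_sideS p q ha hb hm ht
  refine poly_inCode hn hn ((PolyN.const 2).mul ht) ?_
  let n1 : BGraph × ℕ → ℕ := fun x => 2 ^ kx p q (Lx x.1.a x.1.b (ecount x.1) x.2) *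
      RR (Yx q (Lx x.1.a x.1.b (ecount x.1) x.2)) *
      (slx p q x.1.a x.1.b (ecount x.1) x.2 + fx p q x.1.a x.1.b (ecount x.1) x.2)
  have W2 := up (n := fun y : (BGraph × ℕ) × ℕ => n1 y.1) (up (n := n1) hw)
  have I2 := upN (n := fun y : (BGraph × ℕ) × ℕ => n1 y.1)
    (last (D := D) (ctx := [fun x => inCode x.1 x.2]) (n := n1))
  have J2 := last (D := fun y : (BGraph × ℕ) × ℕ => D y.1 ∧ y.2 < n1 y.1)
    (ctx := PolyTime.lift [fun x : BGraph × ℕ => inCode x.1 x.2] ++
      [fun p : (BGraph × ℕ) × ℕ => un p.2]) (n := fun y : (BGraph × ℕ) × ℕ => n1 y.1)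
  have a2 := poly_a W2
  have b2 := poly_b W2
  have m2 := Pool.Agent.Lib.Pa7c826t.poly_ecount W2
  have t2 := poly_s W2
  exact poly_F5 W2 (poly_kx p q a2 b2 m2 t2) (poly_two_kx p q a2 b2 m2 t2)
    (poly_Yx q a2 b2 m2 t2) ((poly_cx q a2 b2 m2 t2).add (PolyN.const 1))
    (poly_fx p q a2 b2 m2 t2) I2 J2

theorem poly_KS (p q : ℕ) (D : BGraph × ℕ → Prop) :
    PolyN D [fun x => inCode x.1 x.2] (fun x => KS p q x.1 x.2) := by
  have hw : PolyC D [fun x => inCode x.1 x.2] (fun x => inCode x.1 x.2) := PolyC.var (by simp)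
  have ha := poly_a hw
  have hb := poly_b hw
  have hm := Pool.Agent.Lib.Pa7c826t.poly_ecount hw
  have ht := poly_s hw
  exact PolyN.sub ((poly_sideS p q ha hb hm ht).add (((poly_Yx q ha hb hm ht).add
    (PolyN.const 7)).mul (poly_two_kx p q ha hb hm ht)))
    ((ha.add hb).add ((PolyN.const 3).mul hm))

theorem regExpander_iff {p q : ℕ} (hp : 0 < p) (hpq : p < q) :
    (HasFPRAS (RegExpander p q) ↔ HasFPRAS (fun _ => True)) ∧
    (HasFPTAS (RegExpander p q) ↔ HasFPTAS (fun _ => True)) := by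
  refine ⟨⟨fun h => ?_, HasFPRAS.mono (fun _ _ => trivial)⟩,
    fun h => ?_, HasFPTAS.mono (fun _ _ => trivial)⟩
  · exact HasFPRAS.transfer2 (redS p q) (KS p q) (poly_redS p q _) (poly_KS p q _)
      (fun G t _ _ => redS_class hp hpq G t) (fun G t _ _ => redS_estimate hp hpq G t) h
  · exact HasFPTAS.transfer2 (redS p q) (KS p q) (poly_redS p q _) (poly_KS p q _)
      (fun G t _ _ => redS_class hp hpq G t) (fun G t _ _ => redS_estimate hp hpq G t) h

end Pool.Agent.Lib.Pa7c826s
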