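import Pool.Agent.Lib.Pa7c826s.TFac

/-!
The sum over the states of all blocks of the tile system, split into the states `w` of the hubs and
the states `s` of the blocks `(τ, (0, k))`, `k < 6`; the sum over the states of the other blocks of
a tile (the block `(0, 6)`, the blocks `(1, k)`, `(2, k)`, `k < 7`, and the chains) gives
`tileW c Y (w τ) (s (τ, ·))`.

Hint: `Finset.prod_univ_sum` / `Fintype.piFinset_univ` as in `esum_blocks`
(Lib/Pa7c826t/ESum.lean). A state of a tile `Role Y → Bool` is equivalent to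
`Bool × (Fin 3 → Fin 7 → Bool) × (Fin Y → Fin 2 → Bool)`; the product over the roles is
`(∏ k, nw (p k) w * nw (p k) (q k) * nw (q k) (r k)) * ∏ y, nw (y0) w * nw (y1) (y0)`, where `p, q,
r : Fin 7 → Bool` are the states of the blocks `(0, k), (1, k), (2, k)`.
-/

namespace Pool.Agent.Lib.Pa7c826s

open Pool.Agent.Lib.Pa7c826 Pool.Agent.Lib.Pa7c826t

namespace TSplitAux

/-- The states of the blocks of a tile that are summed out: the block `(0, 6)`, the blocks
`(1, k)`, `(2, k)`, and the chains. -/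
abbrev Rst (Y : ℕ) : Type := Bool × ((Fin 7 → Bool × Bool) × (Fin Y → Bool × Bool))

/-- the state of a role of a tile -/
def roleSt {Y : ℕ} (w : Bool) (s : Fin 6 → Bool) (ρ : Rst Y) : Role Y → Bool
  | .inl _ => w
  | .inr (.inl (j, k)) =>
    match j with
    | 0 => Fin.lastCases (motive := fun _ => Bool) ρ.1 s k
    | 1 => (ρ.2.1 k).1
    | 2 => (ρ.2.1 k).2
  | .inr (.inr (y, b)) =>
    match b with
    | 0 => (ρ.2.2 y).1
    | 1 => (ρ.2.2 y).2

/-- splitting a state of the tile system -/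
def tsE (κ Y : ℕ) : ((Fin (2 ^ κ) → Bool) × (Fin (2 ^ κ) × Fin 6 → Bool)) ×
    (Fin (2 ^ κ) → Rst Y) ≃ (TB κ Y → Bool) where
  toFun q x := roleSt (q.1.1 x.1) (fun k => q.1.2 (x.1, k)) (q.2 x.1) x.2
  invFun σ := ((fun τ => σ (τ, .inl 0), fun x => σ (x.1, .inr (.inl (0, x.2.castSucc)))),
    fun τ => (σ (τ, .inr (.inl (0, Fin.last 6))),
      (fun k => (σ (τ, .inr (.inl (1, k))), σ (τ, .inr (.inl (2, k)))),
        fun y => (σ (τ, .inr (.inr (y, 0))), σ (τ, .inr (.inr (y, 1)))))))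
  left_inv q := by
    obtain ⟨⟨w, s⟩, ρ⟩ := q
    refine Prod.ext (Prod.ext rfl ?_) ?_
    · funext x
      show Fin.lastCases (motive := fun _ => Bool) (ρ x.1).1 (fun k => s (x.1, k)) x.2.castSucc = _
      rw [Fin.lastCases_castSucc]
    · funext τ
      refine Prod.ext ?_ rfl
      show Fin.lastCases (motive := fun _ => Bool) (ρ τ).1 (fun k => s (τ, k)) (Fin.last 6) = _
      rw [Fin.lastCases_last]
  right_inv σ := by
    funext x
    obtain ⟨τ, r⟩ := x
    rcases r with r | ⟨j, k⟩ | ⟨y, b⟩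
    · have : r = 0 := Subsingleton.elim _ _
      subst this
      rfl
    · fin_cases j
      · refine Fin.lastCases ?_ (fun k => ?_) k
        · show Fin.lastCases (motive := fun _ => Bool) _ _ (Fin.last 6) = _
          rw [Fin.lastCases_last]
          rfl
        · show Fin.lastCases (motive := fun _ => Bool) _ _ (Fin.castSucc k) = _
          rw [Fin.lastCases_castSucc]
          rfl
      · rfl
      · rfl
    · fin_cases b
      · rfl
      · rfl

theorem nw_self (c : ℕ) (s : Bool) : nw c s s = 1 := by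
  unfold nw
  rw [if_pos rfl]

/-- the product over the roles of a tile -/
theorem role_prod {Y : ℕ} (c : ℕ) (w : Bool) (s : Fin 6 → Bool) (ρ : Rst Y) :
    ∏ l : Role Y, nw c (roleSt w s ρ (sr l)) (roleSt w s ρ (tr l)) =
      (∏ k : Fin 7, (nw c (Fin.lastCases (motive := fun _ => Bool) ρ.1 s k) w *
        (nw c (Fin.lastCases (motive := fun _ => Bool) ρ.1 s k) (ρ.2.1 k).1 *
          nw c (ρ.2.1 k).1 (ρ.2.1 k).2))) *
      ∏ y : Fin Y, (nw c (ρ.2.2 y).1 w * nw c (ρ.2.2 y).2 (ρ.2.2 y).1) := by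
  rw [Fintype.prod_sum_type, Fintype.prod_sum_type, Fintype.prod_prod_type,
    Fintype.prod_prod_type, Fin.prod_univ_one, Fin.prod_univ_three]
  have e0 : nw c (roleSt w s ρ (sr (.inl 0))) (roleSt w s ρ (tr (.inl 0))) = 1 := nw_self c w
  rw [e0, one_mul]
  congr 1
  · rw [← Finset.prod_mul_distrib, ← Finset.prod_mul_distrib]
    refine Finset.prod_congr rfl fun k _ => ?_
    have e1 : roleSt w s ρ (sr (.inr (.inl (0, k)))) =
        Fin.lastCases (motive := fun _ => Bool) ρ.1 s k := rfl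
    have e2 : roleSt w s ρ (tr (.inr (.inl (0, k)))) = w := rfl
    have e3 : roleSt w s ρ (sr (.inr (.inl (1, k)))) =
        Fin.lastCases (motive := fun _ => Bool) ρ.1 s k := rfl
    have e4 : roleSt w s ρ (tr (.inr (.inl (1, k)))) = (ρ.2.1 k).1 := rfl
    have e5 : roleSt w s ρ (sr (.inr (.inl (2, k)))) = (ρ.2.1 k).1 := rfl
    have e6 : roleSt w s ρ (tr (.inr (.inl (2, k)))) = (ρ.2.1 k).2 := rfl
    rw [e1, e2, e3, e4, e5, e6, mul_assoc]
  · refine Finset.prod_congr rfl fun y _ => ?_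
    rw [Fin.prod_univ_two]
    rfl

theorem sum_brW (c : ℕ) (s : Bool) :
    ∑ q : Bool × Bool, nw c s q.1 * nw c q.1 q.2 = brW c s := by
  rw [Fintype.sum_prod_type]
  simp only [Fintype.sum_bool]
  cases s <;> simp [nw, brW] <;> ring

theorem sum_chW (c : ℕ) (w : Bool) :
    ∑ q : Bool × Bool, nw c q.1 w * nw c q.2 q.1 = chW c w := by
  rw [Fintype.sum_prod_type]
  simp only [Fintype.sum_bool]
  cases w <;> simp [nw, chW] <;> ring

theorem sum_pi_prod {ι α : Type} [Fintype ι] [Fintype α] [DecidableEq ι] (f : ι → α → ℚ) :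
    ∑ g : ι → α, ∏ i, f i (g i) = ∏ i, ∑ a, f i a := by
  classical
  have h := Finset.prod_univ_sum (fun _ : ι => (Finset.univ : Finset α)) f
  rw [Fintype.piFinset_univ] at h
  exact h.symm

/-- the sum over the remaining states of a tile -/
theorem sum_tile {Y : ℕ} (c : ℕ) (w : Bool) (s : Fin 6 → Bool) :
    ∑ ρ : Rst Y, ∏ l : Role Y, nw c (roleSt w s ρ (sr l)) (roleSt w s ρ (tr l)) =
      tileW c Y w s := by
  simp only [role_prod]
  rw [Fintype.sum_prod_type]
  have h1 : ∀ p : Bool, ∑ ρ : (Fin 7 → Bool × Bool) × (Fin Y → Bool × Bool),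
      (∏ k : Fin 7, (nw c (Fin.lastCases (motive := fun _ => Bool) p s k) w *
        (nw c (Fin.lastCases (motive := fun _ => Bool) p s k) (ρ.1 k).1 *
          nw c (ρ.1 k).1 (ρ.1 k).2))) *
      ∏ y : Fin Y, (nw c (ρ.2 y).1 w * nw c (ρ.2 y).2 (ρ.2 y).1) =
      (∏ k : Fin 7, (nw c (Fin.lastCases (motive := fun _ => Bool) p s k) w *
        brW c (Fin.lastCases (motive := fun _ => Bool) p s k))) * chW c w ^ Y := by
    intro p
    rw [Fintype.sum_prod_type]
    simp only [← Finset.mul_sum, ← Finset.sum_mul]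
    congr 1
    · rw [sum_pi_prod (fun (k : Fin 7) (q : Bool × Bool) =>
        nw c (Fin.lastCases (motive := fun _ => Bool) p s k) w *
        (nw c (Fin.lastCases (motive := fun _ => Bool) p s k) q.1 * nw c q.1 q.2))]
      refine Finset.prod_congr rfl fun k _ => ?_
      rw [← Finset.mul_sum, sum_brW]
    · rw [sum_pi_prod (fun (_ : Fin Y) (q : Bool × Bool) => nw c q.1 w * nw c q.2 q.1)]
      simp only [sum_chW, Finset.prod_const, Finset.card_univ, Fintype.card_fin]
  simp only [h1]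
  rw [← Finset.sum_mul]
  unfold tileW
  congr 1
  rw [Finset.sum_mul]
  refine Finset.sum_congr rfl fun p _ => ?_
  rw [Fin.prod_univ_castSucc, Fin.lastCases_last, mul_comm]
  simp only [Fin.lastCases_castSucc]

end TSplitAux

open TSplitAux

theorem tsplit {κ Y M : ℕ} (hM : M + 1 ≤ 2 ^ κ) (rl rr : Fin M → Fin M) (c : ℕ) :
    ∑ σ : TB κ Y → Bool, lprod (tpt hM rl rr) (tdr hM rl) c σ =
      ∑ w : Fin (2 ^ κ) → Bool, ∑ s : Fin (2 ^ κ) × Fin 6 → Bool,
        (∏ i : Fin κ, ∏ τ : Fin (2 ^ κ), nw c (w τ) (w (flip i τ))) *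
        (∏ g : EG M, nw c (s (Fin.castLE hM (esrc rl g).1, (esrc rl g).2))
          (s (Fin.castLE hM (etgt rr g).1, (etgt rr g).2))) *
        ∏ τ : Fin (2 ^ κ), tileW c Y (w τ) (fun k => s (τ, k)) := by
  simp only [tfac]
  rw [← Equiv.sum_comp (tsE κ Y), Fintype.sum_prod_type, Fintype.sum_prod_type]
  refine Finset.sum_congr rfl fun w _ => Finset.sum_congr rfl fun s _ => ?_
  have h1 : ∀ ρ : Fin (2 ^ κ) → Rst Y,
      (∏ i : Fin κ, ∏ τ : Fin (2 ^ κ), nw c (tsE κ Y ((w, s), ρ) (τ, .inl 0))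
          (tsE κ Y ((w, s), ρ) (flip i τ, .inl 0))) *
        (∏ τ : Fin (2 ^ κ), ∏ l : Role Y, nw c (tsE κ Y ((w, s), ρ) (τ, sr l))
          (tsE κ Y ((w, s), ρ) (τ, tr l))) *
        ∏ g : EG M, nw c (tsE κ Y ((w, s), ρ) (emb hM (esrc rl g)))
          (tsE κ Y ((w, s), ρ) (emb hM (etgt rr g))) =
      (∏ i : Fin κ, ∏ τ : Fin (2 ^ κ), nw c (w τ) (w (flip i τ))) *
        (∏ g : EG M, nw c (s (Fin.castLE hM (esrc rl g).1, (esrc rl g).2))
          (s (Fin.castLE hM (etgt rr g).1, (etgt rr g).2))) *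
        ∏ τ : Fin (2 ^ κ), ∏ l : Role Y,
          nw c (roleSt (w τ) (fun k => s (τ, k)) (ρ τ) (sr l))
            (roleSt (w τ) (fun k => s (τ, k)) (ρ τ) (tr l)) := by
    intro ρ
    have e1 : ∀ x : EB M, tsE κ Y ((w, s), ρ) (emb hM x) = s (Fin.castLE hM x.1, x.2) := by
      intro x
      show Fin.lastCases (motive := fun _ => Bool) _ _ (Fin.castSucc x.2) = _
      rw [Fin.lastCases_castSucc]
      rfl
    simp only [e1]
    rw [mul_right_comm]
    rfl
  simp only [h1]
  rw [← Finset.mul_sum, sum_pi_prod (fun (τ : Fin (2 ^ κ)) (ρ : Rst Y) => ∏ l : Role Y,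
    nw c (roleSt (w τ) (fun k => s (τ, k)) ρ (sr l))
      (roleSt (w τ) (fun k => s (τ, k)) ρ (tr l)))]
  simp only [sum_tile]

end Pool.Agent.Lib.Pa7c826s
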