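import Pool.Agent.Lib.Pa7c826t.ERed
import Pool.Agent.Lib.Pa7c826x.Defs

/-!
Regular bipartite expanders made of complete bipartite blocks joined by labelled links.
-/

namespace Pool.Agent.Lib.Pa7c826s

open Pool.Agent.Lib.Pa7c826 Pool.Agent.Lib.Pa7c826t

/-! ### Blocks with labelled links -/

/-- slots of a block: `c + 1` per label and `f` free ones -/
abbrev Slt (Λ : Type) (c f : ℕ) : Type := (Λ × Fin (c + 1)) ⊕ Fin f

/-- vertices of one side -/
abbrev Vx (Λ Blk : Type) (c f : ℕ) : Type := Blk × Slt Λ c f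

/-- every label `l` pairs blocks by the involution `pt l`; of the two blocks of a pair one is the
source (`dr l x = true`) and one the target; blocks fixed by `pt l` are not linked -/
structure Pairing {Λ Blk : Type} (pt : Λ → Blk → Blk) (dr : Λ → Blk → Bool) : Prop where
  inv : ∀ l x, pt l (pt l x) = x
  dir : ∀ l x, pt l x ≠ x → dr l (pt l x) = !dr l x

section generic

variable {Λ Blk : Type} (pt : Λ → Blk → Blk) (dr : Λ → Blk → Bool) (c f : ℕ)

/-- adjacency between left vertices `u` and right vertices `v`: blocks are complete bipartite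
except that every link switches `c + 1` pairs of edges between its two blocks -/
def XRel (u v : Vx Λ Blk c f) : Prop :=
  match v.2 with
  | .inr _ => u.1 = v.1
  | .inl g =>
    (pt g.1 v.1 = v.1 ∧ u.1 = v.1) ∨
    (pt g.1 v.1 ≠ v.1 ∧ dr g.1 v.1 = true ∧
      ((u.1 = v.1 ∧ u.2 ≠ .inl g) ∨ (u.1 = pt g.1 v.1 ∧ u.2 = .inl (g.1, 0)))) ∨
    (pt g.1 v.1 ≠ v.1 ∧ dr g.1 v.1 = false ∧
      ((u.1 = v.1 ∧ u.2 ≠ .inl (g.1, 0)) ∨ (u.1 = pt g.1 v.1 ∧ u.2 = .inl g)))

/-- `U` is a union of a set of left vertices in the blocks with `σ = true` and a set of right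
vertices in the other blocks, spanning no edge. -/
def XPure (σ : Blk → Bool) (U : Set (Vx Λ Blk c f)) : Prop :=
  ∀ u ∈ U, ∀ v ∈ U, σ u.1 = true → σ v.1 = false → ¬ XRel pt dr c f u v

/-- the total number of pure sets -/
noncomputable def xpure [Fintype Blk] [DecidableEq Blk] : ℕ :=
  ∑ σ : Blk → Bool, Nat.card {U : Set (Vx Λ Blk c f) // XPure pt dr c f σ U}

/-- normalised weight of a link whose source is in state `s` and whose target in state `t` -/
def nw (c : ℕ) (s t : Bool) : ℚ := if s = t then 1 else if s = true then hh c else gg c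

/-- product of the normalised weights of all links -/
def lprod [Fintype Λ] [Fintype Blk] (σ : Blk → Bool) : ℚ :=
  ∏ l : Λ, ∏ x : Blk, bif dr l x then nw c (σ x) (σ (pt l x)) else 1

/-- number of cut links of a set of blocks, with weights -/
def cutX [Fintype Λ] [DecidableEq Blk] (w : Λ → Blk → ℕ) (A : Finset Blk) : ℕ :=
  ∑ l : Λ, ∑ x ∈ A, if pt l x ∈ A then 0 else w l x

/-- weights of cut links for sets of left vertices -/
def wL (l : Λ) (x : Blk) : ℕ := bif dr l x then c + 1 else 1

/-- weights of cut links for sets of right vertices -/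
def wR (l : Λ) (x : Blk) : ℕ := bif dr l x then 1 else c + 1

end generic

/-! ### The hypercube -/

/-- flipping the binary digit number `i` -/
def flipN (i τ : ℕ) : ℕ := if decide (τ / 2 ^ i % 2 = 0) = true then τ + 2 ^ i else τ - 2 ^ i

theorem flipN_lt {κ i τ : ℕ} (hi : i < κ) (h : τ < 2 ^ κ) : flipN i τ < 2 ^ κ := by
  unfold flipN
  split_ifs with h0
  · rw [decide_eq_true_eq] at h0
    have hpos : 0 < 2 ^ i := by positivity
    obtain ⟨k, rfl⟩ : ∃ k, κ = i + 1 + k := ⟨κ - (i + 1), by omega⟩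
    have e : 2 ^ (i + 1 + k) = 2 ^ i * (2 * 2 ^ k) := by rw [pow_add, pow_succ]; ring
    rw [e] at h ⊢
    have h1 : τ / 2 ^ i < 2 * 2 ^ k := Nat.div_lt_of_lt_mul h
    have h2 : τ / 2 ^ i + 1 < 2 * 2 ^ k := by omega
    have h3 := Nat.div_add_mod τ (2 ^ i)
    have h4 := Nat.mod_lt τ hpos
    calc τ + 2 ^ i < 2 ^ i * (τ / 2 ^ i) + 2 ^ i + 2 ^ i := by omega
      _ = 2 ^ i * (τ / 2 ^ i + 1 + 1) := by ring
      _ ≤ _ := Nat.mul_le_mul_left _ h2
  · exact lt_of_le_of_lt (Nat.sub_le _ _) h

/-- flipping a binary digit -/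
def flip {κ : ℕ} (i : Fin κ) (τ : Fin (2 ^ κ)) : Fin (2 ^ κ) := ⟨flipN i τ, flipN_lt i.2 τ.2⟩

/-! ### The tile system -/

/-- number of roles -/
abbrev RR (Y : ℕ) : ℕ := 1 + (3 * 7 + Y * 2)

/-- The roles of the blocks of a tile: the hub `.inl 0`; seven branches `(0, k), (1, k), (2, k)`
where `(0, k)` is linked to the hub, `(1, k)` to `(0, k)` and `(2, k)` to `(1, k)`; and `Y` chains
`(y, 0), (y, 1)` where `(y, 0)` is linked to the hub and `(y, 1)` to `(y, 0)`. -/
abbrev Role (Y : ℕ) : Type := Fin 1 ⊕ ((Fin 3 × Fin 7) ⊕ (Fin Y × Fin 2))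

/-- the role to which a role is linked -/
def par {Y : ℕ} : Role Y → Role Y
  | .inl _ => .inl 0
  | .inr (.inl (j, k)) =>
    match j with
    | 0 => .inl 0
    | 1 => .inr (.inl (0, k))
    | 2 => .inr (.inl (1, k))
  | .inr (.inr (y, b)) =>
    match b with
    | 0 => .inl 0
    | 1 => .inr (.inr (y, 0))

/-- whether a role is the source of the link to its parent -/
def isSrc {Y : ℕ} : Role Y → Bool
  | .inl _ => true
  | .inr (.inl (j, _)) => decide (j = 0)
  | .inr (.inr _) => true

/-- source of the link number `l` -/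
def sr {Y : ℕ} (l : Role Y) : Role Y := bif isSrc l then l else par l

/-- target of the link number `l` -/
def tr {Y : ℕ} (l : Role Y) : Role Y := bif isSrc l then par l else l

/-- blocks: (tile, role) -/
abbrev TB (κ Y : ℕ) : Type := Fin (2 ^ κ) × Role Y

/-- labels: two for every direction of the hypercube, one for every role and five for every edge of
the given graph -/
abbrev TL (κ Y M : ℕ) : Type := (Fin κ × Fin 2) ⊕ (Role Y ⊕ EG M)

section tile

variable {κ Y M : ℕ} (hM : M + 1 ≤ 2 ^ κ)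

/-- the six blocks of the tile `e` that represent the blocks `(e, 0), …, (e, 5)` -/
def emb (x : EB M) : TB κ Y := (Fin.castLE hM x.1, .inr (.inl (0, x.2.castSucc)))

variable (rl rr : Fin M → Fin M)

/-- the pairings of the tile system -/
def tpt : TL κ Y M → TB κ Y → TB κ Y
  | .inl (i, _), (τ, r) => if r = .inl 0 then (flip i τ, r) else (τ, r)
  | .inr (.inl l), (τ, r) => (τ, Equiv.swap l (par l) r)
  | .inr (.inr g), x => Equiv.swap (emb hM (esrc rl g)) (emb hM (etgt rr g)) x

/-- sources -/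
def tdr : TL κ Y M → TB κ Y → Bool
  | .inl (i, b), (τ, _) => decide ((τ : ℕ) / 2 ^ (i : ℕ) % 2 = (b : ℕ))
  | .inr (.inl l), (_, r) => decide (r = sr l)
  | .inr (.inr g), x => decide (x = emb hM (esrc rl g))

/-- the sum over the states of the blocks that carry the given graph -/
def isum (c : ℕ) : ℚ :=
  ∑ s : Fin (2 ^ κ) × Fin 6 → Bool, ∏ g : EG M,
    nw c (s (Fin.castLE hM (esrc rl g).1, (esrc rl g).2))
      (s (Fin.castLE hM (etgt rr g).1, (etgt rr g).2))

end tile

/-- weight of a branch whose first block is in state `s` -/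
def brW (c : ℕ) (s : Bool) : ℚ := if s = true then 1 + 2 * hh c + hh c * gg c else
  1 + 2 * gg c + hh c * gg c

/-- weight of a chain at a hub in state `w` -/
def chW (c : ℕ) (w : Bool) : ℚ := if w = true then 1 + 2 * gg c + hh c * gg c else
  1 + 2 * hh c + hh c * gg c

/-- total weight of a tile with the hub in state `w` and the blocks `(0, 0), …, (0, 5)` in the
states `s` -/
def tileW (c Y : ℕ) (w : Bool) (s : Fin 6 → Bool) : ℚ :=
  (∑ p : Bool, nw c p w * brW c p) * (∏ k : Fin 6, nw c (s k) w * brW c (s k)) * chW c w ^ Y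

/-! ### Index level -/

/-- parent of a role -/
def parN (l : ℕ) : ℕ :=
  if decide (l < 8) = true then 0
  else if decide (l < 22) = true then l - 7
  else if decide (l % 2 = 0) = true then 0
  else l - 1

/-- source of the link of a role -/
def srN (l : ℕ) : ℕ :=
  if (decide (8 ≤ l) && decide (l < 22)) = true then parN l else l

/-- the block that carries the block number `x` of the block graph of the given graph -/
def embN (Y x : ℕ) : ℕ := 1 + x % 6 + RR Y * (x / 6)

/-- partner of the block `V` under the label `l` -/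
def ptN (κ Y : ℕ) (L R : ℕ → ℕ) (l V : ℕ) : ℕ :=
  if decide (l < κ * 2) = true then
    (if decide (V % RR Y = 0) = true then RR Y * flipN (l / 2) (V / RR Y) else V)
  else if decide (l < κ * 2 + RR Y) = true then
    (if decide (V % RR Y = l - κ * 2) = true then RR Y * (V / RR Y) + parN (l - κ * 2)
    else if decide (V % RR Y = parN (l - κ * 2)) = true then RR Y * (V / RR Y) + (l - κ * 2)
    else V)
  else
    (if decide (V = embN Y (srcE L (l - (κ * 2 + RR Y)))) = true then
      embN Y (tgtE R (l - (κ * 2 + RR Y)))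
    else if decide (V = embN Y (tgtE R (l - (κ * 2 + RR Y)))) = true then
      embN Y (srcE L (l - (κ * 2 + RR Y)))
    else V)

/-- whether the block `V` is a source under the label `l` -/
def drN (κ Y : ℕ) (L : ℕ → ℕ) (l V : ℕ) : Bool :=
  if decide (l < κ * 2) = true then decide (V / RR Y / 2 ^ (l / 2) % 2 = l % 2)
  else if decide (l < κ * 2 + RR Y) = true then decide (V % RR Y = srN (l - κ * 2))
  else decide (V = embN Y (srcE L (l - (κ * 2 + RR Y))))

/-- adjacency of `(U, S)` and `(V, T)` (block, slot), when `T` is a slot of a label -/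
def F5g (κ Y c1 : ℕ) (L R : ℕ → ℕ) (U S V T : ℕ) : Bool :=
  if decide (ptN κ Y L R (T / c1) V = V) = true then decide (U = V)
  else if drN κ Y L (T / c1) V = true then
    ((decide (U = V) && !decide (S = T)) ||
      (decide (U = ptN κ Y L R (T / c1) V) && decide (S = c1 * (T / c1))))
  else
    ((decide (U = V) && !decide (S = c1 * (T / c1))) ||
      (decide (U = ptN κ Y L R (T / c1) V) && decide (S = T)))

/-- number of labels -/
abbrev LL (κ Y M : ℕ) : ℕ := κ * 2 + (RR Y + M * 5)

/-- adjacency -/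
def F5 (κ Y M c1 f : ℕ) (L R : ℕ → ℕ) (u v : ℕ) : Bool :=
  let d := LL κ Y M * c1 + f
  if decide (v % d < LL κ Y M * c1) = true then F5g κ Y c1 L R (u / d) (u % d) (v / d) (v % d)
  else decide (u / d = v / d)

/-- numbering of the roles -/
def eRole (Y : ℕ) : Role Y ≃ Fin (RR Y) :=
  (Equiv.sumCongr (Equiv.refl _)
    ((Equiv.sumCongr finProdFinEquiv finProdFinEquiv).trans finSumFinEquiv)).trans finSumFinEquiv

/-- numbering of the blocks -/
def eTB (κ Y : ℕ) : TB κ Y ≃ Fin (2 ^ κ * RR Y) :=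
  (Equiv.prodCongr (Equiv.refl _) (eRole Y)).trans finProdFinEquiv

/-- numbering of the labels -/
def eTL (κ Y M : ℕ) : TL κ Y M ≃ Fin (LL κ Y M) :=
  (Equiv.sumCongr finProdFinEquiv
    ((Equiv.sumCongr (eRole Y) (eEG M)).trans finSumFinEquiv)).trans finSumFinEquiv

/-- numbering of the slots -/
def eTS (κ Y M c f : ℕ) : Slt (TL κ Y M) c f ≃ Fin (LL κ Y M * (c + 1) + f) :=
  (Equiv.sumCongr ((Equiv.prodCongr (eTL κ Y M) (Equiv.refl _)).trans finProdFinEquiv)
    (Equiv.refl _)).trans finSumFinEquiv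

/-- numbering of the vertices -/
def eTV (κ Y M c f : ℕ) : Vx (TL κ Y M) (TB κ Y) c f ≃
    Fin (2 ^ κ * RR Y * (LL κ Y M * (c + 1) + f)) :=
  (Equiv.prodCongr (eTB κ Y) (eTS κ Y M c f)).trans finProdFinEquiv

/-! ### Sizes -/

/-- a constant -/
def Cq (q : ℕ) : ℕ := 2 * q + 12

/-- a constant -/
def Kq (q : ℕ) : ℕ := 2 * Cq q + 14

/-- logarithm of the base parameter -/
def Lx (a b m t : ℕ) : ℕ := Nat.log 2 (a + b + m + 2 * t + 30) + 1

/-- `2 ^ rx` is the number of roles -/
def rx (q L : ℕ) : ℕ := 2 * L + Cq q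

/-- `2 ^ kx` is the number of tiles -/
def kx (p q L : ℕ) : ℕ := Kq q * L * (q - p) - 1 - rx q L

/-- number of chains in a tile -/
def Yx (q L : ℕ) : ℕ := (2 ^ rx q L - 22) / 2

/-- size parameter of the links -/
def cx (q a b m t : ℕ) : ℕ := ce a b m (RR (Yx q (Lx a b m t)))

/-- number of label slots -/
def slx (p q a b m t : ℕ) : ℕ :=
  LL (kx p q (Lx a b m t)) (Yx q (Lx a b m t)) m * (cx q a b m t + 1)

/-- the degree -/
def Dx (p q a b m t : ℕ) : ℕ := 2 ^ (Kq q * Lx a b m t * p)

/-- number of free slots -/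
def fx (p q a b m t : ℕ) : ℕ := Dx p q a b m t - slx p q a b m t

/-- the new graph -/
def redS (p q : ℕ) (G : BGraph) (t : ℕ) : BGraph :=
  mkGraph
    (2 ^ kx p q (Lx G.a G.b (ecount G) t) * RR (Yx q (Lx G.a G.b (ecount G) t)) *
      (slx p q G.a G.b (ecount G) t + fx p q G.a G.b (ecount G) t))
    (2 ^ kx p q (Lx G.a G.b (ecount G) t) * RR (Yx q (Lx G.a G.b (ecount G) t)) *
      (slx p q G.a G.b (ecount G) t + fx p q G.a G.b (ecount G) t))
    (F5 (kx p q (Lx G.a G.b (ecount G) t)) (Yx q (Lx G.a G.b (ecount G) t)) (ecount G)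
      (cx q G.a G.b (ecount G) t + 1) (fx p q G.a G.b (ecount G) t)
      (repI (ecount G) (xI G)) (repI (ecount G) (yI G)))

/-- the exponent -/
def KS (p q : ℕ) (G : BGraph) (t : ℕ) : ℕ :=
  2 ^ kx p q (Lx G.a G.b (ecount G) t) * RR (Yx q (Lx G.a G.b (ecount G) t)) *
      (slx p q G.a G.b (ecount G) t + fx p q G.a G.b (ecount G) t) +
    (Yx q (Lx G.a G.b (ecount G) t) + 7) * 2 ^ kx p q (Lx G.a G.b (ecount G) t) -
    (G.a + G.b + 3 * ecount G)

/-- Regular bipartite graphs with `n` vertices of degree `d = n ^ (p / q)` which are bipartite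
`1 / (4 d)`-expanders. -/
def RegExpander (p q : ℕ) (G : BGraph) : Prop :=
  ∃ d, (∀ i, G.rowDeg i = d) ∧ (∀ j, G.colDeg j = d) ∧ d ^ q = (G.a + G.b) ^ p ∧
    Pool.Agent.Lib.Pa7c826x.IsExpander (1 / (4 * d)) G

end Pool.Agent.Lib.Pa7c826s
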