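import Pool.Agent.Lib.Pa7c826s.XDef

/-!
Expansion of sets of left vertices.

Let `D = |Λ| (c + 1) + f`, let `S` be a set of left vertices, `N` its neighbourhood, `s x` the
number of elements of `S` in the block `x`, `A` the set of the heavy blocks (`D < 2 s x`) and `B`
the set of the light blocks (`0 < s x`, `2 s x ≤ D`).

Proof of `gain_left`. Let `n x` be the number of elements of `N` in the block `x`.
(a) If `s x ≥ 2` then `n x = D` (every right vertex of the block `x` misses at most one left vertex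
of the block `x`).
(b) If `s x = 1` then `n x ≥ D - (c + 1)`: all free slots and all label slots of all labels but one
are in `N`. So for light blocks `n x - s x ≥ D / 2 - (c + 1) ≥ |Λ| (c + 1) + 1`, by `hf`.
(c) Let `x` be heavy, `y = pt l x ≠ x` with `s y = 0`, and let `miss` be the number of `j` with
`(x, .inl (l, j)) ∉ S`, `gain` the number of `j` with `(y, .inl (l, j)) ∈ N`. If `dr l x = true`
then `y` is a target and `(x, .inl (l, j))` is adjacent to `(y, .inl (l, j))` for every `j`,
so `gain + miss ≥ c + 1`. If `dr l x = false` then `y` is a source and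
`(x, .inl (l, 0))` is adjacent to all `(y, .inl (l, j))`, so `gain = c + 1` or `miss ≥ 1`.
In both cases `gain + miss ≥ wL dr c l x`.
(d) `D - s x ≥ ∑ l, miss` for heavy `x`; `n y ≥ ∑ l, gain` for empty `y`; the cut links from heavy
to light blocks number at most `|Λ|` per light block, weight at most `c + 1` each. Sum up.
-/

namespace Pool.Agent.Lib.Pa7c826s

open Pool.Agent.Lib.Pa7c826 Pool.Agent.Lib.Pa7c826t

variable {Λ Blk : Type} [Fintype Λ] [Fintype Blk] [DecidableEq Blk] {pt : Λ → Blk → Blk}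
  {dr : Λ → Blk → Bool} {c f : ℕ}

namespace XExpLAux

open Classical in
/-- number of elements in a block -/
noncomputable def cnt (T : Finset (Vx Λ Blk c f)) (x : Blk) : ℕ :=
  ∑ t : Slt Λ c f, if (x, t) ∈ T then 1 else 0

open Classical in
/-- number of slots of a label in a set -/
noncomputable def gain (N : Finset (Vx Λ Blk c f)) (l : Λ) (x : Blk) : ℕ :=
  ∑ j : Fin (c + 1), if ((x, Sum.inl (l, j)) : Vx Λ Blk c f) ∈ N then 1 else 0

open Classical in
/-- number of slots of a label missing in a set -/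
noncomputable def miss (S : Finset (Vx Λ Blk c f)) (l : Λ) (x : Blk) : ℕ :=
  ∑ j : Fin (c + 1), if ((x, Sum.inl (l, j)) : Vx Λ Blk c f) ∈ S then 0 else 1

theorem card_block (T : Finset (Vx Λ Blk c f)) (x : Blk) :
    (T.filter fun u => u.1 = x).card = cnt T x := by
  classical
  unfold cnt
  rw [← Finset.card_filter]
  refine Finset.card_bij (fun u _ => u.2) ?_ ?_ ?_
  · intro u hu
    obtain ⟨h1, h2⟩ := Finset.mem_filter.mp hu
    refine Finset.mem_filter.mpr ⟨Finset.mem_univ _, ?_⟩
    rw [← h2]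
    exact h1
  · intro u hu v hv h
    obtain ⟨_, h2⟩ := Finset.mem_filter.mp hu
    obtain ⟨_, h4⟩ := Finset.mem_filter.mp hv
    exact Prod.ext (h2.trans h4.symm) h
  · intro t ht
    exact ⟨(x, t), Finset.mem_filter.mpr ⟨(Finset.mem_filter.mp ht).2, rfl⟩, rfl⟩

theorem card_eq (T : Finset (Vx Λ Blk c f)) : T.card = ∑ x, cnt T x := by
  rw [Finset.card_eq_sum_card_fiberwise (f := Prod.fst) (t := Finset.univ)
    (fun _ _ => Finset.mem_coe.mpr (Finset.mem_univ _))]
  exact Finset.sum_congr rfl fun x _ => card_block T x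

theorem card_slt : Fintype.card (Slt Λ c f) = Fintype.card Λ * (c + 1) + f := by
  simp [Slt]

theorem cnt_eq (T : Finset (Vx Λ Blk c f)) (x : Blk) : ∑ l, gain T l x ≤ cnt T x := by
  classical
  unfold cnt gain
  rw [Fintype.sum_sum_type, Fintype.sum_prod_type]
  exact Nat.le_add_right _ _

theorem cnt_miss (T : Finset (Vx Λ Blk c f)) (x : Blk) :
    cnt T x + ∑ l, miss T l x ≤ Fintype.card Λ * (c + 1) + f := by
  classical
  unfold cnt miss
  rw [Fintype.sum_sum_type, Fintype.sum_prod_type]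
  have h1 : ∀ l : Λ, (∑ j : Fin (c + 1), if ((x, Sum.inl (l, j)) : Vx Λ Blk c f) ∈ T then 1 else 0) +
      (∑ j : Fin (c + 1), if ((x, Sum.inl (l, j)) : Vx Λ Blk c f) ∈ T then 0 else 1) = c + 1 := by
    intro l
    rw [← Finset.sum_add_distrib]
    calc _ = ∑ _j : Fin (c + 1), 1 := Finset.sum_congr rfl fun j _ => by split_ifs <;> rfl
      _ = c + 1 := by simp
  have h2 : (∑ j : Fin f, if ((x, Sum.inr j) : Vx Λ Blk c f) ∈ T then 1 else 0) ≤ f := by
    calc _ ≤ ∑ _j : Fin f, 1 := Finset.sum_le_sum fun j _ => by split_ifs <;> norm_num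
      _ = f := by simp
  have h3 : ∑ l : Λ, ((∑ j : Fin (c + 1), if ((x, Sum.inl (l, j)) : Vx Λ Blk c f) ∈ T then 1 else 0) +
      (∑ j : Fin (c + 1), if ((x, Sum.inl (l, j)) : Vx Λ Blk c f) ∈ T then 0 else 1)) =
      Fintype.card Λ * (c + 1) := by
    rw [Finset.sum_congr rfl fun l _ => h1 l]
    simp
  rw [Finset.sum_add_distrib] at h3
  omega

/-- the excluded slot -/
theorem exists_excl (v : Vx Λ Blk c f) :
    ∃ e : Slt Λ c f, ∀ t, t ≠ e → XRel pt dr c f (v.1, t) v := by
  obtain ⟨x, v2⟩ := v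
  rcases v2 with g | j
  · by_cases h1 : pt g.1 x = x
    · exact ⟨Sum.inl g, fun t _ => Or.inl ⟨h1, rfl⟩⟩
    · by_cases h2 : dr g.1 x = true
      · exact ⟨Sum.inl g, fun t ht => Or.inr (Or.inl ⟨h1, h2, Or.inl ⟨rfl, ht⟩⟩)⟩
      · rw [Bool.not_eq_true] at h2
        exact ⟨Sum.inl (g.1, 0), fun t ht => Or.inr (Or.inr ⟨h1, h2, Or.inl ⟨rfl, ht⟩⟩)⟩
  · exact ⟨Sum.inr j, fun t _ => rfl⟩

theorem adj_other {x : Blk} {t t' : Slt Λ c f}
    (h : ∀ g, t' = Sum.inl g → ∀ j, t ≠ Sum.inl (g.1, j)) :
    XRel pt dr c f (x, t) (x, t') := by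
  rcases t' with g | j
  · by_cases h1 : pt g.1 x = x
    · exact Or.inl ⟨h1, rfl⟩
    · by_cases h2 : dr g.1 x = true
      · exact Or.inr (Or.inl ⟨h1, h2, Or.inl ⟨rfl, h g rfl g.2⟩⟩)
      · rw [Bool.not_eq_true] at h2
        exact Or.inr (Or.inr ⟨h1, h2, Or.inl ⟨rfl, h g rfl 0⟩⟩)
  · rfl

theorem cnt_two {S N : Finset (Vx Λ Blk c f)}
    (hN : ∀ v, v ∈ N ↔ ∃ u ∈ S, XRel pt dr c f u v) {x : Blk} (h : 2 ≤ cnt S x) :
    cnt N x = Fintype.card Λ * (c + 1) + f := by
  classical
  have hall : ∀ t, (x, t) ∈ N := by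
    intro t
    obtain ⟨e, he⟩ := exists_excl (pt := pt) (dr := dr) (x, t)
    rw [← card_block] at h
    obtain ⟨u, hu, u', hu', hne⟩ := Finset.one_lt_card.mp h
    obtain ⟨h1, h2⟩ := Finset.mem_filter.mp hu
    obtain ⟨h3, h4⟩ := Finset.mem_filter.mp hu'
    rw [hN]
    by_cases hc : u.2 = e
    · have hc' : u'.2 ≠ e := by
        intro h5
        exact hne (Prod.ext (h2.trans h4.symm) (hc.trans h5.symm))
      refine ⟨u', h3, ?_⟩
      have := he u'.2 hc'
      have e1 : ((x, t) : Vx Λ Blk c f).1 = u'.1 := h4.symm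
      rw [e1] at this
      exact this
    · refine ⟨u, h1, ?_⟩
      have := he u.2 hc
      have e1 : ((x, t) : Vx Λ Blk c f).1 = u.1 := h2.symm
      rw [e1] at this
      exact this
  unfold cnt
  rw [Finset.sum_congr rfl fun t _ => if_pos (hall t)]
  rw [Finset.sum_const, Finset.card_univ, card_slt, smul_eq_mul, mul_one]

theorem cnt_one {S N : Finset (Vx Λ Blk c f)}
    (hN : ∀ v, v ∈ N ↔ ∃ u ∈ S, XRel pt dr c f u v) {x : Blk} (h : 1 ≤ cnt S x) :
    Fintype.card Λ * (c + 1) + f ≤ cnt N x + (c + 1) := by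
  classical
  rw [← card_block] at h
  obtain ⟨u, hu⟩ := Finset.card_pos.mp h
  obtain ⟨h1, h2⟩ := Finset.mem_filter.mp hu
  obtain ⟨u1, t⟩ := u
  simp only at h2
  subst h2
  by_cases ht : ∃ g, t = Sum.inl g
  · obtain ⟨g₀, rfl⟩ := ht
    have hmem : ∀ t' : Slt Λ c f, (∀ j, t' ≠ Sum.inl (g₀.1, j)) → (u1, t') ∈ N := by
      intro t' ht'
      rw [hN]
      refine ⟨_, h1, adj_other ?_⟩
      rintro g rfl j hj
      have h5 : g₀ = (g.1, j) := Sum.inl_injective hj
      exact ht' g.2 (by rw [h5])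
    have h3 : ∀ t' : Slt Λ c f, 1 ≤ (if (u1, t') ∈ N then 1 else 0) +
        (if (∃ j, t' = Sum.inl (g₀.1, j)) then 1 else 0) := by
      intro t'
      by_cases hj : ∃ j, t' = Sum.inl (g₀.1, j)
      · rw [if_pos hj]
        omega
      · push Not at hj
        rw [if_pos (hmem t' hj)]
        omega
    have h4 : ∑ t' : Slt Λ c f, (if (∃ j, t' = Sum.inl (g₀.1, j)) then 1 else 0) = c + 1 := by
      rw [Fintype.sum_sum_type, Fintype.sum_prod_type]
      have e2 : ∀ l : Λ, (∑ j : Fin (c + 1),
          if (∃ j', (Sum.inl (l, j) : Slt Λ c f) = Sum.inl (g₀.1, j')) then 1 else 0) =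
          if l = g₀.1 then c + 1 else 0 := by
        intro l
        by_cases hl : l = g₀.1
        · rw [if_pos hl, hl]
          rw [Finset.sum_congr rfl fun j _ => if_pos ⟨j, rfl⟩]
          simp
        · rw [if_neg hl]
          refine Finset.sum_eq_zero fun j _ => if_neg ?_
          rintro ⟨j', hj'⟩
          exact hl (congrArg Prod.fst (Sum.inl_injective hj'))
      rw [Finset.sum_congr rfl fun l _ => e2 l]
      have e3 : ∑ j : Fin f, (if (∃ j', (Sum.inr j : Slt Λ c f) = Sum.inl (g₀.1, j')) then 1 else 0)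
          = 0 := by
        refine Finset.sum_eq_zero fun j _ => if_neg ?_
        rintro ⟨j', hj'⟩
        exact Sum.inr_ne_inl hj'
      rw [e3]
      simp
    calc Fintype.card Λ * (c + 1) + f = ∑ _t' : Slt Λ c f, 1 := by
          rw [Finset.sum_const, Finset.card_univ, card_slt, smul_eq_mul, mul_one]
      _ ≤ ∑ t' : Slt Λ c f, ((if (u1, t') ∈ N then 1 else 0) +
          (if (∃ j, t' = Sum.inl (g₀.1, j)) then 1 else 0)) := Finset.sum_le_sum fun t' _ => h3 t'
      _ = cnt N u1 + (c + 1) := by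
          rw [Finset.sum_add_distrib, h4]
          rfl
  · have hall : ∀ t', (u1, t') ∈ N := by
      intro t'
      rw [hN]
      exact ⟨_, h1, adj_other fun g _ j hj => ht ⟨_, hj⟩⟩
    unfold cnt
    rw [Finset.sum_congr rfl fun t _ => if_pos (hall t)]
    rw [Finset.sum_const, Finset.card_univ, card_slt, smul_eq_mul, mul_one]
    omega

/-- links to blocks without elements of `S` -/
theorem link_gain (hp : Pairing pt dr) {S N : Finset (Vx Λ Blk c f)}
    (hN : ∀ v, v ∈ N ↔ ∃ u ∈ S, XRel pt dr c f u v) (l : Λ) (x : Blk) (hx : pt l x ≠ x) :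
    wL dr c l x ≤ miss S l x + gain N l (pt l x) := by
  classical
  have hxx : pt l (pt l x) = x := hp.inv l x
  have hne : pt l (pt l x) ≠ pt l x := by
    rw [hxx]
    exact fun h => hx h.symm
  have hdir := hp.dir l x hx
  unfold miss gain wL
  by_cases h2 : dr l x = true
  · rw [h2, cond_true, ← Finset.sum_add_distrib]
    rw [h2, Bool.not_true] at hdir
    calc c + 1 = ∑ _j : Fin (c + 1), 1 := by simp
      _ ≤ _ := Finset.sum_le_sum fun j _ => ?_
    by_cases hj : ((x, Sum.inl (l, j)) : Vx Λ Blk c f) ∈ S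
    · have h3 : ((pt l x, Sum.inl (l, j)) : Vx Λ Blk c f) ∈ N := by
        rw [hN]
        refine ⟨_, hj, Or.inr (Or.inr ⟨hne, hdir, Or.inr ⟨?_, rfl⟩⟩)⟩
        exact hxx.symm
      rw [if_pos h3]
      omega
    · rw [if_neg hj]
      omega
  · rw [Bool.not_eq_true] at h2
    rw [h2, cond_false]
    rw [h2, Bool.not_false] at hdir
    by_cases hj : ((x, Sum.inl (l, 0)) : Vx Λ Blk c f) ∈ S
    · have h3 : ((pt l x, Sum.inl (l, 0)) : Vx Λ Blk c f) ∈ N := by
        rw [hN]
        refine ⟨_, hj, Or.inr (Or.inl ⟨hne, hdir, Or.inr ⟨?_, rfl⟩⟩)⟩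
        exact hxx.symm
      have h4 : 1 ≤ ∑ j : Fin (c + 1),
          if ((pt l x, Sum.inl (l, j)) : Vx Λ Blk c f) ∈ N then 1 else 0 := by
        calc 1 = if ((pt l x, Sum.inl (l, 0)) : Vx Λ Blk c f) ∈ N then 1 else 0 := by
              rw [if_pos h3]
          _ ≤ _ := Finset.single_le_sum (f := fun j : Fin (c + 1) =>
              if ((pt l x, Sum.inl (l, j)) : Vx Λ Blk c f) ∈ N then 1 else 0)
              (fun _ _ => Nat.zero_le _) (Finset.mem_univ 0)
      omega
    · have h4 : 1 ≤ ∑ j : Fin (c + 1),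
          if ((x, Sum.inl (l, j)) : Vx Λ Blk c f) ∈ S then 0 else 1 := by
        calc 1 = if ((x, Sum.inl (l, 0)) : Vx Λ Blk c f) ∈ S then 0 else 1 := by
              rw [if_neg hj]
          _ ≤ _ := Finset.single_le_sum (f := fun j : Fin (c + 1) =>
              if ((x, Sum.inl (l, j)) : Vx Λ Blk c f) ∈ S then 0 else 1)
              (fun _ _ => Nat.zero_le _) (Finset.mem_univ 0)
      omega

end XExpLAux

open XExpLAux in
theorem gain_left (hp : Pairing pt dr) {D : ℕ} (hD : D = Fintype.card Λ * (c + 1) + f)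
    (hf : Fintype.card Λ * (c + 1) + 2 * (c + 1) + 2 ≤ f) (S N : Finset (Vx Λ Blk c f))
    (hN : ∀ v, v ∈ N ↔ ∃ u ∈ S, XRel pt dr c f u v) (s : Blk → ℕ)
    (hs : ∀ x, s x = (S.filter fun u => u.1 = x).card) :
    S.card + cutX pt (wL dr c) (Finset.univ.filter fun x => D < 2 * s x) +
      (Finset.univ.filter fun x => 0 < s x ∧ 2 * s x ≤ D).card ≤ N.card := by
  classical
  have hsc : ∀ x, s x = cnt S x := fun x => by rw [hs, card_block]
  have hmul : 0 ≤ Fintype.card Λ * (c + 1) := Nat.zero_le _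
  -- pointwise bound
  have hpt : ∀ x, s x + (if D < 2 * s x then ∑ l, miss S l x else 0) +
      (if s x = 0 then ∑ l, gain N l x else 0) +
      (if 0 < s x ∧ 2 * s x ≤ D then Fintype.card Λ * (c + 1) + 1 else 0) ≤ cnt N x := by
    intro x
    by_cases h1 : D < 2 * s x
    · have h2 : 2 ≤ cnt S x := by rw [← hsc]; omega
      have h3 := cnt_two hN h2
      have h4 := cnt_miss S x
      rw [if_pos h1, if_neg (by omega), if_neg (by omega), h3, hsc x]
      omega
    · rw [if_neg h1]
      by_cases h5 : s x = 0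
      · rw [if_pos h5, if_neg (by omega), h5]
        have := cnt_eq N x
        omega
      · rw [if_neg h5, if_pos (by omega)]
        by_cases h6 : 2 ≤ s x
        · have h7 : 2 ≤ cnt S x := by rw [← hsc]; exact h6
          have h8 := cnt_two hN h7
          rw [h8]
          omega
        · have h7 : 1 ≤ cnt S x := by rw [← hsc]; omega
          have h8 := cnt_one hN h7
          omega
  -- cut links
  have hcut : ∀ l, (∑ x ∈ Finset.univ.filter fun x => D < 2 * s x,
      if pt l x ∈ Finset.univ.filter fun x => D < 2 * s x then 0 else wL dr c l x) ≤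
      (∑ x, if D < 2 * s x then miss S l x else 0) +
      (∑ y, if s y = 0 then gain N l y else 0) +
      (∑ y, if 0 < s y ∧ 2 * s y ≤ D then c + 1 else 0) := by
    intro l
    have hinv : Function.Involutive (pt l) := hp.inv l
    have e1 : ∀ g : Blk → ℕ, ∑ y, g y = ∑ x, g (pt l x) := fun g =>
      (Equiv.sum_comp (hinv.toPerm (pt l)) g).symm
    rw [e1 (fun y => if s y = 0 then gain N l y else 0),
      e1 (fun y => if 0 < s y ∧ 2 * s y ≤ D then c + 1 else 0), Finset.sum_filter,
      ← Finset.sum_add_distrib, ← Finset.sum_add_distrib]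
    refine Finset.sum_le_sum fun x _ => ?_
    by_cases h1 : D < 2 * s x
    · rw [if_pos h1, if_pos h1]
      have hmem : pt l x ∈ Finset.univ.filter (fun x => D < 2 * s x) ↔ D < 2 * s (pt l x) := by
        simp
      by_cases h2 : D < 2 * s (pt l x)
      · rw [if_pos (hmem.mpr h2)]
        exact Nat.zero_le _
      · rw [if_neg fun h => h2 (hmem.mp h)]
        have hne : pt l x ≠ x := by
          intro h
          rw [h] at h2
          exact h2 h1
        by_cases h3 : s (pt l x) = 0
        · rw [if_pos h3, if_neg (by omega)]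
          have := link_gain hp hN l x hne
          omega
        · rw [if_neg h3, if_pos (by omega)]
          have : wL dr c l x ≤ c + 1 := by
            unfold wL
            cases dr l x <;> simp
          omega
    · rw [if_neg h1, if_neg h1]
      exact Nat.zero_le _
  have hN1 := card_eq N
  have hS1 : S.card = ∑ x, s x := by
    rw [card_eq S]
    exact Finset.sum_congr rfl fun x _ => (hsc x).symm
  have hsum := Finset.sum_le_sum fun x (_ : x ∈ Finset.univ) => hpt x
  rw [Finset.sum_add_distrib, Finset.sum_add_distrib, Finset.sum_add_distrib] at hsum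
  have hcutx : cutX pt (wL dr c) (Finset.univ.filter fun x => D < 2 * s x) ≤
      (∑ x, if D < 2 * s x then ∑ l, miss S l x else 0) +
      (∑ x, if s x = 0 then ∑ l, gain N l x else 0) +
      (Finset.univ.filter fun x => 0 < s x ∧ 2 * s x ≤ D).card *
        (Fintype.card Λ * (c + 1)) := by
    unfold cutX
    refine le_trans (Finset.sum_le_sum fun l _ => hcut l) ?_
    rw [Finset.sum_add_distrib, Finset.sum_add_distrib, Finset.sum_comm,
      Finset.sum_comm (f := fun l y => if s y = 0 then gain N l y else 0)]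
    refine Nat.add_le_add (Nat.add_le_add (le_of_eq ?_) (le_of_eq ?_)) (le_of_eq ?_)
    · refine Finset.sum_congr rfl fun x _ => ?_
      split_ifs <;> simp
    · refine Finset.sum_congr rfl fun x _ => ?_
      split_ifs <;> simp
    · rw [Finset.sum_const, Finset.card_univ, smul_eq_mul, ← Finset.sum_filter,
        Finset.sum_const, smul_eq_mul]
      ring
  have hB : ∑ x, (if 0 < s x ∧ 2 * s x ≤ D then Fintype.card Λ * (c + 1) + 1 else 0) =
      (Finset.univ.filter fun x => 0 < s x ∧ 2 * s x ≤ D).card *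
        (Fintype.card Λ * (c + 1)) +
      (Finset.univ.filter fun x => 0 < s x ∧ 2 * s x ≤ D).card := by
    rw [← Finset.sum_filter, Finset.sum_const, smul_eq_mul]
    ring
  rw [hB] at hsum
  omega

/-- heavy blocks have all right vertices as neighbours -/
theorem full_left (hp : Pairing pt dr) {D : ℕ} (hD : D = Fintype.card Λ * (c + 1) + f)
    (hf : Fintype.card Λ * (c + 1) + 2 * (c + 1) + 2 ≤ f) (S N : Finset (Vx Λ Blk c f))
    (hN : ∀ v, v ∈ N ↔ ∃ u ∈ S, XRel pt dr c f u v) (s : Blk → ℕ)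
    (hs : ∀ x, s x = (S.filter fun u => u.1 = x).card) :
    D * (Finset.univ.filter fun x => D < 2 * s x).card ≤ N.card := by
  classical
  have hsc : ∀ x, s x = XExpLAux.cnt S x := fun x => by rw [hs, XExpLAux.card_block]
  rw [XExpLAux.card_eq N]
  calc D * (Finset.univ.filter fun x => D < 2 * s x).card
      = ∑ x ∈ Finset.univ.filter (fun x => D < 2 * s x), D := by
        rw [Finset.sum_const, smul_eq_mul, mul_comm]
    _ ≤ ∑ x ∈ Finset.univ.filter (fun x => D < 2 * s x), XExpLAux.cnt N x := by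
        refine Finset.sum_le_sum fun x hx => ?_
        have h1 := (Finset.mem_filter.mp hx).2
        have h2 : 2 ≤ XExpLAux.cnt S x := by rw [← hsc]; omega
        rw [XExpLAux.cnt_two hN h2, hD]
    _ ≤ ∑ x, XExpLAux.cnt N x :=
        Finset.sum_le_sum_of_subset (Finset.filter_subset _ _)

end Pool.Agent.Lib.Pa7c826s
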