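import Pool.Agent.Lib.Pa7c826s.XDef

/-!
The number of pure sets for a given state of the blocks.

Hint: adapt `crd`, `crd_injective`, `pure_iff` (Lib/Pa7c826/Block.lean) and `card_pure`
(Lib/Pa7c826/BlockCount.lean), with the links
`Γ := {g : Λ × Blk // pt g.1 g.2 ≠ g.2 ∧ dr g.1 g.2 = true}` instead of the gadgets, the coordinates
`((l, x), j, b) ↦ (bif b then pt l x else x, .inl (l, j))` and `card_constrained`, `wt_free`,
`wt_LR`, `wt_RL`, `xx_eq`, `yy_eq`. Links with `pt l x = x` and `dr l x = true` contribute the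
factor `nw c s s = 1` to `lprod`.
-/

namespace Pool.Agent.Lib.Pa7c826s

open Pool.Agent.Lib.Pa7c826 Pool.Agent.Lib.Pa7c826t

namespace XPureAux

variable {Λ Blk : Type} (pt : Λ → Blk → Blk) (dr : Λ → Blk → Bool) (c f : ℕ)

/-- links -/
abbrev Lk : Type := {g : Λ × Blk // pt g.1 g.2 ≠ g.2 ∧ dr g.1 g.2 = true}

/-- the coordinates touched by a link -/
def xcrd (p : Lk pt dr × (Fin (c + 1) × Bool)) : Vx Λ Blk c f :=
  (bif p.2.2 then pt p.1.1.1 p.1.1.2 else p.1.1.2, .inl (p.1.1.1, p.2.1))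

variable {pt dr}

theorem xcrd_injective (hp : Pairing pt dr) : Function.Injective (xcrd pt dr c f) := by
  rintro ⟨⟨⟨l, x⟩, hx, hd⟩, j, b⟩ ⟨⟨⟨l', x'⟩, hx', hd'⟩, j', b'⟩ h
  simp only [xcrd, Prod.mk.injEq, Sum.inl.injEq] at h
  obtain ⟨h1, rfl, rfl⟩ := h
  simp only at hx hd hx' hd'
  cases b <;> cases b'
  · simp only [cond_false] at h1
    subst h1
    rfl
  · simp only [cond_false, cond_true] at h1
    rw [h1, hp.dir l x' hx', hd'] at hd
    exact absurd hd (by simp)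
  · simp only [cond_false, cond_true] at h1
    rw [← h1, hp.dir l x hx, hd] at hd'
    exact absurd hd' (by simp)
  · simp only [cond_true] at h1
    have h2 : x = x' := by rw [← hp.inv l x, h1, hp.inv]
    subst h2
    rfl

/-- edges between different blocks -/
theorem XRel_diff {u v : Vx Λ Blk c f} (h : u.1 ≠ v.1) :
    XRel pt dr c f u v ↔ ∃ g : Λ × Fin (c + 1), v.2 = .inl g ∧ pt g.1 v.1 ≠ v.1 ∧
      ((dr g.1 v.1 = true ∧ u.1 = pt g.1 v.1 ∧ u.2 = .inl (g.1, 0)) ∨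
        (dr g.1 v.1 = false ∧ u.1 = pt g.1 v.1 ∧ u.2 = .inl g)) := by
  unfold XRel
  rcases hv : v.2 with g | s'
  · simp only
    constructor
    · rintro (⟨_, h1⟩ | ⟨h1, h2, ⟨h3, _⟩ | ⟨h3, h4⟩⟩ | ⟨h1, h2, ⟨h3, _⟩ | ⟨h3, h4⟩⟩)
      · exact absurd h1 h
      · exact absurd h3 h
      · exact ⟨g, rfl, h1, Or.inl ⟨h2, h3, h4⟩⟩
      · exact absurd h3 h
      · exact ⟨g, rfl, h1, Or.inr ⟨h2, h3, h4⟩⟩
    · rintro ⟨g', hg, h1, h2⟩
      simp only [Sum.inl.injEq] at hg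
      subst hg
      rcases h2 with ⟨h2, h3, h4⟩ | ⟨h2, h3, h4⟩
      · exact Or.inr (Or.inl ⟨h1, h2, Or.inr ⟨h3, h4⟩⟩)
      · exact Or.inr (Or.inr ⟨h1, h2, Or.inr ⟨h3, h4⟩⟩)
  · simp only
    constructor
    · intro h1; exact absurd h1 h
    · rintro ⟨g, hg, _⟩
      simp at hg

theorem xpure_iff (hp : Pairing pt dr) (σ : Blk → Bool) (U : Set (Vx Λ Blk c f)) :
    XPure pt dr c f σ U ↔
      ∀ γ : Lk pt dr, con c True (σ γ.1.2) (σ (pt γ.1.1 γ.1.2))
        {d | xcrd pt dr c f (γ, d) ∈ U} := by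
  constructor
  · rintro h ⟨⟨l, x⟩, hx, hd⟩ _
    simp only at hx hd
    have hx' : pt l (pt l x) ≠ pt l x := by rw [hp.inv]; exact fun e => hx e.symm
    constructor
    · rintro ⟨h1, h2⟩ j ⟨h3, h4⟩
      refine h _ h3 _ h4 h1 h2 ?_
      rw [XRel_diff]
      · refine ⟨(l, j), rfl, hx', Or.inr ⟨?_, ?_, rfl⟩⟩
        · show dr l (pt l x) = false
          rw [hp.dir l x hx, hd]
          rfl
        · show x = pt l (pt l x)
          rw [hp.inv]
      · show x ≠ pt l x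
        exact fun e => hx e.symm
    · rintro ⟨h1, h2⟩ j ⟨h3, h4⟩
      refine h _ h3 _ h4 h2 h1 ?_
      rw [XRel_diff]
      · exact ⟨(l, j), rfl, hx, Or.inl ⟨hd, rfl, rfl⟩⟩
      · show pt l x ≠ x
        exact hx
  · intro h u hu v hv h1 h2 hR
    rw [XRel_diff c f (by intro e; rw [e, h2] at h1; exact absurd h1 (by simp))] at hR
    obtain ⟨⟨l, j⟩, h3, h4, ⟨h5, h6, h7⟩ | ⟨h5, h6, h7⟩⟩ := hR
    · simp only at h4 h5 h6 h7
      refine (h ⟨(l, v.1), h4, h5⟩ trivial).2 ⟨h2, ?_⟩ j ⟨?_, ?_⟩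
      · show σ (pt l v.1) = true
        rw [← h6]; exact h1
      · show xcrd pt dr c f (⟨(l, v.1), h4, h5⟩, (0, true)) ∈ U
        have : xcrd pt dr c f (⟨(l, v.1), h4, h5⟩, (0, true)) = u := Prod.ext h6.symm h7.symm
        rw [this]; exact hu
      · show xcrd pt dr c f (⟨(l, v.1), h4, h5⟩, (j, false)) ∈ U
        have : xcrd pt dr c f (⟨(l, v.1), h4, h5⟩, (j, false)) = v := Prod.ext rfl h3.symm
        rw [this]; exact hv
    · simp only at h4 h5 h6 h7
      have h8 : pt l u.1 = v.1 := by rw [h6, hp.inv]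
      have h9 : pt l u.1 ≠ u.1 := by rw [h8, h6]; exact fun e => h4 e.symm
      have h10 : dr l u.1 = true := by rw [h6, hp.dir l v.1 h4, h5]; rfl
      refine (h ⟨(l, u.1), h9, h10⟩ trivial).1 ⟨h1, ?_⟩ j ⟨?_, ?_⟩
      · show σ (pt l u.1) = false
        rw [h8]; exact h2
      · show xcrd pt dr c f (⟨(l, u.1), h9, h10⟩, (j, false)) ∈ U
        have : xcrd pt dr c f (⟨(l, u.1), h9, h10⟩, (j, false)) = u := Prod.ext rfl h7.symm
        rw [this]; exact hu
      · show xcrd pt dr c f (⟨(l, u.1), h9, h10⟩, (j, true)) ∈ U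
        have : xcrd pt dr c f (⟨(l, u.1), h9, h10⟩, (j, true)) = v := Prod.ext h8 h3.symm
        rw [this]; exact hv

theorem wt_nw (c : ℕ) (s t : Bool) : (wt c True s t : ℚ) = nw c s t * 4 ^ (c + 1) := by
  unfold nw
  by_cases h : s = t
  · rw [if_pos h, wt_free (Or.inr h)]
    push_cast
    ring
  · rw [if_neg h]
    cases s <;> cases t
    · exact absurd rfl h
    · rw [if_neg (by simp), wt_RL trivial, yy_eq]
    · rw [if_pos rfl, wt_LR trivial, xx_eq]
    · exact absurd rfl h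

end XPureAux

open XPureAux in
theorem card_xpure {Λ Blk : Type} [Fintype Λ] [Fintype Blk] {pt : Λ → Blk → Blk}
    {dr : Λ → Blk → Bool} {c f : ℕ} (hp : Pairing pt dr) (σ : Blk → Bool) :
    (Nat.card {U : Set (Vx Λ Blk c f) // XPure pt dr c f σ U} : ℚ) =
      2 ^ (Fintype.card Blk * (Fintype.card Λ * (c + 1) + f)) * lprod pt dr c σ := by
  classical
  have h := card_constrained (xcrd pt dr c f) (xcrd_injective c f hp)
    (fun γ v => con c True (σ γ.1.2) (σ (pt γ.1.1 γ.1.2)) v)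
  have e : Nat.card {U : Set (Vx Λ Blk c f) // XPure pt dr c f σ U} =
      Nat.card {U : Set (Vx Λ Blk c f) // ∀ γ : Lk pt dr,
        con c True (σ γ.1.2) (σ (pt γ.1.1 γ.1.2)) {d | xcrd pt dr c f (γ, d) ∈ U}} :=
    Nat.card_congr (Equiv.subtypeEquivRight fun U => xpure_iff c f hp σ U)
  rw [← e] at h
  have h1 := congrArg (fun n : ℕ => (n : ℚ)) h
  simp only [Nat.cast_mul, Nat.cast_pow, Nat.cast_ofNat, Nat.cast_prod] at h1
  have h2 : ∀ γ : Lk pt dr, (Nat.card {v : Set (Fin (c + 1) × Bool) //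
      con c True (σ γ.1.2) (σ (pt γ.1.1 γ.1.2)) v} : ℚ) =
      nw c (σ γ.1.2) (σ (pt γ.1.1 γ.1.2)) * 4 ^ (c + 1) := fun γ =>
    wt_nw c (σ γ.1.2) (σ (pt γ.1.1 γ.1.2))
  rw [Finset.prod_congr rfl fun γ _ => h2 γ, Finset.prod_mul_distrib, Finset.prod_const,
    Finset.card_univ] at h1
  have h3 : (2 : ℚ) ^ (Fintype.card (Lk pt dr) * Fintype.card (Fin (c + 1) × Bool)) =
      ((4 : ℚ) ^ (c + 1)) ^ Fintype.card (Lk pt dr) := by
    rw [← pow_mul, show (4 : ℚ) = 2 ^ 2 by norm_num, ← pow_mul, Fintype.card_prod,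
      Fintype.card_fin, Fintype.card_bool]
    congr 1
    ring
  have h4 : Fintype.card (Vx Λ Blk c f) =
      Fintype.card Blk * (Fintype.card Λ * (c + 1) + f) := by
    rw [Fintype.card_prod, Fintype.card_sum, Fintype.card_prod, Fintype.card_fin,
      Fintype.card_fin]
  have h5 : ∏ γ : Lk pt dr, nw c (σ γ.1.2) (σ (pt γ.1.1 γ.1.2)) = lprod pt dr c σ := by
    have h6 : ∏ γ : Lk pt dr, nw c (σ γ.1.2) (σ (pt γ.1.1 γ.1.2)) =
        ∏ g ∈ Finset.univ.filter (fun g : Λ × Blk => pt g.1 g.2 ≠ g.2 ∧ dr g.1 g.2 = true),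
          nw c (σ g.2) (σ (pt g.1 g.2)) :=
      (Finset.prod_subtype _ (fun g => by simp)
        (fun g : Λ × Blk => nw c (σ g.2) (σ (pt g.1 g.2)))).symm
    rw [h6, Finset.prod_filter, ← Finset.univ_product_univ, Finset.prod_product]
    unfold lprod
    refine Finset.prod_congr rfl fun l _ => Finset.prod_congr rfl fun x _ => ?_
    simp only
    cases hd : dr l x
    · simp
    · by_cases hx : pt l x = x
      · rw [if_neg (fun h => h.1 hx), hx]
        simp [nw]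
      · rw [if_pos ⟨hx, rfl⟩]
        rfl
  rw [h3, h4, h5, ← mul_assoc] at h1
  exact mul_right_cancel₀ (by positivity) h1

theorem xpure_eq {Λ Blk : Type} [Fintype Λ] [Fintype Blk] [DecidableEq Blk] {pt : Λ → Blk → Blk}
    {dr : Λ → Blk → Bool} {c f : ℕ} (hp : Pairing pt dr) :
    (xpure pt dr c f : ℚ) = 2 ^ (Fintype.card Blk * (Fintype.card Λ * (c + 1) + f)) *
      ∑ σ : Blk → Bool, lprod pt dr c σ := by
  unfold xpure
  rw [Nat.cast_sum, Finset.mul_sum]
  exact Finset.sum_congr rfl fun σ _ => card_xpure hp σ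

end Pool.Agent.Lib.Pa7c826s
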